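import Pool.Agent.T6.H46.UA.Sound

/-! A unique address at the ratio `7 / 11`, and the vertices of the quadrangle. -/

open Filter Topology

namespace Pool.T6H46.UA

/-- the letters of the period `0 3 0 3 2` -/
def ww : Fin 5 → Fin 4
  | 0 => 0
  | 1 => 3
  | 2 => 0
  | 3 => 3
  | 4 => 2

/-- the orbit of the periodic point -/
noncomputable def xx : Fin 5 → E 2
  | 0 => !₂[96001584 / 144244, 523638416 / 144244]
  | 1 => !₂[150859632 / 144244, 822860368 / 144244]
  | 2 => !₂[237065136 / 144244, 468814864 / 144244]
  | 3 => !₂[372530928 / 144244, 736709072 / 144244]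
  | 4 => !₂[585405744 / 144244, 333434256 / 144244]

theorem xx_step (c : Fin 5) : xx c = hom (7 / 11) quad (ww c) (xx (c + 1)) := by
  fin_cases c <;> ext m <;> fin_cases m <;> simp [xx, ww, hom, quad] <;> norm_num

theorem inv_uu' (k : Fin 4) (j : Dg) (z : E 2) :
    7 * uu k (inv (7 / 11) quad (ix j) z) = 11 * uu k z - 4 * (get (U j) k : ℝ) := by
  have h := uu_hom (7 / 11) k j (inv (7 / 11) quad (ix j) z)
  rw [hom_inv (by norm_num)] at h
  rw [h]
  ring

theorem fail {e : ℕ → Fin 4} {x : E 2} (h : IsAddr (7 / 11) quad e x) (k : Fin 4) :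
    4 * (get (U (dg (e 0))) k : ℝ) ≤ 11 * uu k x := by
  have h1 := addr_shift (by norm_num) quad e x h
  have h2 := uu_nonneg (by norm_num) (by norm_num) h1 k
  have h3 := inv_uu' k (dg (e 0)) x
  rw [ix_dg] at h3
  linarith

theorem fail' {e : ℕ → Fin 4} {x : E 2} (h : IsAddr (7 / 11) quad e x) (i : Fin 4) (hi : e 0 = i)
    (k : Fin 4) : 4 * (get (U (dg i)) k : ℝ) ≤ 11 * uu k x := by
  subst hi
  exact fail h k

theorem inv_eq {x y : E 2} {i : Fin 4} (h : x = hom (7 / 11) quad i y) :
    inv (7 / 11) quad i x = y := by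
  rw [h, inv_hom (by norm_num)]

/-- the other preimages of the fifth point -/
noncomputable def zz : Fin 4 → E 2
  | 0 => !₂[585405744 / 144244, 333434256 / 144244]
  | 1 => !₂[(11 * (585405744 / 144244) - 4 * 8875) / 7, 11 * (333434256 / 144244) / 7]
  | 2 => !₂[11 * ((11 * (585405744 / 144244) - 4 * 8875) / 7) / 7,
          11 * (11 * (333434256 / 144244) / 7) / 7]
  | 3 => !₂[11 * (11 * ((11 * (585405744 / 144244) - 4 * 8875) / 7) / 7) / 7,
          (11 * (11 * (11 * (333434256 / 144244) / 7) / 7) - 40000) / 7]

theorem zz_step0 : zz 0 = hom (7 / 11) quad 1 (zz 1) := by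
  ext m; fin_cases m <;> (simp [zz, hom, quad]; try norm_num)

theorem zz_step1 : zz 1 = hom (7 / 11) quad 0 (zz 2) := by
  ext m; fin_cases m <;> simp [zz, hom, quad]

theorem zz_step2 : zz 2 = hom (7 / 11) quad 3 (zz 3) := by
  ext m; fin_cases m <;> (simp [zz, hom, quad]; try norm_num)

theorem zz3 {e : ℕ → Fin 4} (h : IsAddr (7 / 11) quad e (zz 3)) : False := by
  obtain ⟨i, hi⟩ : ∃ i, e 0 = i := ⟨_, rfl⟩
  fin_cases i
  · have := fail' h 0 hi 2
    simp [uu, zz, get, U, dg] at this
    norm_num at this
  · have := fail' h 1 hi 0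
    simp [uu, zz, get, U, dg] at this
    norm_num at this
  · have := fail' h 2 hi 0
    simp [uu, zz, get, U, dg] at this
    norm_num at this
  · have := fail' h 3 hi 1
    simp [uu, zz, get, U, dg] at this
    norm_num at this

theorem zz2 {e : ℕ → Fin 4} (h : IsAddr (7 / 11) quad e (zz 2)) : False := by
  obtain ⟨i, hi⟩ : ∃ i, e 0 = i := ⟨_, rfl⟩
  fin_cases i
  · have := fail' h 0 hi 2
    simp [uu, zz, get, U, dg] at this
    norm_num at this
  · have := fail' h 1 hi 0
    simp [uu, zz, get, U, dg] at this
    norm_num at this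
  · have := fail' h 2 hi 0
    simp [uu, zz, get, U, dg] at this
    norm_num at this
  · have h1 := addr_shift (by norm_num) quad e _ h
    have hi' : e 0 = 3 := hi
    rw [hi', inv_eq zz_step2] at h1
    exact zz3 h1

theorem zz1 {e : ℕ → Fin 4} (h : IsAddr (7 / 11) quad e (zz 1)) : False := by
  obtain ⟨i, hi⟩ : ∃ i, e 0 = i := ⟨_, rfl⟩
  fin_cases i
  · have h1 := addr_shift (by norm_num) quad e _ h
    have hi' : e 0 = 0 := hi
    rw [hi', inv_eq zz_step1] at h1
    exact zz2 h1
  · have := fail' h 1 hi 0
    simp [uu, zz, get, U, dg] at this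
    norm_num at this
  · have := fail' h 2 hi 0
    simp [uu, zz, get, U, dg] at this
    norm_num at this
  · have := fail' h 3 hi 1
    simp [uu, zz, get, U, dg] at this
    norm_num at this

/-- the periodic points: first symbol -/
theorem first_symbol (c : Fin 5) {e : ℕ → Fin 4} (h : IsAddr (7 / 11) quad e (xx c)) :
    e 0 = ww c := by
  obtain ⟨i, hi⟩ : ∃ i, e 0 = i := ⟨_, rfl⟩
  by_contra hne
  rw [hi] at hne
  fin_cases c
  · fin_cases i
    · exact hne rfl
    · have := fail' h 1 hi 0
      simp [uu, xx, get, U, dg] at this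
      norm_num at this
    · have := fail' h 2 hi 0
      simp [uu, xx, get, U, dg] at this
      norm_num at this
    · have := fail' h 3 hi 1
      simp [uu, xx, get, U, dg] at this
      norm_num at this
  · fin_cases i
    · have := fail' h 0 hi 2
      simp [uu, xx, get, U, dg] at this
      norm_num at this
    · have := fail' h 1 hi 0
      simp [uu, xx, get, U, dg] at this
      norm_num at this
    · have := fail' h 2 hi 0
      simp [uu, xx, get, U, dg] at this
      norm_num at this
    · exact hne rfl
  · fin_cases i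
    · exact hne rfl
    · have := fail' h 1 hi 0
      simp [uu, xx, get, U, dg] at this
      norm_num at this
    · have := fail' h 2 hi 0
      simp [uu, xx, get, U, dg] at this
      norm_num at this
    · have := fail' h 3 hi 1
      simp [uu, xx, get, U, dg] at this
      norm_num at this
  · fin_cases i
    · have := fail' h 0 hi 2
      simp [uu, xx, get, U, dg] at this
      norm_num at this
    · have := fail' h 1 hi 0
      simp [uu, xx, get, U, dg] at this
      norm_num at this
    · have := fail' h 2 hi 0
      simp [uu, xx, get, U, dg] at this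
      norm_num at this
    · exact hne rfl
  · fin_cases i
    · have := fail' h 0 hi 2
      simp [uu, xx, get, U, dg] at this
      norm_num at this
    · have h1 := addr_shift (by norm_num) quad e _ h
      have hi' : e 0 = 1 := hi
      have hx : xx 4 = zz 0 := rfl
      have h2 : IsAddr (7 / 11) quad (fun n => e (n + 1)) (inv (7 / 11) quad 1 (zz 0)) := by
        rw [hi'] at h1
        exact h1
      rw [inv_eq zz_step0] at h2
      exact zz1 h2
    · exact hne rfl
    · have := fail' h 3 hi 1
      simp [uu, xx, get, U, dg] at this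
      norm_num at this

/-- position after `n` steps -/
def pos (c : Fin 5) : ℕ → Fin 5
  | 0 => c
  | n + 1 => pos c n + 1

theorem pos_succ (c : Fin 5) (n : ℕ) : pos (c + 1) n = pos c n + 1 := by
  induction n with
  | zero => rfl
  | succ n ih => simp only [pos, ih]

theorem xx_addr (c : Fin 5) : IsAddr (7 / 11) quad (fun n => ww (pos c n)) (xx c) :=
  addr_of_orbit (lam := 7 / 11) (by norm_num) (by norm_num) quad
    (fun n => ww (pos c n)) (fun n => xx (pos c n))
    (∑ c, ‖xx c‖)
    (fun n => Finset.single_le_sum (f := fun c => ‖xx c‖) (fun i _ => norm_nonneg _)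
      (Finset.mem_univ _)) (fun n => xx_step (pos c n))

theorem xx_unique : ∀ (n : ℕ) (c : Fin 5) (e : ℕ → Fin 4), IsAddr (7 / 11) quad e (xx c) →
    e n = ww (pos c n) := by
  intro n
  induction n with
  | zero => intro c e h; exact first_symbol c h
  | succ n ih =>
    intro c e h
    have h1 := addr_shift (by norm_num) quad e _ h
    rw [first_symbol c h, inv_eq (xx_step c)] at h1
    have h2 := ih (c + 1) _ h1
    rw [pos_succ] at h2
    exact h2

/-- at the ratio `7/11` the point `xx 0` is not a vertex and has exactly one address -/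
theorem upper : xx 0 ∉ Set.range quad ∧ ∃! e, IsAddr (7 / 11) quad e (xx 0) := by
  constructor
  · rintro ⟨i, hi⟩
    have h0 : quad i 1 = xx 0 1 := by rw [hi]
    fin_cases i <;> simp [quad, xx] at h0 <;> norm_num at h0
  · refine ⟨_, xx_addr 0, fun e he => ?_⟩
    funext n
    exact xx_unique n 0 e he

theorem quad_indep : ConvexIndependent ℝ quad := by
  intro s i hi
  by_contra hs
  have key : ∀ (a b : ℝ) (c : ℝ), (∀ j, j ≠ i → a * quad j 0 + b * quad j 1 ≤ c) →
      c < a * quad i 0 + b * quad i 1 → False := by
    intro a b c h1 h2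
    have hconv : Convex ℝ {z : E 2 | a * z 0 + b * z 1 ≤ c} := by
      intro x hx y hy α β hα hβ hαβ
      simp only [Set.mem_ofPred_eq] at hx hy ⊢
      simp only [PiLp.add_apply, PiLp.smul_apply, smul_eq_mul]
      have e1 : a * (α * x 0 + β * y 0) + b * (α * x 1 + β * y 1)
        = α * (a * x 0 + b * x 1) + β * (a * y 0 + b * y 1) := by ring
      rw [e1]
      have e2 : c = α * c + β * c := by rw [← add_mul, hαβ, one_mul]
      rw [e2]
      exact add_le_add (mul_le_mul_of_nonneg_left hx hα) (mul_le_mul_of_nonneg_left hy hβ)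
    have hsub : quad '' s ⊆ {z : E 2 | a * z 0 + b * z 1 ≤ c} := by
      rintro _ ⟨j, hj, rfl⟩
      exact h1 j (fun h => hs (h ▸ hj))
    have h3 := convexHull_min hsub hconv hi
    have h4 : a * quad i 0 + b * quad i 1 ≤ c := h3
    linarith
  fin_cases i
  · refine key (-1) (-1) (-1) (fun j hj => ?_) (by simp [quad])
    fin_cases j
    · exact absurd rfl hj
    · simp [quad]; try norm_num
    · simp [quad]; try norm_num
    · simp [quad]
  · refine key 4 (-1122) 35496 (fun j hj => ?_) (by simp [quad]; norm_num)
    fin_cases j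
    · simp [quad]
    · exact absurd rfl hj
    · simp [quad]; norm_num
    · simp [quad]; norm_num
  · refine key 5 (-1120) 44375 (fun j hj => ?_) (by simp [quad]; norm_num)
    fin_cases j
    · simp [quad]
    · simp [quad]; norm_num
    · exact absurd rfl hj
    · simp [quad]; norm_num
  · refine key 0 1 4 (fun j hj => ?_) (by simp [quad]; norm_num)
    fin_cases j
    · simp [quad]
    · simp [quad]
    · simp [quad]
    · exact absurd rfl hj

end Pool.T6H46.UA
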