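import Mathlib

/-! Addresses in self-similar sets of homotheties: general facts. -/

open Filter Topology

namespace Pool.T6H46.UA

variable {d k : ℕ}

/-- Euclidean space -/
abbrev E (d : ℕ) : Type := EuclideanSpace ℝ (Fin d)

/-- the homothety `x ↦ lam x + (1 - lam) p i` -/
noncomputable def hom (lam : ℝ) (p : Fin k → E d) (i : Fin k) (x : E d) : E d :=
  lam • x + (1 - lam) • p i

/-- nonempty compact sets that are the union of their images -/
def IsSelf (lam : ℝ) (p : Fin k → E d) (S : Set (E d)) : Prop :=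
  S.Nonempty ∧ IsCompact S ∧ S = ⋃ i, hom lam p i '' S

/-- `e` is an address of `x` -/
def IsAddr (lam : ℝ) (p : Fin k → E d) (e : ℕ → Fin k) (x : E d) : Prop :=
  HasSum (fun n : ℕ => (1 - lam) • lam ^ n • p (e n)) x

/-- the inverse of the homothety -/
noncomputable def inv (lam : ℝ) (p : Fin k → E d) (i : Fin k) (x : E d) : E d :=
  lam⁻¹ • (x - (1 - lam) • p i)

theorem hom_inv {lam : ℝ} (h : lam ≠ 0) (p : Fin k → E d) (i : Fin k) (x : E d) :
    hom lam p i (inv lam p i x) = x := by
  unfold hom inv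
  rw [smul_smul, mul_inv_cancel₀ h, one_smul, sub_add_cancel]

theorem inv_hom {lam : ℝ} (h : lam ≠ 0) (p : Fin k → E d) (i : Fin k) (x : E d) :
    inv lam p i (hom lam p i x) = x := by
  unfold hom inv
  rw [add_sub_cancel_right, smul_smul, inv_mul_cancel₀ h, one_smul]

theorem bdd_p (p : Fin k → E d) : ∃ M : ℝ, 0 ≤ M ∧ ∀ i, ‖p i‖ ≤ M := by
  refine ⟨∑ i, ‖p i‖, Finset.sum_nonneg (fun i _ => norm_nonneg _), fun i => ?_⟩
  exact Finset.single_le_sum (f := fun i => ‖p i‖) (fun i _ => norm_nonneg _) (Finset.mem_univ i)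

theorem summ {lam : ℝ} (h0 : 0 < lam) (h1 : lam < 1) (p : Fin k → E d) (e : ℕ → Fin k) :
    Summable (fun n : ℕ => (1 - lam) • lam ^ n • p (e n)) := by
  obtain ⟨M, hM, hp⟩ := bdd_p p
  have hg : Summable (fun n : ℕ => (1 - lam) * M * lam ^ n) :=
    (summable_geometric_of_lt_one h0.le h1).mul_left _
  refine Summable.of_norm_bounded hg (fun n => ?_)
  rw [norm_smul, norm_smul, Real.norm_of_nonneg (by linarith), norm_pow,
    Real.norm_of_nonneg h0.le]
  have := hp (e n)
  have hpn : 0 ≤ lam ^ n := pow_nonneg h0.le n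
  have h2 : lam ^ n * ‖p (e n)‖ ≤ lam ^ n * M := mul_le_mul_of_nonneg_left this hpn
  nlinarith

theorem addr_exists {lam : ℝ} (h0 : 0 < lam) (h1 : lam < 1) (p : Fin k → E d) (e : ℕ → Fin k) :
    IsAddr lam p e (∑' n : ℕ, (1 - lam) • lam ^ n • p (e n)) :=
  (summ h0 h1 p e).hasSum

/-- orbits give addresses -/
theorem addr_of_orbit {lam : ℝ} (h0 : 0 < lam) (h1 : lam < 1) (p : Fin k → E d) (e : ℕ → Fin k)
    (y : ℕ → E d) (M : ℝ) (hM : ∀ n, ‖y n‖ ≤ M) (hy : ∀ n, y n = hom lam p (e n) (y (n + 1))) :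
    IsAddr lam p e (y 0) := by
  have key : ∀ n : ℕ, ∑ m ∈ Finset.range n, (1 - lam) • lam ^ m • p (e m)
      = y 0 - lam ^ n • y n := by
    intro n
    induction n with
    | zero => simp
    | succ n ih =>
      rw [Finset.sum_range_succ, ih, hy n]
      unfold hom
      rw [smul_add, smul_smul, ← pow_succ, smul_comm (1 - lam) (lam ^ n)]
      abel
  unfold IsAddr
  rw [(summ h0 h1 p e).hasSum_iff_tendsto_nat]
  have ht : Tendsto (fun n : ℕ => lam ^ n • y n) atTop (𝓝 0) := by
    rw [tendsto_zero_iff_norm_tendsto_zero]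
    have hg : Tendsto (fun n : ℕ => lam ^ n * M) atTop (𝓝 0) := by
      have := (tendsto_pow_atTop_nhds_zero_of_lt_one h0.le h1).mul_const M
      simpa using this
    refine squeeze_zero (fun n => norm_nonneg _) (fun n => ?_) hg
    rw [norm_smul, norm_pow, Real.norm_of_nonneg h0.le]
    exact mul_le_mul_of_nonneg_left (hM n) (pow_nonneg h0.le n)
  have := ht.const_sub (y 0)
  rw [sub_zero] at this
  refine this.congr (fun n => (key n).symm)

theorem addr_shift {lam : ℝ} (h0 : 0 < lam) (p : Fin k → E d) (e : ℕ → Fin k)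
    (x : E d) (h : IsAddr lam p e x) :
    IsAddr lam p (fun n => e (n + 1)) (inv lam p (e 0) x) := by
  unfold IsAddr at h ⊢
  have h2 := (hasSum_nat_add_iff' 1).mpr h
  simp only [Finset.range_one, Finset.sum_singleton, pow_zero, one_smul] at h2
  have h3 := h2.const_smul lam⁻¹
  unfold inv
  convert h3 using 2 with n
  rw [smul_comm lam⁻¹ (1 - lam), smul_smul lam⁻¹]
  congr 2
  rw [pow_succ]
  field_simp

theorem addr_cons {lam : ℝ} (p : Fin k → E d) (e : ℕ → Fin k)
    (x : E d) (h : IsAddr lam p (fun n => e (n + 1)) x) :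
    IsAddr lam p e (hom lam p (e 0) x) := by
  unfold IsAddr at h ⊢
  have h3 := h.const_smul lam
  rw [← hasSum_nat_add_iff' 1]
  simp only [Finset.range_one, Finset.sum_singleton, pow_zero, one_smul]
  unfold hom
  rw [add_sub_cancel_right]
  convert h3 using 2 with n
  rw [smul_comm lam (1 - lam), smul_smul lam, pow_succ, mul_comm lam]

/-- prepend a symbol -/
def cons (i : Fin k) (e : ℕ → Fin k) : ℕ → Fin k
  | 0 => i
  | n + 1 => e n

theorem addr_cons' {lam : ℝ} (p : Fin k → E d) (i : Fin k) (e : ℕ → Fin k)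
    (x : E d) (h : IsAddr lam p e x) :
    IsAddr lam p (cons i e) (hom lam p i x) :=
  addr_cons p (cons i e) x h

/-- the points of a self-similar set are exactly the points with an address -/
theorem self_iff {lam : ℝ} (h0 : 0 < lam) (h1 : lam < 1) (p : Fin k → E d) {S : Set (E d)}
    (hS : IsSelf lam p S) (x : E d) : x ∈ S ↔ ∃ e, IsAddr lam p e x := by
  obtain ⟨hne, hc, heq⟩ := hS
  constructor
  · intro hx
    have step : ∀ y : S, ∃ i : Fin k, ∃ z : S, (y : E d) = hom lam p i z := by
      rintro ⟨y, hy⟩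
      have hy2 := hy
      rw [heq] at hy2
      obtain ⟨i, hi⟩ := Set.mem_iUnion.mp hy2
      obtain ⟨z, hz, hzy⟩ := hi
      exact ⟨i, ⟨z, hz⟩, hzy.symm⟩
    choose i z hz using step
    let y : ℕ → S := fun n => Nat.rec (motive := fun _ => S) ⟨x, hx⟩ (fun _ w => z w) n
    have hys : ∀ n, y (n + 1) = z (y n) := fun n => rfl
    obtain ⟨M, hM⟩ := hc.isBounded.exists_norm_le
    refine ⟨fun n => i (y n), ?_⟩
    have hyy : ∀ n, ((y n : S) : E d) = hom lam p (i (y n)) ((y (n + 1) : S) : E d) := by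
      intro n
      rw [hys n]
      exact hz (y n)
    exact addr_of_orbit h0 h1 p (fun n => i (y n)) (fun n => ((y n : S) : E d)) M
      (fun n => hM _ (y n).2) hyy
  · rintro ⟨e, he⟩
    obtain ⟨s, hs⟩ := hne
    have hstep : ∀ i, ∀ y ∈ S, hom lam p i y ∈ S := by
      intro i y hy
      rw [heq]
      exact Set.mem_iUnion.mpr ⟨i, y, hy, rfl⟩
    have key : ∀ n : ℕ, ∀ t ∈ S,
        ∑ m ∈ Finset.range n, (1 - lam) • lam ^ m • p (e m) + lam ^ n • t ∈ S := by
      intro n
      induction n with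
      | zero => intro t ht; simpa using ht
      | succ n ih =>
        intro t ht
        have := ih _ (hstep (e n) t ht)
        convert this using 1
        rw [Finset.sum_range_succ]
        unfold hom
        rw [smul_add, smul_smul (lam ^ n) lam, ← pow_succ, smul_comm (1 - lam) (lam ^ n)]
        abel
    have hlim : Tendsto (fun n : ℕ => ∑ m ∈ Finset.range n, (1 - lam) • lam ^ m • p (e m)
        + lam ^ n • s) atTop (𝓝 (x + (0 : ℝ) • s)) := by
      refine Tendsto.add he.tendsto_sum_nat ?_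
      exact (tendsto_pow_atTop_nhds_zero_of_lt_one h0.le h1).smul_const s
    rw [zero_smul, add_zero] at hlim
    exact hc.isClosed.mem_of_tendsto hlim (Eventually.of_forall (fun n => key n s hs))

/-- existence of the self-similar set -/
theorem self_exists {lam : ℝ} (h0 : 0 < lam) (h1 : lam < 1) (p : Fin k → E d) (i0 : Fin k) :
    IsSelf lam p {x | ∃ e, IsAddr lam p e x} := by
  have hset : {x : E d | ∃ e, IsAddr lam p e x}
      = Set.range (fun e : ℕ → Fin k => ∑' n : ℕ, (1 - lam) • lam ^ n • p (e n)) := by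
    ext x
    constructor
    · rintro ⟨e, he⟩
      exact ⟨e, he.tsum_eq⟩
    · rintro ⟨e, rfl⟩
      exact ⟨e, addr_exists h0 h1 p e⟩
  refine ⟨⟨_, fun _ => i0, addr_exists h0 h1 p _⟩, ?_, ?_⟩
  · rw [hset]
    apply isCompact_range
    obtain ⟨M, hM, hp⟩ := bdd_p p
    refine continuous_tsum (u := fun n : ℕ => (1 - lam) * M * lam ^ n) (fun n => ?_)
      ((summable_geometric_of_lt_one h0.le h1).mul_left _) (fun n e => ?_)
    · have : Continuous (fun e : ℕ → Fin k => p (e n)) :=
        (continuous_of_discreteTopology (f := p)).comp (continuous_apply n)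
      exact (this.const_smul (lam ^ n)).const_smul (1 - lam)
    · rw [norm_smul, norm_smul, Real.norm_of_nonneg (by linarith), norm_pow,
        Real.norm_of_nonneg h0.le]
      have := hp (e n)
      have hpn : 0 ≤ lam ^ n := pow_nonneg h0.le n
      have h2 : lam ^ n * ‖p (e n)‖ ≤ lam ^ n * M := mul_le_mul_of_nonneg_left this hpn
      nlinarith
  · ext x
    simp only [Set.mem_ofPred_eq, Set.mem_iUnion, Set.mem_image]
    constructor
    · rintro ⟨e, he⟩
      exact ⟨e 0, inv lam p (e 0) x, ⟨_, addr_shift h0 p e x he⟩, hom_inv h0.ne' p _ _⟩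
    · rintro ⟨i, y, ⟨e, he⟩, rfl⟩
      exact ⟨cons i e, addr_cons' p i e y he⟩

/-- constant addresses -/
theorem addr_const {lam : ℝ} (h0 : 0 < lam) (h1 : lam < 1) (p : Fin k → E d) (e : ℕ → Fin k)
    (hc : ∀ n, e (n + 1) = e n) (x : E d) (h : IsAddr lam p e x) : x = p (e 0) := by
  have hce : ∀ n, e n = e 0 := by
    intro n
    induction n with
    | zero => rfl
    | succ n ih => rw [hc n, ih]
  have h2 : IsAddr lam p e (p (e 0)) := by
    refine addr_of_orbit h0 h1 p e (fun _ => p (e 0)) ‖p (e 0)‖ (fun _ => le_rfl) (fun n => ?_)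
    unfold hom
    rw [hce n, ← add_smul]
    simp
  exact h.unique h2

end Pool.T6H46.UA
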