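import Pool.Agent.T6.H46.UA.Data

/-! Kernel evaluation of the finite checks. -/

namespace Pool.T6H46.UA

set_option maxRecDepth 100000 in
theorem clo_ok : clo Obs Obs = true := by decide +kernel

set_option maxRecDepth 100000 in
theorem chk_ok : chk Obs TT 1 ⟨0, 0, 0, 0⟩ ⟨9996, 10000, 10000, 11245500⟩ .A = true := by
  decide +kernel

set_option maxRecDepth 100000 in
theorem walkAB : walk TT 30 [.B, .A] = true := by decide +kernel

set_option maxRecDepth 100000 in
theorem walkAC : walk TT 30 [.C, .A] = true := by decide +kernel

set_option maxRecDepth 100000 in
theorem walkAD : walk TT 30 [.D, .A] = true := by decide +kernel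

set_option maxRecDepth 100000 in
theorem walkBA : walk TT 30 [.A, .B] = true := by decide +kernel

set_option maxRecDepth 100000 in
theorem walkBC : walk TT 30 [.C, .B] = true := by decide +kernel

set_option maxRecDepth 100000 in
theorem walkBD : walk TT 30 [.D, .B] = true := by decide +kernel

set_option maxRecDepth 100000 in
theorem walkCA : walk TT 30 [.A, .C] = true := by decide +kernel

set_option maxRecDepth 100000 in
theorem walkCB : walk TT 30 [.B, .C] = true := by decide +kernel

set_option maxRecDepth 100000 in
theorem walkCD : walk TT 30 [.D, .C] = true := by decide +kernel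

set_option maxRecDepth 100000 in
theorem walkDA : walk TT 30 [.A, .D] = true := by decide +kernel

set_option maxRecDepth 100000 in
theorem walkDB : walk TT 30 [.B, .D] = true := by decide +kernel

set_option maxRecDepth 100000 in
theorem walkDC : walk TT 30 [.C, .D] = true := by decide +kernel

theorem walk_all (j i : Dg) (h : ne j i = true) : walk TT 30 [i, j] = true := by
  cases j <;> cases i <;> first | exact absurd h (by decide) | skip
  · exact walkAB
  · exact walkAC
  · exact walkAD
  · exact walkBA
  · exact walkBC
  · exact walkBD
  · exact walkCA
  · exact walkCB
  · exact walkCD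
  · exact walkDA
  · exact walkDB
  · exact walkDC

end Pool.T6H46.UA
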