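import Mathlib

/-! Data and checking functions for the computations about the truncated triangle
with vertices `(0,0)`, `(8875,0)`, `(9996,4)`, `(0,10000)`. -/

namespace Pool.T6H46.UA

/-- the four symbols -/
inductive Dg
  | A | B | C | D

/-- quadruples of natural numbers -/
structure Q where
  a : Nat
  b : Nat
  c : Nat
  d : Nat

/-- boxes: lower and upper bounds of the four edge functionals -/
structure Bx where
  lo : Q
  hi : Q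

/-- the values of the four edge functionals at the four vertices -/
def U : Dg → Q
  | .A => ⟨0, 0, 10000, 35500⟩
  | .B => ⟨8875, 0, 1125, 0⟩
  | .C => ⟨9996, 4, 0, 0⟩
  | .D => ⟨0, 10000, 0, 11245500⟩

/-- `19 q + s u` -/
def stp (s : Nat) (u q : Q) : Q :=
  ⟨19 * q.a + s * u.a, 19 * q.b + s * u.b, 19 * q.c + s * u.c, 19 * q.d + s * u.d⟩

/-- componentwise comparison -/
def leQ (p q : Q) : Bool :=
  Nat.ble p.a q.a && (Nat.ble p.b q.b && (Nat.ble p.c q.c && Nat.ble p.d q.d))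

/-- multiply by a constant -/
def mulQ (c : Nat) (q : Q) : Q := ⟨c * q.a, c * q.b, c * q.c, c * q.d⟩

/-- truncated subtraction -/
def subQ (p q : Q) : Q := ⟨p.a - q.a, p.b - q.b, p.c - q.c, p.d - q.d⟩

/-- the box with bounds `lo`, `hi` is separated from the box `t * o` -/
def sepQ (t : Nat) (lo hi : Q) (o : Bx) : Bool :=
  Nat.ble hi.a (t * o.lo.a) || (Nat.ble (t * o.hi.a) lo.a ||
  (Nat.ble hi.b (t * o.lo.b) || (Nat.ble (t * o.hi.b) lo.b ||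
  (Nat.ble hi.c (t * o.lo.c) || (Nat.ble (t * o.hi.c) lo.c ||
  (Nat.ble hi.d (t * o.lo.d) || Nat.ble (t * o.hi.d) lo.d))))))

/-- separated from all boxes of a list -/
def sepAll (t : Nat) (lo hi : Q) : List Bx → Bool
  | [] => true
  | o :: os => sepQ t lo hi o && sepAll t lo hi os

/-- different symbols -/
def ne : Dg → Dg → Bool
  | .A, .A => false
  | .B, .B => false
  | .C, .C => false
  | .D, .D => false
  | _, _ => true

/-- the test at a forbidden word with first symbol `i`, alternative symbol `j`, scale `s` -/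
def leafc (Os : List Bx) (s : Nat) (lo hi : Q) (i j : Dg) : Bool :=
  ne i j && (leQ (mulQ (11 * s) (U j)) (mulQ 30 lo) &&
    sepAll (19 * s)
      (mulQ (30 ^ 12) (subQ (mulQ 30 lo) (mulQ (11 * s) (U j))))
      (mulQ (30 ^ 12) (subQ (mulQ 30 hi) (mulQ (11 * s) (U j)))) Os)

/-- tries of reversed words -/
inductive Tr
  | z
  | l (j : Dg)
  | n (a b c d : Tr)

/-- the geometric check of all the leaves of a trie -/
def chk (Os : List Bx) : Tr → Nat → Q → Q → Dg → Bool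
  | .z, _, _, _, _ => true
  | .l j, s, lo, hi, i => leafc Os s lo hi i j
  | .n a b c d, s, lo, hi, _ =>
    chk Os a (30 * s) (stp (11 * s) (U .A) lo) (stp (11 * s) (U .A) hi) .A &&
    (chk Os b (30 * s) (stp (11 * s) (U .B) lo) (stp (11 * s) (U .B) hi) .B &&
    (chk Os c (30 * s) (stp (11 * s) (U .C) lo) (stp (11 * s) (U .C) hi) .C &&
    chk Os d (30 * s) (stp (11 * s) (U .D) lo) (stp (11 * s) (U .D) hi) .D))

/-- does some prefix of the list lead to a leaf of the trie? -/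
def hit : Tr → List Dg → Bool
  | .z, _ => false
  | .l _, _ => true
  | .n _ _ _ _, [] => false
  | .n a _ _ _, .A :: r => hit a r
  | .n _ b _ _, .B :: r => hit b r
  | .n _ _ c _, .C :: r => hit c r
  | .n _ _ _ d, .D :: r => hit d r

/-- every extension of the (reversed) word by `f` symbols hits the trie -/
def walk (T : Tr) : Nat → List Dg → Bool
  | 0, r => hit T r
  | f + 1, r => hit T r ||
      (walk T f (.A :: r) && (walk T f (.B :: r) && (walk T f (.C :: r) && walk T f (.D :: r))))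

/-- `19 (o.lo) + c U i ≥ 30 o'.lo` and the same for the upper bounds -/
def incl (i : Dg) (o o' : Bx) : Bool :=
  leQ (mulQ 30 o'.lo) (stp (11 * 30 ^ 12) (U i) o.lo) &&
  leQ (stp (11 * 30 ^ 12) (U i) o.hi) (mulQ 30 o'.hi)

/-- inclusion in one of the boxes of a list -/
def inclAny (i : Dg) (o : Bx) : List Bx → Bool
  | [] => false
  | o' :: os => incl i o o' || inclAny i o os

/-- the image of the box under the map `i` lies in the image of the inner region under `j` -/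
def covj (Os : List Bx) (o : Bx) (i j : Dg) : Bool :=
  ne i j && (leQ (mulQ (11 * 30 ^ 12) (U j)) (stp (11 * 30 ^ 12) (U i) o.lo) &&
    sepAll 19 (subQ (stp (11 * 30 ^ 12) (U i) o.lo) (mulQ (11 * 30 ^ 12) (U j)))
      (subQ (stp (11 * 30 ^ 12) (U i) o.hi) (mulQ (11 * 30 ^ 12) (U j))) Os)

/-- the image of the box `o` under the map `i` is harmless -/
def cov (Os : List Bx) (o : Bx) (i : Dg) : Bool :=
  covj Os o i .A || (covj Os o i .B || (covj Os o i .C || (covj Os o i .D || inclAny i o Os)))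

/-- all images of all boxes of the list are harmless -/
def clo (Os : List Bx) : List Bx → Bool
  | [] => true
  | o :: os => (cov Os o .A && (cov Os o .B && (cov Os o .C && cov Os o .D))) && clo Os os

/-- the list of boxes, in units of `30 ^ (-12)` -/
def Obs : List Bx := [
  ⟨⟨1417176000000000000000, 1636395412500000000000, 1636395412500000000000, 1846347822562500000000000⟩, ⟨1729397587500000000000, 1948617000000000000000, 1948617000000000000000, 2197597108500000000000000⟩⟩,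
  ⟨⟨0, 0, 5227284321599670000000, 18556859341678828500000⟩, ⟨87090828128969868000, 87125678400330000000, 5314410000000000000000, 116534040986769930000000⟩⟩,
  ⟨⟨4685523343568349191250, 0, 593939578762185108750, 0⟩, ⟨4720456442406747104970, 34947077669465700000, 628886656431650808750, 39299736193197652935000⟩⟩,
  ⟨⟨5277351137161602086280, 2111785168932213720, 0, 0⟩, ⟨5312284236000000000000, 37058862838397913720, 34947077669465700000, 39299736193197652935000⟩⟩,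
  ⟨⟨0, 5227284321599670000000, 0, 5878342583854908898500000⟩, ⟨87090828128969868000, 5314410000000000000000, 87125678400330000000, 5976319765500000000000000⟩⟩,
  ⟨⟨897544800000000000000, 1036383761250000000000, 2985000761250000000000, 1176271211306250000000000⟩, ⟨1095285138750000000000, 1234124100000000000000, 3182741100000000000000, 1398729092400000000000000⟩⟩,
  ⟨⟨897544800000000000000, 2985000761250000000000, 1036383761250000000000, 3360670868306250000000000⟩, ⟨1095285138750000000000, 3182741100000000000000, 1234124100000000000000, 3583128749400000000000000⟩⟩,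
  ⟨⟨568445040000000000000, 656376382125000000000, 3839117482125000000000, 751889357510625000000000⟩, ⟨693680587875000000000, 781611930000000000000, 3964353030000000000000, 892779348870000000000000⟩⟩,
  ⟨⟨568445040000000000000, 2604993382125000000000, 1890500482125000000000, 2936289014510625000000000⟩, ⟨693680587875000000000, 2730228930000000000000, 2015736030000000000000, 3077179005870000000000000⟩⟩,
  ⟨⟨568445040000000000000, 1890500482125000000000, 2604993382125000000000, 2135342473610625000000000⟩, ⟨693680587875000000000, 2015736030000000000000, 2730228930000000000000, 2276232464970000000000000⟩⟩,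
  ⟨⟨568445040000000000000, 3839117482125000000000, 656376382125000000000, 4319742130610625000000000⟩, ⟨693680587875000000000, 3964353030000000000000, 781611930000000000000, 4460632121970000000000000⟩⟩,
  ⟨⟨360015192000000000000, 415705042012500000000, 4380058072012500000000, 483114183440062500000000⟩, ⟨439331038987500000000, 495020889000000000000, 4459373919000000000000, 572344511301000000000000⟩⟩,
  ⟨⟨360015192000000000000, 2364322042012500000000, 2431441072012500000000, 2667513840440062500000000⟩, ⟨439331038987500000000, 2443637889000000000000, 2510756919000000000000, 2756744168301000000000000⟩⟩,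
  ⟨⟨360015192000000000000, 1649829142012500000000, 3145933972012500000000, 1866567299540062500000000⟩, ⟨439331038987500000000, 1729144989000000000000, 3225249819000000000000, 1955797627401000000000000⟩⟩,
  ⟨⟨360015192000000000000, 3598446142012500000000, 1197316972012500000000, 4050966956540062500000000⟩, ⟨439331038987500000000, 3677761989000000000000, 1276632819000000000000, 4140197284401000000000000⟩⟩,
  ⟨⟨360015192000000000000, 1197316972012500000000, 3598446142012500000000, 1359301156970062500000000⟩, ⟨439331038987500000000, 1276632819000000000000, 3677761989000000000000, 1448531484831000000000000⟩⟩,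
  ⟨⟨360015192000000000000, 3145933972012500000000, 1649829142012500000000, 3543700813970062500000000⟩, ⟨439331038987500000000, 3225249819000000000000, 1729144989000000000000, 3632931141831000000000000⟩⟩,
  ⟨⟨360015192000000000000, 2431441072012500000000, 2364322042012500000000, 2742754273070062500000000⟩, ⟨439331038987500000000, 2510756919000000000000, 2443637889000000000000, 2831984600931000000000000⟩⟩,
  ⟨⟨360015192000000000000, 4380058072012500000000, 415705042012500000000, 4927153930070062500000000⟩, ⟨439331038987500000000, 4459373919000000000000, 495020889000000000000, 5016384257931000000000000⟩⟩,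
  ⟨⟨228009621600000000000, 263279859941250000000, 4722653778941250000000, 312889906528706250000000⟩, ⟨278242991358750000000, 313513229700000000000, 4772887148700000000000, 369402447507300000000000⟩⟩,
  ⟨⟨228009621600000000000, 1497403959941250000000, 3488529678941250000000, 1696343022628706250000000⟩, ⟨278242991358750000000, 1547637329700000000000, 3538763048700000000000, 1752855563607300000000000⟩⟩,
  ⟨⟨228009621600000000000, 3446020959941250000000, 1539912678941250000000, 3880742679628706250000000⟩, ⟨278242991358750000000, 3496254329700000000000, 1590146048700000000000, 3937255220607300000000000⟩⟩,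
  ⟨⟨228009621600000000000, 1044891789941250000000, 3941041848941250000000, 1189076880058706250000000⟩, ⟨278242991358750000000, 1095125159700000000000, 3991275218700000000000, 1245589421037300000000000⟩⟩,
  ⟨⟨228009621600000000000, 4227632889941250000000, 758300748941250000000, 4756929653158706250000000⟩, ⟨278242991358750000000, 4277866259700000000000, 808534118700000000000, 4813442194137300000000000⟩⟩,
  ⟨⟨228009621600000000000, 758300748941250000000, 4227632889941250000000, 867808323097706250000000⟩, ⟨278242991358750000000, 808534118700000000000, 4277866259700000000000, 924320864076300000000000⟩⟩,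
  ⟨⟨228009621600000000000, 3941041848941250000000, 1044891789941250000000, 4435661096197706250000000⟩, ⟨278242991358750000000, 3991275218700000000000, 1095125159700000000000, 4492173637176300000000000⟩⟩,
  ⟨⟨228009621600000000000, 1539912678941250000000, 3446020959941250000000, 1743995296627706250000000⟩, ⟨278242991358750000000, 1590146048700000000000, 3496254329700000000000, 1800507837606300000000000⟩⟩,
  ⟨⟨228009621600000000000, 3488529678941250000000, 1497403959941250000000, 3928394953627706250000000⟩, ⟨278242991358750000000, 3538763048700000000000, 1547637329700000000000, 3984907494606300000000000⟩⟩,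
  ⟨⟨228009621600000000000, 4722653778941250000000, 263279859941250000000, 5311848069727706250000000⟩, ⟨278242991358750000000, 4772887148700000000000, 313513229700000000000, 5368360610706300000000000⟩⟩,
  ⟨⟨144406093680000000000, 166743911296125000000, 4939631059996125000000, 205081197818180625000000⟩, ⟨176220561193875000000, 198558378810000000000, 4971445527510000000000, 240872473771290000000000⟩⟩,
  ⟨⟨144406093680000000000, 948355841296125000000, 4158019129996125000000, 1081268171348180625000000⟩, ⟨176220561193875000000, 980170308810000000000, 4189833597510000000000, 1117059447301290000000000⟩⟩,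
  ⟨⟨144406093680000000000, 4131096941296125000000, 975278029996125000000, 4649120944448180625000000⟩, ⟨176220561193875000000, 4162911408810000000000, 1007092497510000000000, 4684912220401290000000000⟩⟩,
  ⟨⟨144406093680000000000, 661764800296125000000, 4444610170996125000000, 759999614387180625000000⟩, ⟨176220561193875000000, 693579267810000000000, 4476424638510000000000, 795790890340290000000000⟩⟩,
  ⟨⟨144406093680000000000, 4626117830296125000000, 480257140996125000000, 5204039361017180625000000⟩, ⟨176220561193875000000, 4657932297810000000000, 512071608510000000000, 5239830636970290000000000⟩⟩,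
  ⟨⟨144406093680000000000, 480257140996125000000, 4626117830296125000000, 556529528311880625000000⟩, ⟨176220561193875000000, 512071608510000000000, 4657932297810000000000, 592320804264990000000000⟩⟩,
  ⟨⟨144406093680000000000, 4444610170996125000000, 661764800296125000000, 5000569274941880625000000⟩, ⟨176220561193875000000, 4476424638510000000000, 693579267810000000000, 5036360550894990000000000⟩⟩,
  ⟨⟨144406093680000000000, 975278029996125000000, 4131096941296125000000, 1111447944880880625000000⟩, ⟨176220561193875000000, 1007092497510000000000, 4162911408810000000000, 1147239220833990000000000⟩⟩,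
  ⟨⟨144406093680000000000, 4158019129996125000000, 948355841296125000000, 4679300717980880625000000⟩, ⟨176220561193875000000, 4189833597510000000000, 980170308810000000000, 4715091993933990000000000⟩⟩,
  ⟨⟨144406093680000000000, 4939631059996125000000, 166743911296125000000, 5555487691510880625000000⟩, ⟨176220561193875000000, 4971445527510000000000, 198558378810000000000, 5591278967463990000000000⟩⟩,
  ⟨⟨91457192664000000000, 105604477154212500000, 5077050004664212500000, 136802348968181062500000⟩, ⟨111606355422787500000, 125753639913000000000, 5097199167423000000000, 159470157071817000000000⟩⟩,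
  ⟨⟨91457192664000000000, 600625366154212500000, 4582029115664212500000, 691720765537181062500000⟩, ⟨111606355422787500000, 620774528913000000000, 4602178278423000000000, 714388573640817000000000⟩⟩,
  ⟨⟨91457192664000000000, 4564978396154212500000, 617676085664212500000, 5135760512167181062500000⟩, ⟨111606355422787500000, 4585127558913000000000, 637825248423000000000, 5158428320270817000000000⟩⟩,
  ⟨⟨91457192664000000000, 419117706854212500000, 4763536774964212500000, 488250679461881062500000⟩, ⟨111606355422787500000, 439266869613000000000, 4783685937723000000000, 510918487565517000000000⟩⟩,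
  ⟨⟨91457192664000000000, 4878491625854212500000, 304162855964212500000, 5487208842660881062500000⟩, ⟨111606355422787500000, 4898640788613000000000, 324312018723000000000, 5509876650764517000000000⟩⟩,
  ⟨⟨91457192664000000000, 304162855964212500000, 4878491625854212500000, 359386291614191062500000⟩, ⟨111606355422787500000, 324312018723000000000, 4898640788613000000000, 382054099717827000000000⟩⟩,
  ⟨⟨91457192664000000000, 4763536774964212500000, 419117706854212500000, 5358344454813191062500000⟩, ⟨111606355422787500000, 4783685937723000000000, 439266869613000000000, 5381012262916827000000000⟩⟩,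
  ⟨⟨91457192664000000000, 617676085664212500000, 4564978396154212500000, 710834622107891062500000⟩, ⟨111606355422787500000, 637825248423000000000, 4585127558913000000000, 733502430211527000000000⟩⟩,
  ⟨⟨91457192664000000000, 4582029115664212500000, 600625366154212500000, 5154874368737891062500000⟩, ⟨111606355422787500000, 4602178278423000000000, 620774528913000000000, 5177542176841527000000000⟩⟩,
  ⟨⟨91457192664000000000, 5077050004664212500000, 105604477154212500000, 5709792785306891062500000⟩, ⟨111606355422787500000, 5097199167423000000000, 125753639913000000000, 5732460593410527000000000⟩⟩,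
  ⟨⟨57922888687200000000, 66882835531001250000, 5164082002954001250000, 93559078029848006250000⟩, ⟨70684025101098750000, 79643971944900000000, 5176843139367900000000, 107915356495484100000000⟩⟩,
  ⟨⟨57922888687200000000, 380396065231001250000, 4850568773254001250000, 445007408523548006250000⟩, ⟨70684025101098750000, 393157201644900000000, 4863329909667900000000, 459363686989184100000000⟩⟩,
  ⟨⟨57922888687200000000, 4839769984231001250000, 391194854254001250000, 5443965571722548006250000⟩, ⟨70684025101098750000, 4852531120644900000000, 403955990667900000000, 5458321850188184100000000⟩⟩,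
  ⟨⟨57922888687200000000, 265441214341001250000, 4965523624144001250000, 316143020675858006250000⟩, ⟨70684025101098750000, 278202350754900000000, 4978284760557900000000, 330499299141494100000000⟩⟩,
  ⟨⟨57922888687200000000, 5038328363041001250000, 192636475444001250000, 5666549514368558006250000⟩, ⟨70684025101098750000, 5051089499454900000000, 205397611857900000000, 5680905792834194100000000⟩⟩,
  ⟨⟨57922888687200000000, 192636475444001250000, 5038328363041001250000, 234528908372321006250000⟩, ⟨70684025101098750000, 205397611857900000000, 5051089499454900000000, 248885186837957100000000⟩⟩,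
  ⟨⟨57922888687200000000, 4965523624144001250000, 265441214341001250000, 5584935402065021006250000⟩, ⟨70684025101098750000, 4978284760557900000000, 278202350754900000000, 5599291680530657100000000⟩⟩,
  ⟨⟨57922888687200000000, 391194854254001250000, 4839769984231001250000, 457112851018331006250000⟩, ⟨70684025101098750000, 403955990667900000000, 4852531120644900000000, 471469129483967100000000⟩⟩,
  ⟨⟨57922888687200000000, 4850568773254001250000, 380396065231001250000, 5456071014217331006250000⟩, ⟨70684025101098750000, 4863329909667900000000, 393157201644900000000, 5470427292682967100000000⟩⟩,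
  ⟨⟨57922888687200000000, 5164082002954001250000, 66882835531001250000, 5807519344711031006250000⟩, ⟨70684025101098750000, 5176843139367900000000, 79643971944900000000, 5821875623176667100000000⟩⟩,
  ⟨⟨36684496168560000000, 42359129169634125000, 5219202268537534125000, 66171673102237070625000⟩, ⟨44766549230695875000, 50441182231770000000, 5227284321599670000000, 75263982797139930000000⟩⟩,
  ⟨⟨36684496168560000000, 240917507979634125000, 5020643889727534125000, 288755615748247070625000⟩, ⟨44766549230695875000, 248999561041770000000, 5028725942789670000000, 297847925443149930000000⟩⟩,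
  ⟨⟨36684496168560000000, 5013804656679634125000, 247756741027534125000, 5639162109440947070625000⟩, ⟨44766549230695875000, 5021886709741770000000, 255838794089670000000, 5648254419135849930000000⟩⟩,
  ⟨⟨36684496168560000000, 168112769082634125000, 5093448628624534125000, 207141503444710070625000⟩, ⟨44766549230695875000, 176194822144770000000, 5101530681686670000000, 216233813139612930000000⟩⟩,
  ⟨⟨36684496168560000000, 5139558296592634125000, 122003101114534125000, 5780131939783420070625000⟩, ⟨44766549230695875000, 5147640349654770000000, 130085154176670000000, 5789224249478322930000000⟩⟩,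
  ⟨⟨36684496168560000000, 122003101114534125000, 5139558296592634125000, 155452565652469970625000⟩, ⟨44766549230695875000, 130085154176670000000, 5147640349654770000000, 164544875347372830000000⟩⟩,
  ⟨⟨36684496168560000000, 5093448628624534125000, 168112769082634125000, 5728443001991179970625000⟩, ⟨44766549230695875000, 5101530681686670000000, 176194822144770000000, 5737535311686082830000000⟩⟩,
  ⟨⟨36684496168560000000, 247756741027534125000, 5013804656679634125000, 296422395994942970625000⟩, ⟨44766549230695875000, 255838794089670000000, 5021886709741770000000, 305514705689845830000000⟩⟩,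
  ⟨⟨36684496168560000000, 5020643889727534125000, 240917507979634125000, 5646828889687642970625000⟩, ⟨44766549230695875000, 5028725942789670000000, 248999561041770000000, 5655921199382545830000000⟩⟩,
  ⟨⟨36684496168560000000, 5219202268537534125000, 42359129169634125000, 5869412832333652970625000⟩, ⟨44766549230695875000, 5227284321599670000000, 50441182231770000000, 5878505142028555830000000⟩⟩,
  ⟨⟨23233514240088000000, 152581088387101612500, 5128358130160771612500, 189796146990556478062500⟩, ⟨28352147846107387500, 157699721993121000000, 5133476763766791000000, 195554609797328289000000⟩⟩,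
  ⟨⟨23233514240088000000, 5124026615897101612500, 156912602650771612500, 5762786583329266478062500⟩, ⟨28352147846107387500, 5129145249503121000000, 162031236256791000000, 5768545046136038289000000⟩⟩,
  ⟨⟨23233514240088000000, 106471420419001612500, 5174467798128871612500, 138107209198316378062500⟩, ⟨28352147846107387500, 111590054025021000000, 5179586431734891000000, 143865672005088189000000⟩⟩,
  ⟨⟨23233514240088000000, 5203670587842001612500, 77268630705871612500, 5852067475879499378062500⟩, ⟨28352147846107387500, 5208789221448021000000, 82387264311891000000, 5857825938686271189000000⟩⟩,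
  ⟨⟨23233514240088000000, 77268630705871612500, 5203670587842001612500, 105370881929897648062500⟩, ⟨28352147846107387500, 82387264311891000000, 5208789221448021000000, 111129344736669459000000⟩⟩,
  ⟨⟨23233514240088000000, 5174467798128871612500, 106471420419001612500, 5819331148611080648062500⟩, ⟨28352147846107387500, 5179586431734891000000, 111590054025021000000, 5825089611417852459000000⟩⟩,
  ⟨⟨23233514240088000000, 156912602650771612500, 5124026615897101612500, 194651774480130548062500⟩, ⟨28352147846107387500, 162031236256791000000, 5129145249503121000000, 200410237286902359000000⟩⟩,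
  ⟨⟨23233514240088000000, 5128358130160771612500, 152581088387101612500, 5767642210818840548062500⟩, ⟨28352147846107387500, 5133476763766791000000, 157699721993121000000, 5773400673625612359000000⟩⟩,
  ⟨⟨14714559018722400000, 96634689311831021250, 5196577149101822021250, 127121816777352436106250⟩, ⟨17956360302534678750, 99876490595643300000, 5199818950385634300000, 130768843221641249700000⟩⟩,
  ⟨⟨14714559018722400000, 5193833856734831021250, 99377981678822021250, 5841082083458535436106250⟩, ⟨17956360302534678750, 5197075658018643300000, 102619782962634300000, 5844729109902824249700000⟩⟩,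
  ⟨⟨14714559018722400000, 67431899598701021250, 5225779938814952021250, 94385489508933706106250⟩, ⟨17956360302534678750, 70673700882513300000, 5229021740098764300000, 98032515953222519700000⟩⟩,
  ⟨⟨14714559018722400000, 5225779938814952021250, 67431899598701021250, 5876893641470351077106250⟩, ⟨17956360302534678750, 5229021740098764300000, 70673700882513300000, 5880540667914639890700000⟩⟩,
  ⟨⟨14714559018722400000, 99377981678822021250, 5193833856734831021250, 130197047520749347106250⟩, ⟨17956360302534678750, 102619782962634300000, 5197075658018643300000, 133844073965038160700000⟩⟩,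
  ⟨⟨14714559018722400000, 5196577149101822021250, 96634689311831021250, 5844157314201932347106250⟩, ⟨17956360302534678750, 5199818950385634300000, 99876490595643300000, 5847804340646221160700000⟩⟩]

/-- part of the trie of forbidden words -/
def TAAA : Tr :=
  (.n (.n (.n (.n .z .z .z (.l .A)) .z .z (.n (.n .z .z .z (.l .A)) .z .z (.n (.n .z .z .z (.n
  (.n .z .z .z (.n (.l .D) .z .z .z)) .z .z .z)) .z .z .z))) .z .z (.n (.n .z .z .z (.n .z .z .z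
  (.n (.n .z .z (.l .B) .z) .z .z .z))) (.l .A) (.n (.n .z .z .z (.l .A)) (.l .C) .z (.n (.n (.n
  (.n (.n .z .z .z (.l .A)) .z .z .z) .z .z .z) .z .z .z) .z .z .z)) (.n .z .z .z (.n (.l .D) .z
  .z .z)))) (.l .A) (.l .A) (.n (.n (.n .z .z .z (.l .A)) .z .z (.n (.n (.n .z .z .z (.l .A)) .z
  .z (.n (.n .z .z .z (.n (.n .z .z .z (.l .A)) .z .z .z)) .z (.l .B) .z)) (.n .z (.l .C) .z .z)
  (.l .B) (.n (.n (.n .z .z .z (.l .A)) .z (.n (.n .z .z .z (.l .A)) .z .z .z) (.n (.l .D) .z .z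
  .z)) .z .z .z))) (.n (.n .z .z .z (.l .A)) (.l .C) .z (.n (.n (.n (.n (.n .z .z .z (.l .A)) .z
  .z .z) .z .z .z) .z .z .z) .z .z .z)) (.n (.n .z .z .z (.n (.n .z .z .z (.l .A)) (.n (.n .z .z
  .z (.n (.n .z .z .z (.l .A)) .z .z .z)) .z .z (.n .z (.l .C) .z .z)) .z (.n .z .z .z (.n .z .z
  .z (.n (.l .D) .z .z .z))))) .z .z (.n (.n .z (.n (.n .z .z .z (.l .A)) .z .z .z) .z (.n .z .z
  (.l .B) .z)) (.l .C) .z .z)) (.n (.n (.n .z .z .z (.l .A)) .z (.l .B) (.n (.n .z .z .z (.n (.n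
  .z .z .z (.n (.l .D) .z .z .z)) .z .z .z)) .z .z (.n (.l .D) .z .z .z))) .z .z (.n (.n (.n .z
  .z .z (.l .A)) (.n (.n .z .z .z (.l .A)) .z .z .z) .z (.n (.l .D) .z .z .z)) .z .z .z))))

/-- part of the trie of forbidden words -/
def TAAB : Tr :=
  (.n (.n (.n (.n (.n .z .z .z (.l .A)) .z .z .z) .z .z (.n (.n (.n .z .z .z (.l .A)) .z .z (.l
  .A)) .z .z .z)) (.l .A) .z (.l .A)) (.n (.n (.n (.n .z .z .z (.l .A)) .z .z .z) (.n (.n .z (.n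
  (.l .B) .z .z .z) .z .z) (.n .z (.n .z (.n .z .z (.l .B) .z) .z .z) .z .z) .z (.l .B)) .z (.n
  (.n .z .z .z (.l .A)) .z .z .z)) (.n .z (.n .z .z (.l .B) .z) (.l .B) (.l .C)) .z (.n (.n .z
  (.n (.n .z .z .z (.l .A)) .z .z .z) .z (.n (.n .z .z .z (.n .z .z .z (.n (.n .z .z .z (.n (.l
  .D) .z .z .z)) .z .z .z))) (.n (.n .z (.l .A) .z .z) .z .z .z) (.l .B) .z)) (.n .z .z .z (.n
  (.n .z .z (.l .B) .z) .z .z .z)) .z (.n .z .z .z (.n .z .z .z (.n .z .z .z (.n (.l .D) .z .z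
  .z)))))) .z (.n (.n (.n (.n (.n .z .z .z (.l .A)) .z .z (.n .z (.l .A) .z (.n (.l .D) .z .z
  .z))) .z .z (.n (.n .z .z .z (.l .A)) .z (.l .B) (.n .z .z .z (.n (.l .D) .z .z .z)))) (.l .A)
  .z (.n (.n (.n .z .z .z (.l .A)) .z (.l .A) (.l .A)) (.l .C) .z (.n .z .z .z (.n .z .z .z (.n
  (.l .D) .z .z .z))))) (.n (.n .z .z .z (.n (.n .z .z .z (.n .z .z .z (.n (.l .D) .z .z .z)))
  (.l .C) .z .z)) .z .z (.n (.n (.n (.n (.n .z .z .z (.n .z .z .z (.n (.l .D) .z .z .z))) .z .z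
  .z) .z .z .z) (.l .C) (.l .B) (.n .z .z (.n .z .z .z (.n .z .z .z (.n .z .z .z (.n .z .z .z
  (.n (.l .D) .z .z .z))))) .z)) .z .z (.n .z .z .z (.n .z .z .z (.n (.l .D) .z .z .z))))) .z
  (.n .z .z .z (.n .z .z .z (.n .z .z .z (.n (.l .D) .z .z .z))))))

/-- part of the trie of forbidden words -/
def TAAC : Tr :=
  (.n (.n (.n (.n (.n .z .z .z (.n .z .z .z (.n (.l .D) .z .z .z))) .z .z (.l .A)) .z .z (.n (.n
  (.n .z .z .z (.l .A)) .z .z (.n (.n (.n .z .z .z (.l .A)) .z .z .z) (.n .z (.l .C) .z .z) .z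
  (.n (.l .D) .z .z .z))) (.l .C) .z .z)) (.n (.n (.n (.n (.n .z .z .z (.l .A)) .z .z .z) .z .z
  (.n (.n .z .z .z (.l .A)) .z .z .z)) (.l .A) .z .z) (.n .z (.n .z (.n .z .z (.l .B) .z) .z .z)
  .z (.l .B)) .z (.n (.n (.n (.n (.n .z .z .z (.l .A)) .z .z (.n .z (.l .A) .z .z)) .z .z .z)
  (.l .A) .z (.n (.n (.n .z .z .z (.l .A)) .z .z (.l .A)) .z .z .z)) (.n .z .z .z (.l .B)) .z
  .z)) .z (.l .A)) (.n (.n (.n (.n .z .z .z (.l .A)) .z .z .z) (.n (.l .B) .z .z (.n (.n .z (.l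
  .A) .z .z) (.n .z .z .z (.l .B)) .z .z)) .z (.n (.n (.n .z .z .z (.l .A)) .z .z (.l .A)) .z .z
  .z)) (.n .z .z (.l .B) (.n (.n .z .z .z (.n .z .z .z (.n .z .z .z (.n (.l .D) .z .z .z)))) .z
  .z .z)) .z (.n (.n .z (.n (.n .z .z .z (.l .A)) .z .z .z) .z (.n (.n .z .z .z (.n .z .z .z (.n
  (.n .z .z .z (.n (.l .D) .z .z .z)) .z .z .z))) (.n (.n .z (.l .A) .z .z) .z .z .z) .z (.n .z
  .z .z (.n (.l .D) .z .z .z)))) .z .z (.n .z .z .z (.n .z .z .z (.n .z .z .z (.n (.l .D) .z .z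
  .z)))))) .z (.n (.n (.n (.n .z .z .z (.n .z .z .z (.n (.l .D) .z .z .z))) .z .z (.n (.n (.n .z
  .z .z (.l .A)) .z .z (.l .A)) .z (.n (.n .z .z .z (.n .z .z .z (.n .z .z .z (.n .z .z .z (.n
  (.l .D) .z .z .z))))) .z .z .z) (.n .z .z .z (.n (.l .D) .z .z .z)))) (.l .A) .z (.n (.n .z .z
  .z (.n .z .z .z (.n (.l .D) .z .z .z))) (.l .C) (.l .B) (.n .z .z .z (.n .z .z .z (.n (.l .D)
  .z .z .z))))) (.n (.n .z .z .z (.n (.n .z .z .z (.n .z .z .z (.n (.n .z .z .z (.n (.l .D) .z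
  .z .z)) .z .z .z))) .z .z .z)) .z .z (.n (.n (.n (.n (.n .z .z .z (.n .z .z .z (.n (.l .D) .z
  .z .z))) .z .z .z) .z .z .z) .z (.l .B) (.n .z .z (.n .z .z .z (.n .z .z .z (.n .z .z .z (.n
  .z .z .z (.n (.l .D) .z .z .z))))) .z)) .z .z (.n .z .z .z (.n .z .z .z (.n (.l .D) .z .z
  .z))))) .z (.n .z .z .z (.n .z .z .z (.n .z .z .z (.n (.l .D) .z .z .z))))))

/-- part of the trie of forbidden words -/
def TAAD : Tr :=
  (.n (.n (.n (.n (.n .z .z .z (.l .A)) .z .z (.l .A)) .z .z (.n (.n .z .z .z (.n (.n .z .z .z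
  (.l .A)) .z .z .z)) (.n (.n .z .z .z (.l .A)) .z .z .z) (.n .z (.n .z .z .z (.l .B)) .z .z)
  .z)) (.l .A) (.l .A) (.n (.n (.n .z .z .z (.n (.n .z .z .z (.l .A)) (.n (.n .z .z .z (.l .A))
  .z .z .z) .z .z)) .z (.l .A) (.n (.n .z .z .z (.n (.n .z .z .z (.n (.l .D) .z .z .z)) .z .z
  .z)) .z (.n (.n .z (.l .A) .z .z) .z .z .z) .z)) (.n (.n .z .z .z (.n (.n .z .z .z (.l .A)) .z
  .z .z)) .z .z (.n .z (.l .C) .z .z)) (.n (.n .z (.l .A) .z .z) (.n (.l .B) .z .z .z) .z (.n .z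
  (.n (.n .z .z .z (.n .z .z .z (.n .z .z .z (.n (.l .D) .z .z .z)))) .z .z .z) .z .z)) (.n (.n
  .z (.l .A) .z .z) .z .z .z))) (.n (.n .z (.l .A) .z (.n (.n .z .z .z (.l .A)) (.n (.n .z .z .z
  (.n (.n .z .z .z (.l .A)) .z .z .z)) .z .z .z) .z (.n .z .z .z (.n .z .z .z (.n (.l .D) .z .z
  .z))))) (.n .z .z .z (.n (.n .z .z (.l .B) (.n .z .z (.n .z .z .z (.n .z .z .z (.n .z .z .z
  (.n .z .z .z (.n (.l .D) .z .z .z))))) .z)) .z .z .z)) .z (.n (.n .z (.n (.n .z .z .z (.l .A))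
  .z .z .z) .z (.n .z .z (.l .B) .z)) (.l .C) .z .z)) (.n (.n .z (.l .A) .z (.n (.n .z .z .z (.n
  .z .z .z (.n (.l .D) .z .z .z))) (.n (.n .z (.l .A) .z .z) .z .z .z) .z .z)) (.n (.n .z .z .z
  (.n (.n (.n (.n .z .z .z (.l .A)) .z .z .z) .z .z .z) .z .z .z)) .z .z (.n (.n .z .z (.l .B)
  .z) .z .z .z)) .z (.n (.n (.n (.n (.n .z .z .z (.n .z .z .z (.n (.l .D) .z .z .z))) .z .z .z)
  .z .z .z) .z (.l .B) (.n .z .z (.n .z .z .z (.n .z .z .z (.n .z .z .z (.n .z .z .z (.n (.l .D)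
  .z .z .z))))) .z)) (.n (.n .z .z .z (.n .z .z .z (.n .z .z .z (.n (.l .D) .z .z .z)))) .z .z
  (.n (.n .z (.n .z .z .z (.n (.n (.n (.n (.n .z .z .z (.l .A)) .z .z .z) .z .z .z) .z .z .z) .z
  .z .z)) .z .z) .z (.l .B) .z)) .z (.n .z .z .z (.n .z .z .z (.n (.l .D) .z .z .z))))) (.n (.n
  (.n (.n .z .z .z (.l .A)) .z .z (.n .z .z .z (.n (.n .z .z (.l .B) .z) .z .z .z))) (.l .A) (.n
  (.n .z .z .z (.n .z (.n .z .z .z (.n .z (.l .C) .z .z)) .z .z)) (.l .C) .z (.n (.n (.n (.n (.n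
  .z .z .z (.l .A)) .z .z .z) .z .z .z) .z .z .z) .z .z .z)) (.n (.n .z .z .z (.n (.n .z .z .z
  (.n (.n .z .z .z (.l .A)) .z .z .z)) .z .z .z)) .z .z .z)) .z .z (.n (.n (.n .z .z .z (.n (.n
  .z .z .z (.l .A)) .z .z .z)) .z (.l .B) (.n (.n .z .z (.l .B) (.n (.l .D) .z .z .z)) .z .z
  .z)) .z .z (.n (.l .D) .z .z .z))))

/-- part of the trie of forbidden words -/
def TABA : Tr :=
  (.n (.n (.n (.n (.n .z .z .z (.l .A)) .z .z (.n (.n .z .z .z (.l .A)) .z .z (.n (.n .z .z .z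
  (.n (.l .D) .z .z .z)) .z .z .z))) .z .z (.l .A)) (.l .A) (.l .A) (.n (.n (.n .z .z .z (.n (.n
  .z .z .z (.l .A)) .z .z .z)) .z .z (.n (.n (.n .z .z .z (.l .A)) .z .z (.l .A)) (.n .z (.l .C)
  .z .z) .z (.n (.n (.n .z .z .z (.l .A)) .z (.n (.n .z .z .z (.l .A)) .z .z .z) (.n (.l .D) .z
  .z .z)) .z .z .z))) (.l .C) .z (.n (.l .D) .z .z (.n (.l .D) .z .z .z)))) (.n (.n (.n (.n (.n
  .z .z .z (.n .z .z .z (.n (.l .D) .z .z .z))) .z .z .z) .z .z (.n (.n (.n .z .z .z (.l .A)) .z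
  .z (.n .z .z .z (.n (.l .D) .z .z .z))) .z .z .z)) (.n (.n (.n (.n (.n .z .z .z (.l .A)) .z .z
  .z) .z .z (.n (.n .z .z .z (.l .A)) .z .z .z)) (.l .A) .z .z) (.n .z (.n .z (.n .z .z (.l .B)
  .z) .z .z) .z (.l .B)) .z (.n (.n (.n (.n .z .z .z (.n .z (.l .A) .z .z)) .z .z .z) .z .z (.n
  (.n .z .z .z (.l .A)) .z .z .z)) .z .z .z)) .z (.l .A)) (.n (.l .B) (.n .z .z .z (.n (.n .z .z
  .z (.n .z .z .z (.n .z .z .z (.n (.l .D) .z .z .z)))) .z .z .z)) .z (.n (.n .z (.n (.n .z .z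
  .z (.l .A)) .z .z .z) .z (.n (.n .z .z .z (.n .z .z .z (.n (.n .z .z .z (.n (.l .D) .z .z .z))
  .z .z .z))) (.n (.n .z (.l .A) .z .z) .z .z .z) .z .z)) .z .z (.n .z .z .z (.n .z .z .z (.n .z
  .z .z (.n (.l .D) .z .z .z)))))) .z (.n (.n (.n (.n .z .z .z (.n .z .z .z (.n (.l .D) .z .z
  .z))) .z .z (.n (.n .z .z .z (.l .A)) .z .z (.n .z .z .z (.n (.l .D) .z .z .z)))) (.l .A) .z
  (.n (.n .z .z .z (.n .z .z .z (.n (.l .D) .z .z .z))) (.l .C) .z (.n .z .z .z (.n .z .z .z (.n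
  (.l .D) .z .z .z))))) (.n .z .z .z (.n (.n .z .z (.l .B) (.n .z .z (.n .z .z .z (.n .z .z .z
  (.n .z .z .z (.n .z .z .z (.n (.l .D) .z .z .z))))) .z)) .z .z (.n .z .z .z (.n .z .z .z (.n
  (.l .D) .z .z .z))))) .z .z)) (.l .B) (.n (.n (.n (.n .z .z .z (.l .A)) .z .z (.l .A)) .z .z
  (.l .A)) (.n (.n .z (.l .A) .z (.n (.n .z .z .z (.l .A)) (.l .C) .z .z)) .z .z (.n (.n .z (.l
  .C) .z (.n .z .z (.l .B) .z)) (.n (.n .z .z .z (.n .z .z .z (.n .z .z .z (.n (.l .D) .z .z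
  .z)))) .z .z .z) .z .z)) (.l .B) (.n (.l .D) .z .z (.n (.l .D) .z .z (.n (.n .z .z .z (.n (.l
  .D) .z .z .z)) .z .z .z)))))

/-- part of the trie of forbidden words -/
def TABB : Tr :=
  (.n (.n (.n .z (.l .A) .z .z) (.n (.n .z .z .z (.l .A)) (.n .z .z .z (.l .C)) .z (.n (.n .z .z
  .z (.n (.n .z .z .z (.n .z .z .z (.n (.l .D) .z .z .z))) (.l .C) .z (.n .z .z .z (.n .z .z .z
  (.n (.l .D) .z .z .z))))) (.n (.l .B) .z .z (.n (.n .z .z (.l .B) (.n .z .z (.n .z .z .z (.n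
  .z .z .z (.n .z .z .z (.n .z .z .z (.n (.l .D) .z .z .z))))) .z)) .z .z .z)) .z .z)) .z (.n
  (.n (.n (.n .z .z .z (.l .A)) .z .z (.l .A)) .z .z .z) (.l .C) .z .z)) (.n (.l .B) (.n .z (.n
  .z .z (.n .z .z (.l .B) .z) .z) (.n .z .z (.l .B) .z) .z) (.n .z .z (.n .z (.l .C) .z .z) .z)
  (.n (.n .z (.n (.n (.n (.n (.n .z .z .z (.n .z .z .z (.n (.l .D) .z .z .z))) .z .z .z) .z .z
  .z) .z .z .z) .z .z .z) .z (.n (.n .z .z .z (.n (.n .z .z (.l .A) (.l .A)) .z .z .z)) (.n (.n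
  .z .z .z (.n .z (.l .C) .z .z)) .z .z (.n (.n .z (.l .C) .z .z) .z .z .z)) .z (.n (.l .D) .z
  .z .z))) .z (.l .B) .z)) (.l .B) (.n (.n .z (.n (.n (.n (.n (.n .z .z .z (.n .z .z .z (.n (.l
  .D) .z .z .z))) .z .z .z) .z .z .z) .z .z .z) .z .z .z) (.l .B) (.n (.n .z .z .z (.n (.n .z .z
  (.l .A) (.l .A)) (.n (.n .z .z .z (.n (.n .z .z .z (.l .A)) .z .z .z)) .z .z .z) .z .z)) (.n
  (.n .z .z .z (.n .z (.l .C) .z .z)) .z .z (.n (.n .z (.l .C) .z .z) (.n (.n .z .z .z (.n .z .z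
  .z (.n .z .z .z (.n (.l .D) .z .z .z)))) .z .z .z) .z .z)) (.n .z .z .z (.n (.n .z .z (.l .B)
  .z) .z .z (.n .z .z .z (.n .z .z .z (.n (.l .D) .z .z .z))))) (.n (.l .D) .z .z (.n (.l .D) .z
  .z .z)))) (.n .z .z .z (.n (.n .z .z (.n (.n .z .z .z (.n (.n .z .z .z (.l .A)) .z .z .z)) .z
  .z (.n (.n .z .z .z (.n .z .z (.l .B) .z)) .z .z .z)) (.n .z (.l .C) .z .z)) .z (.l .B) (.n .z
  .z .z (.n (.l .D) .z .z .z)))) (.l .B) (.n .z .z .z (.n (.l .D) .z .z .z))))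

/-- part of the trie of forbidden words -/
def TABD : Tr :=
  (.n (.n (.n (.n (.n .z .z .z (.n (.n .z .z .z (.l .A)) .z .z (.n (.l .D) .z .z .z))) .z .z (.n
  (.n .z .z .z (.l .A)) .z .z (.n (.n .z .z .z (.n (.l .D) .z .z .z)) .z .z .z))) .z .z (.n (.n
  (.n .z .z .z (.l .A)) .z .z (.n (.n .z .z .z (.l .A)) .z .z .z)) (.n .z (.l .C) .z .z) (.n (.n
  .z .z .z (.n (.n .z .z .z (.l .A)) .z .z .z)) .z .z (.n .z (.l .C) .z .z)) (.n (.l .D) .z .z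
  (.n (.n (.n .z .z .z (.l .A)) .z .z .z) .z .z .z)))) (.n (.n (.n (.n (.n .z .z .z (.n .z .z .z
  (.n (.l .D) .z .z .z))) .z .z .z) .z .z .z) .z .z (.l .A)) .z .z .z) (.l .B) (.n (.n (.n .z .z
  .z (.n (.n .z .z .z (.n (.n .z .z .z (.l .A)) .z .z .z)) .z (.l .B) (.n (.l .D) .z .z .z))) .z
  (.n (.n .z .z .z (.l .A)) .z .z .z) (.n (.n .z .z (.l .A) (.l .A)) (.n (.n .z .z .z (.n (.n .z
  .z .z (.l .A)) .z .z .z)) .z .z .z) .z (.n (.n .z .z .z (.n (.l .D) .z .z .z)) .z .z .z))) (.n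
  (.n .z .z .z (.n (.n .z .z .z (.n .z .z .z (.n (.l .D) .z .z .z))) (.l .C) .z (.n .z .z .z (.n
  .z .z .z (.n (.l .D) .z .z .z))))) (.n (.l .B) .z .z .z) .z (.n (.n .z (.l .C) .z .z) (.n (.n
  .z .z .z (.n .z .z .z (.n .z .z .z (.n (.l .D) .z .z .z)))) .z .z .z) .z .z)) (.l .B) (.n (.l
  .D) .z .z (.n (.l .D) .z .z .z)))) (.n (.n (.n (.n (.n (.n .z .z .z (.l .A)) .z .z .z) .z .z
  .z) .z .z .z) .z .z (.n (.n .z .z .z (.n (.n .z .z (.l .A) (.l .A)) .z .z .z)) (.n (.n .z .z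
  .z (.n .z (.l .C) .z .z)) .z .z (.n (.n .z (.l .C) .z .z) .z .z .z)) .z (.n (.l .D) .z .z (.n
  (.l .D) .z .z .z)))) .z (.l .B) (.n (.n (.n (.n (.n .z .z .z (.n .z .z .z (.n (.n .z .z .z (.l
  .A)) .z .z .z))) .z .z .z) .z .z .z) (.n .z .z .z (.n (.n (.n (.n (.n .z .z .z (.l .A)) .z .z
  .z) .z .z .z) .z .z .z) .z .z .z)) (.n (.n .z .z .z (.n (.n .z .z .z (.l .A)) .z .z .z)) .z .z
  (.n (.n .z .z .z (.n .z .z (.l .B) .z)) .z .z .z)) (.n .z (.l .C) .z .z)) .z (.l .B) (.n .z .z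
  .z (.n (.l .D) .z .z (.n (.n .z (.n .z (.n .z .z .z (.l .B)) .z .z) .z .z) .z .z .z))))) (.l
  .B) (.n (.l .D) .z .z (.n (.l .D) .z .z (.n (.l .D) .z .z (.n (.n (.n .z .z .z (.l .A)) .z .z
  .z) .z .z .z)))))

/-- part of the trie of forbidden words -/
def TACA : Tr :=
  (.n (.n (.n (.n (.n .z .z .z (.l .A)) .z .z (.n (.n .z .z .z (.l .A)) .z .z (.n (.n .z .z .z
  (.n (.l .D) .z .z .z)) .z .z .z))) .z .z (.n (.n .z .z .z (.l .A)) .z (.n .z .z .z (.n (.n (.n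
  (.n (.n .z .z .z (.l .A)) .z .z .z) .z .z .z) .z .z .z) .z .z .z)) (.n (.l .D) .z .z .z))) (.l
  .A) .z (.n (.n (.n .z .z .z (.n (.n .z .z .z (.l .A)) .z .z .z)) .z .z (.n (.n .z .z .z (.l
  .A)) .z .z (.n (.n (.n .z .z .z (.l .A)) .z (.n (.n .z .z .z (.l .A)) .z .z .z) (.n (.n .z .z
  .z (.n (.n .z .z .z (.l .A)) .z .z .z)) .z .z .z)) .z .z .z))) (.n .z .z .z (.n (.n (.n (.n
  (.n .z .z .z (.l .A)) .z .z .z) .z .z .z) .z .z .z) .z .z .z)) .z (.n (.l .D) .z .z (.n (.l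
  .D) .z .z .z)))) (.n (.n (.n (.n (.n .z .z .z (.n .z .z .z (.n (.l .D) .z .z .z))) .z .z .z)
  .z .z (.n (.n (.n .z .z .z (.l .A)) .z .z (.n .z .z .z (.n (.l .D) .z .z .z))) .z .z .z)) (.n
  (.n .z (.l .A) .z .z) (.n .z (.n .z (.n .z .z (.l .B) .z) .z .z) .z (.l .B)) .z (.l .B)) .z
  (.l .A)) (.n (.l .B) (.n .z .z (.l .B) .z) .z (.n (.n .z (.n (.n .z .z .z (.l .A)) .z .z .z)
  .z (.n (.n .z .z .z (.n .z .z .z (.n (.n .z .z .z (.n (.l .D) .z .z .z)) .z .z .z))) .z .z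
  .z)) .z .z .z)) .z (.n (.n (.n (.n .z .z .z (.n .z .z .z (.n (.l .D) .z .z .z))) .z .z (.n (.n
  .z .z .z (.l .A)) .z .z (.n .z .z .z (.n (.l .D) .z .z .z)))) .z .z (.n (.n .z .z .z (.n .z .z
  .z (.n (.l .D) .z .z .z))) (.l .C) .z (.n .z .z .z (.n .z .z .z (.n (.l .D) .z .z .z))))) (.n
  (.l .B) .z .z (.n (.n .z .z (.l .B) (.n .z .z (.n .z .z .z (.n .z .z .z (.n .z .z .z (.n .z .z
  .z (.n (.l .D) .z .z .z))))) .z)) .z .z .z)) .z (.n .z .z .z (.n .z .z .z (.n .z .z .z (.n (.l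
  .D) .z .z .z)))))) (.l .B) (.n (.n (.n (.n (.n .z .z .z (.l .A)) .z .z (.l .A)) .z .z (.l .A))
  (.l .A) .z (.n (.n (.n .z .z .z (.n (.n .z .z .z (.l .A)) (.n (.n .z .z .z (.l .A)) .z .z .z)
  .z .z)) .z (.l .A) (.l .A)) (.n (.n .z .z .z (.n (.n .z .z .z (.l .A)) .z .z .z)) .z .z (.n .z
  (.l .C) .z .z)) .z (.n (.l .D) .z .z .z))) (.n (.n .z (.l .A) .z (.n (.n .z .z .z (.n .z .z .z
  (.n (.l .D) .z .z .z))) (.l .C) .z .z)) .z .z (.n (.n .z (.l .C) .z .z) (.n (.n .z .z .z (.n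
  .z .z .z (.n .z .z .z (.n (.l .D) .z .z .z)))) .z .z .z) .z .z)) .z (.n (.l .D) .z .z (.n (.l
  .D) .z .z (.n (.n .z .z .z (.n (.l .D) .z .z .z)) .z .z .z)))))

/-- part of the trie of forbidden words -/
def TACB : Tr :=
  (.n (.n (.n (.n (.n (.n .z .z .z (.l .A)) .z .z .z) .z .z (.n (.n .z .z .z (.l .A)) .z .z .z))
  (.l .A) .z .z) (.n (.n .z (.n .z (.n .z (.n .z (.n .z .z (.l .B) .z) .z .z) .z .z) .z (.l .B))
  .z (.l .A)) (.n .z .z .z (.l .C)) .z (.n (.n .z .z .z (.n (.n .z .z .z (.n .z .z .z (.n (.l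
  .D) .z .z .z))) (.l .C) .z (.n .z .z .z (.n .z .z .z (.n (.l .D) .z .z .z))))) (.n (.l .B) .z
  .z (.n (.n .z .z (.l .B) (.n .z .z (.n .z .z .z (.n .z .z .z (.n .z .z .z (.n .z .z .z (.n (.l
  .D) .z .z .z))))) .z)) .z .z .z)) .z .z)) .z (.n (.n (.n (.n .z .z .z (.l .A)) .z .z (.n .z .z
  (.l .B) .z)) .z .z (.n (.n .z .z (.l .A) (.l .A)) .z .z .z)) (.l .C) .z .z)) (.n (.l .B) (.n
  .z (.n .z .z (.n .z .z (.l .B) .z) .z) (.n .z .z (.l .B) .z) .z) (.n .z (.n .z .z (.l .B) .z)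
  (.n .z (.l .C) .z .z) .z) (.n (.n .z .z .z (.n (.n .z .z .z (.n (.n .z .z (.l .A) (.l .A)) .z
  .z .z)) (.n (.n .z .z .z (.n .z (.l .C) .z .z)) .z .z (.n (.n .z (.l .C) .z .z) .z .z .z)) .z
  (.n (.l .D) .z .z .z))) .z (.l .B) (.n .z .z .z (.n (.l .D) .z .z .z)))) (.l .B) (.n (.n .z
  (.n (.n (.n (.n (.n .z .z .z (.n .z .z .z (.n (.l .D) .z .z .z))) .z .z .z) .z .z .z) .z .z
  .z) .z .z .z) (.l .B) (.n (.n .z .z .z (.n (.n .z .z (.l .A) (.l .A)) (.n (.n .z .z .z (.n (.n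
  .z .z .z (.l .A)) .z .z .z)) .z .z .z) .z .z)) (.n (.n .z .z .z (.n (.n .z .z .z (.n .z .z .z
  (.n (.l .D) .z .z .z))) (.l .C) .z (.n .z .z .z (.n .z .z .z (.n (.l .D) .z .z .z))))) .z .z
  (.n (.n .z (.l .C) .z .z) (.n (.n .z .z .z (.n .z .z .z (.n .z .z .z (.n (.l .D) .z .z .z))))
  .z .z .z) .z .z)) .z (.n (.l .D) .z .z .z))) (.n (.n (.n (.n (.n (.n .z .z .z (.l .A)) .z .z
  .z) .z .z .z) .z .z .z) .z .z (.n (.n .z .z .z (.n (.n .z .z (.l .A) (.l .A)) .z .z .z)) .z .z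
  .z)) .z (.l .B) (.n (.n .z .z (.n (.n .z .z .z (.n (.n .z .z .z (.l .A)) .z .z .z)) .z .z (.n
  (.n .z .z .z (.n .z .z (.l .B) .z)) .z .z .z)) (.n .z (.l .C) .z .z)) .z (.l .B) (.n .z .z .z
  (.n (.l .D) .z .z .z)))) (.l .B) (.n .z .z .z (.n (.l .D) .z .z .z))))

/-- part of the trie of forbidden words -/
def TACD : Tr :=
  (.n (.n (.n (.n (.n .z .z .z (.n (.n .z .z .z (.l .A)) .z .z (.n (.l .D) .z .z .z))) .z .z (.n
  (.n .z .z .z (.l .A)) .z .z (.n (.n .z .z .z (.n (.l .D) .z .z .z)) .z .z .z))) .z .z (.n (.n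
  .z .z .z (.n (.n .z .z .z (.l .A)) .z .z .z)) (.n .z (.l .C) .z .z) (.n (.n .z .z .z (.n (.n
  .z .z .z (.l .A)) .z .z .z)) .z .z (.n .z (.l .C) .z .z)) (.n (.l .D) .z .z (.n (.n (.n .z .z
  .z (.l .A)) (.n (.n .z .z .z (.l .A)) .z .z .z) .z .z) .z .z .z)))) (.n (.n (.n (.n (.n .z .z
  .z (.n .z .z .z (.n (.l .D) .z .z .z))) .z .z .z) .z .z .z) .z .z (.n .z .z .z (.n .z .z .z
  (.n .z .z .z (.n (.l .D) .z .z .z))))) .z .z .z) (.l .B) (.n (.n (.n .z .z .z (.n (.n .z .z .z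
  (.n (.n .z .z .z (.l .A)) .z .z .z)) .z (.l .B) (.n (.l .D) .z .z .z))) (.l .A) (.n (.n .z .z
  .z (.l .A)) .z .z .z) (.n (.n .z .z (.l .A) (.l .A)) (.n (.n .z .z .z (.n (.n .z .z .z (.l
  .A)) .z .z .z)) .z .z .z) .z .z)) (.n (.n .z .z .z (.n (.n .z .z .z (.n .z .z .z (.n (.l .D)
  .z .z .z))) (.l .C) .z (.n .z .z .z (.n .z .z .z (.n (.l .D) .z .z .z))))) (.n (.l .B) .z .z
  .z) .z (.n (.n .z (.l .C) .z .z) (.n (.n .z .z .z (.n .z .z .z (.n .z .z .z (.n (.l .D) .z .z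
  .z)))) .z .z .z) .z .z)) (.n (.n .z (.n (.n .z .z .z (.l .A)) .z .z .z) .z (.n (.n .z .z .z
  (.n .z .z .z (.n (.n .z .z .z (.n (.l .D) .z .z .z)) .z .z .z))) .z .z .z)) .z .z (.n (.n .z
  .z (.l .B) .z) .z .z (.n .z .z .z (.n .z .z .z (.n (.l .D) .z .z .z))))) (.n (.l .D) .z .z (.n
  (.l .D) .z .z .z)))) (.n (.n (.n (.n (.n (.n .z .z .z (.l .A)) .z .z .z) .z .z .z) .z .z .z)
  .z .z (.n (.n .z .z .z (.n (.n .z .z (.l .A) (.l .A)) .z .z .z)) (.n (.n .z .z .z (.n .z (.l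
  .C) .z .z)) .z .z (.n (.n .z (.l .C) .z .z) .z .z .z)) .z (.n (.l .D) .z .z (.n (.l .D) .z .z
  .z)))) .z (.l .B) (.n (.n (.n (.n (.n .z .z .z (.n .z .z .z (.n (.n .z .z .z (.l .A)) .z .z
  .z))) .z .z .z) .z .z .z) (.n .z .z .z (.n (.n (.n (.n (.n .z .z .z (.l .A)) .z .z .z) .z .z
  .z) .z .z .z) .z .z .z)) (.n (.n .z .z .z (.n (.n .z .z .z (.l .A)) .z .z .z)) .z .z (.n (.n
  .z .z .z (.n .z .z (.l .B) .z)) .z .z .z)) (.n (.n .z .z .z (.n .z .z .z (.n (.l .D) .z .z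
  .z))) (.l .C) (.n (.n .z .z .z (.n (.n .z .z .z (.n .z .z .z (.n (.n .z .z .z (.n (.l .D) .z
  .z .z)) .z .z .z))) .z .z .z)) .z .z .z) .z)) .z (.l .B) (.n (.l .D) .z .z (.n (.l .D) .z .z
  (.n (.n .z (.n .z (.n .z .z .z (.l .B)) .z .z) .z .z) .z .z .z))))) (.l .B) (.n (.l .D) .z .z
  (.n (.l .D) .z .z (.n (.l .D) .z .z (.n (.n (.n .z .z .z (.l .A)) .z .z .z) .z .z .z)))))

/-- part of the trie of forbidden words -/
def TADA : Tr :=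
  (.n (.n (.n (.n .z .z .z (.n (.n .z .z .z (.l .A)) .z (.l .B) (.n (.n .z .z .z (.n (.l .D) .z
  .z .z)) .z .z .z))) .z .z (.n (.n .z .z .z (.n (.n .z .z .z (.l .A)) .z .z .z)) .z (.n .z (.l
  .C) .z (.n (.n (.n (.n (.n .z .z .z (.l .A)) .z .z .z) .z .z .z) .z .z .z) .z .z .z)) .z)) .z
  .z (.n (.n (.n .z .z .z (.l .A)) .z .z (.n (.n .z .z .z (.n (.n .z .z .z (.l .A)) .z .z .z))
  .z (.l .B) .z)) (.n .z (.l .C) .z .z) (.n (.n .z .z .z (.n (.n .z .z .z (.l .A)) .z .z (.n .z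
  .z .z (.n .z .z .z (.n (.l .D) .z .z .z))))) .z .z (.n .z (.l .C) .z .z)) (.n (.n (.n .z .z .z
  (.l .A)) .z (.l .B) (.n (.n .z .z .z (.n (.l .D) .z .z .z)) .z .z .z)) .z .z (.n (.l .D) .z .z
  .z)))) (.n (.n (.n (.n (.n .z .z .z (.n .z .z .z (.n (.l .D) .z .z .z))) .z .z .z) .z .z .z)
  .z .z (.l .A)) (.l .C) .z .z) (.n (.n (.n (.n (.n .z .z .z (.n .z .z .z (.n (.l .D) .z .z
  .z))) .z .z .z) .z .z .z) (.l .A) .z (.n (.n .z .z .z (.l .A)) (.n (.n .z .z .z (.n (.n .z .z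
  .z (.l .A)) .z .z .z)) .z .z (.n .z (.l .C) .z .z)) .z (.n .z .z .z (.n .z .z .z (.n (.l .D)
  .z .z .z))))) (.l .C) .z (.n (.n .z (.n (.n .z .z .z (.l .A)) .z .z .z) .z (.n .z .z (.l .B)
  .z)) (.l .C) .z .z)) (.n (.n (.n .z .z .z (.n (.n .z .z .z (.n (.n .z .z .z (.l .A)) .z .z
  .z)) .z (.l .B) (.n (.l .D) .z .z .z))) (.l .A) (.n (.n .z .z .z (.l .A)) .z .z .z) (.n (.n .z
  .z (.l .A) (.n (.n .z .z .z (.n (.n .z .z .z (.l .A)) .z .z .z)) .z .z .z)) (.n (.n .z .z .z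
  (.n (.n .z .z .z (.l .A)) .z .z .z)) .z .z .z) (.n .z (.n (.l .B) .z .z .z) .z .z) (.n (.l .D)
  .z .z .z))) (.n (.n .z (.l .A) .z (.n (.n .z .z .z (.n .z .z .z (.n (.l .D) .z .z .z))) (.l
  .C) .z (.n .z .z .z (.n .z .z .z (.n (.l .D) .z .z .z))))) (.n (.l .B) .z .z (.n (.n .z .z (.l
  .B) (.n .z .z (.n .z .z .z (.n .z .z .z (.n .z .z .z (.n .z .z .z (.n (.l .D) .z .z .z)))))
  .z)) .z .z .z)) .z (.n (.n .z (.l .C) .z .z) (.n (.n .z .z .z (.n .z .z .z (.n .z .z .z (.n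
  (.l .D) .z .z .z)))) .z .z .z) .z .z)) (.n (.n .z (.n (.n .z .z .z (.l .A)) .z .z .z) .z (.n
  (.n .z .z .z (.n .z .z .z (.n (.l .D) .z .z .z))) (.l .C) .z (.n .z .z .z (.n .z .z .z (.n (.l
  .D) .z .z .z))))) (.n .z .z .z (.n (.n .z .z (.l .B) .z) .z .z .z)) .z (.n (.n .z (.l .C) (.l
  .B) .z) .z .z (.n .z .z .z (.n .z .z .z (.n (.l .D) .z .z .z))))) (.n (.n (.n .z .z .z (.n (.n
  .z .z .z (.l .A)) .z .z .z)) (.n (.n .z .z .z (.l .A)) .z .z .z) (.n .z (.l .C) .z .z) .z) .z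
  .z (.n (.l .D) .z .z (.n (.l .D) .z .z .z)))))

/-- part of the trie of forbidden words -/
def TADB : Tr :=
  (.n (.n (.n (.n (.n (.n .z .z .z (.l .A)) .z .z .z) .z .z .z) .z .z .z) (.n (.n (.n (.n (.n .z
  .z .z (.n .z .z .z (.n (.l .D) .z .z .z))) .z .z .z) .z .z .z) .z .z (.l .A)) .z .z .z) (.l
  .B) (.n (.n .z .z .z (.n (.n .z .z (.l .A) (.l .A)) (.n (.n .z .z .z (.n (.n .z .z .z (.l .A))
  .z .z .z)) .z .z .z) .z (.n (.n .z .z .z (.n (.l .D) .z .z .z)) .z .z .z))) (.n (.n .z (.l .A)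
  .z (.n .z (.l .C) .z .z)) .z .z (.n (.n .z (.l .C) .z .z) (.n (.n .z .z .z (.n .z .z .z (.n .z
  .z .z (.n (.l .D) .z .z .z)))) .z .z .z) .z .z)) (.l .B) (.n (.l .D) .z .z (.n (.l .D) .z .z
  .z)))) (.n (.n .z .z .z (.n (.n (.n (.n .z .z .z (.l .A)) .z .z .z) .z .z .z) .z .z .z)) .z .z
  (.n (.n .z .z (.n (.n .z .z .z (.n (.n .z .z .z (.l .A)) .z .z .z)) .z .z (.n (.n .z .z .z (.n
  .z .z (.l .B) .z)) .z .z .z)) (.n .z (.l .C) .z (.n (.l .D) .z .z .z))) .z (.l .B) (.n .z .z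
  .z (.n (.l .D) .z .z .z)))) (.l .B) (.n (.n (.n (.n (.n .z .z .z (.n .z .z .z (.n (.l .D) .z
  .z .z))) .z .z .z) .z .z .z) (.n .z .z .z (.n (.n (.n (.n (.n .z .z .z (.l .A)) .z .z .z) .z
  .z .z) .z .z .z) .z .z .z)) (.l .B) (.n (.n .z .z (.n (.n .z .z .z (.l .A)) .z .z .z) (.n .z
  .z .z (.n (.l .D) .z .z .z))) (.l .C) (.n (.n .z (.n (.n .z .z .z (.l .A)) .z .z .z) .z (.n
  (.n .z .z .z (.n .z .z .z (.n (.n .z .z .z (.n (.l .D) .z .z .z)) .z .z .z))) .z .z .z)) .z .z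
  (.n .z .z .z (.n .z .z .z (.n .z .z .z (.n (.l .D) .z .z .z))))) .z)) (.n (.n .z .z .z (.n (.n
  .z .z .z (.n (.n .z .z (.l .A) (.l .A)) .z .z .z)) (.n (.n .z .z .z (.n .z (.l .C) .z .z)) .z
  .z (.n (.n .z (.l .C) .z .z) .z .z .z)) .z (.n (.l .D) .z .z .z))) .z (.l .B) (.n (.n .z .z
  (.n (.n .z .z .z (.n (.n .z .z .z (.l .A)) .z .z .z)) .z .z (.n (.n .z .z .z (.n .z .z (.l .B)
  .z)) .z .z .z)) .z) .z (.l .B) .z)) (.l .B) (.n (.l .D) .z .z (.n (.l .D) .z .z (.n (.l .D) .z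
  .z .z)))))

/-- part of the trie of forbidden words -/
def TADC : Tr :=
  (.n (.n (.n (.n (.n (.n .z .z .z (.l .A)) .z .z .z) .z .z .z) .z .z .z) (.n (.n (.n (.n (.n .z
  .z .z (.n .z .z .z (.n (.l .D) .z .z .z))) .z .z .z) .z .z .z) .z .z (.n .z .z .z (.n .z .z .z
  (.n .z .z .z (.n (.l .D) .z .z .z))))) .z .z .z) (.l .B) (.n (.n (.n (.n (.n .z .z .z (.l .A))
  .z .z .z) .z .z .z) (.l .A) .z (.n (.n (.n .z .z .z (.l .A)) .z (.l .A) (.l .A)) (.n (.n .z .z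
  .z (.n (.n .z .z .z (.l .A)) .z .z .z)) .z .z .z) .z .z)) (.n (.n .z .z .z (.n (.n .z .z .z
  (.n .z .z .z (.n (.l .D) .z .z .z))) (.l .C) .z .z)) .z .z (.n (.n .z (.l .C) .z .z) (.n (.n
  .z .z .z (.n .z .z .z (.n .z .z .z (.n (.l .D) .z .z .z)))) .z .z .z) .z .z)) .z (.n (.l .D)
  .z .z (.n (.l .D) .z .z .z)))) (.n (.n (.n (.n (.n (.n .z .z .z (.l .A)) .z .z .z) .z .z .z)
  .z .z .z) .z .z (.n (.n (.n (.n .z .z .z (.n .z (.l .A) .z .z)) .z .z .z) .z .z (.n (.n .z .z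
  (.l .A) (.l .A)) .z .z .z)) .z .z .z)) .z (.l .B) (.n (.n .z .z (.n (.n .z .z .z (.n (.n .z .z
  .z (.l .A)) .z .z .z)) .z .z (.n (.n .z .z .z (.n .z .z (.l .B) .z)) .z .z .z)) (.n .z (.l .C)
  .z (.n (.l .D) .z .z .z))) .z (.l .B) (.n .z .z .z (.n (.l .D) .z .z .z)))) (.l .B) (.n (.n
  (.n (.n (.n .z .z .z (.n .z .z .z (.n (.n .z .z .z (.n (.l .D) .z .z .z)) .z .z .z))) .z .z
  .z) .z .z .z) (.n (.n .z .z .z (.n .z .z .z (.n .z .z .z (.n .z .z .z (.n (.l .D) .z .z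
  .z))))) .z .z (.n (.n (.n (.n (.n .z .z .z (.l .A)) .z .z .z) .z .z .z) .z .z .z) .z .z .z))
  (.n (.n .z .z .z (.n (.n .z .z .z (.l .A)) .z .z .z)) .z .z (.n (.n .z .z .z (.n .z .z (.l .B)
  .z)) .z .z .z)) (.n (.n .z (.l .A) (.n (.n .z .z .z (.l .A)) .z .z .z) (.n .z .z .z (.n (.l
  .D) .z .z .z))) (.l .C) (.n (.n .z (.n (.n .z .z .z (.l .A)) .z .z .z) .z (.n (.n .z .z .z (.n
  .z .z .z (.n (.n .z .z .z (.n (.l .D) .z .z .z)) .z .z .z))) .z .z .z)) .z .z .z) .z)) (.n (.n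
  .z .z .z (.n (.n .z .z .z (.n (.n .z .z (.l .A) (.l .A)) .z .z .z)) (.n (.n .z .z .z (.n .z
  (.l .C) .z .z)) .z .z (.n (.n .z (.l .C) .z .z) .z .z .z)) .z (.n (.l .D) .z .z .z))) .z (.l
  .B) (.n (.n .z .z (.n (.n .z .z .z (.n (.n .z .z .z (.l .A)) .z .z .z)) .z .z (.n (.n .z .z .z
  (.n .z .z (.l .B) .z)) .z .z .z)) .z) .z (.n .z .z (.n (.l .C) .z .z .z) .z) (.n (.l .D) .z .z
  .z))) (.l .B) (.n (.l .D) .z .z (.n (.l .D) .z .z (.n (.n (.n .z .z .z (.n (.l .D) .z .z .z))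
  (.n .z (.n .z .z .z (.l .B)) .z .z) .z .z) .z .z .z)))))

/-- part of the trie of forbidden words -/
def TADD : Tr :=
  (.n (.n (.n (.n .z .z .z (.n (.n .z .z .z (.l .A)) .z (.n .z (.l .C) .z .z) .z)) .z .z (.n (.n
  (.n .z .z .z (.l .A)) .z .z (.n (.n .z .z .z (.n (.n .z .z .z (.l .A)) .z .z .z)) .z (.l .B)
  .z)) (.n .z (.l .C) .z .z) (.l .B) (.n (.n (.n .z .z .z (.l .A)) .z (.n (.n .z .z .z (.l .A))
  .z .z .z) (.n (.l .D) .z .z .z)) .z .z .z))) (.n (.n .z .z .z (.n .z (.n .z .z .z (.n .z (.l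
  .C) .z .z)) .z (.n .z .z .z (.n .z .z .z (.n (.l .D) .z .z .z))))) (.l .C) .z (.n (.n (.n (.n
  (.n .z .z .z (.l .A)) .z .z .z) .z .z .z) .z .z .z) .z .z .z)) (.n (.n .z (.l .A) .z (.n (.n
  .z .z .z (.l .A)) (.n (.n .z .z .z (.n (.n .z .z .z (.l .A)) .z .z .z)) .z .z .z) .z (.n .z .z
  .z (.n .z .z .z (.n (.l .D) .z .z .z))))) .z .z (.n (.n .z .z .z (.n .z .z (.l .B) .z)) (.l
  .C) .z .z)) (.n (.n (.n .z .z .z (.l .A)) (.l .A) (.l .B) (.n (.n .z .z .z (.n (.n .z .z .z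
  (.n (.l .D) .z .z .z)) .z .z .z)) .z .z (.n (.l .D) .z .z .z))) .z .z (.n (.n (.n .z .z .z (.l
  .A)) (.n (.n .z .z .z (.l .A)) .z .z .z) .z (.n (.l .D) .z .z .z)) .z .z .z))) .z .z (.n (.n
  (.n (.n .z .z .z (.l .A)) .z .z (.n (.n .z .z .z (.n (.n .z .z .z (.l .A)) .z .z .z)) .z (.l
  .B) .z)) (.n (.n .z .z .z (.n .z .z .z (.n .z .z .z (.n .z .z .z (.n (.l .D) .z .z .z))))) (.l
  .C) .z .z) (.n (.n .z (.l .A) .z (.n (.n .z .z .z (.l .A)) .z .z .z)) .z .z (.n .z (.l .C) .z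
  .z)) (.n (.n (.n .z .z .z (.l .A)) (.l .A) (.n (.n .z .z .z (.l .A)) .z .z .z) (.n (.n .z .z
  .z (.n (.l .D) .z .z .z)) .z .z .z)) .z .z .z)) .z .z (.n (.n (.n .z .z .z (.n (.n .z .z .z
  (.n (.n .z .z .z (.l .A)) .z .z .z)) .z .z .z)) (.n .z (.n .z .z .z (.l .B)) .z .z) (.l .B)
  (.n (.n (.n .z .z .z (.l .A)) (.l .A) .z (.n (.n .z .z .z (.n (.l .D) .z .z .z)) .z .z .z)) .z
  .z .z)) .z .z (.n (.l .D) .z .z .z))))

/-- part of the trie of forbidden words -/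
def TBAA : Tr :=
  (.n (.n (.n (.n .z .z .z (.n .z .z (.n .z .z .z (.n (.n .z (.l .C) .z .z) .z .z .z)) .z)) .z
  .z (.n (.n .z .z .z (.n (.n .z .z .z (.n (.n .z .z .z (.l .A)) .z .z .z)) .z .z .z)) .z (.n .z
  .z .z (.n (.n .z (.l .C) .z .z) .z .z .z)) .z)) .z .z (.n .z .z (.n (.n .z .z .z (.n .z (.l
  .C) .z .z)) (.l .C) .z (.n (.n .z (.l .C) .z (.n (.n .z .z (.n .z .z .z (.n (.n .z .z .z (.n
  (.n .z .z (.n .z .z .z (.n (.n .z .z .z (.n (.n .z .z (.l .B) .z) .z .z .z)) .z .z .z)) .z) .z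
  .z .z)) .z .z .z)) .z) .z .z .z)) .z .z .z)) .z)) (.n .z (.n (.n .z (.n (.l .B) .z .z .z) .z
  .z) .z .z (.n (.n .z .z .z (.n (.n .z .z .z (.n .z .z .z (.n (.l .D) .z .z .z))) .z .z (.n .z
  .z .z (.n .z .z .z (.n (.l .D) .z .z .z))))) (.n .z .z .z (.l .B)) .z .z)) .z (.n (.n (.n .z
  .z .z (.n .z (.l .C) .z .z)) .z .z .z) .z .z .z)) (.n (.n .z (.n .z (.n .z (.n .z (.n .z (.n
  .z .z (.l .B) .z) .z .z) .z .z) .z .z) .z .z) .z .z) (.n (.l .B) .z .z (.n .z (.n .z .z .z (.n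
  (.n .z .z .z (.n .z .z (.l .B) .z)) .z .z .z)) .z .z)) .z (.n (.n (.n (.n (.n .z .z .z (.l
  .A)) .z .z .z) .z .z (.n .z (.l .C) (.l .B) .z)) .z .z (.n (.n (.n .z .z .z (.l .A)) .z (.l
  .B) .z) .z .z .z)) (.n (.n .z .z .z (.n (.n .z .z .z (.n .z .z .z (.n (.l .D) .z .z .z))) (.l
  .C) .z .z)) .z .z (.n (.n .z (.l .C) .z .z) .z .z .z)) .z .z)) (.n (.n (.n .z .z .z (.n .z .z
  (.l .B) .z)) .z .z (.n (.n .z .z .z (.n (.n .z .z .z (.n (.n .z .z .z (.l .A)) .z .z .z)) .z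
  .z .z)) .z (.l .B) .z)) (.n (.n .z .z .z (.n .z (.l .C) .z .z)) (.n .z .z .z (.n (.n .z .z .z
  (.n .z .z (.l .B) .z)) .z .z .z)) .z (.n (.n .z (.l .C) .z .z) .z .z .z)) (.l .B) (.n (.n .z
  .z (.l .B) (.n .z .z .z (.n (.l .D) .z .z .z))) .z .z (.n (.n .z (.n (.n .z .z .z (.l .A)) .z
  .z .z) .z .z) .z .z .z))))

/-- part of the trie of forbidden words -/
def TBAB : Tr :=
  (.n (.n (.n (.n (.n .z .z .z (.n .z .z (.n .z .z .z (.n (.n .z .z .z (.n (.n .z .z (.n .z .z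
  .z (.n (.n .z .z .z (.n (.n .z .z (.n .z .z .z (.n (.n .z .z .z (.n (.n .z .z (.l .B) .z) .z
  .z .z)) .z .z .z)) .z) .z .z .z)) .z .z .z)) .z) .z .z .z)) .z .z .z)) .z)) .z .z .z) .z .z
  (.n (.n (.n .z .z .z (.n .z .z .z (.n (.n .z .z .z (.n (.l .D) .z .z .z)) .z .z .z))) .z .z
  (.n .z .z .z (.n (.n .z .z (.l .B) .z) .z .z .z))) .z .z .z)) (.n (.n .z (.n (.n (.n .z .z .z
  (.l .A)) .z .z .z) .z .z (.l .B)) .z .z) (.n .z (.n .z (.n .z (.n .z .z (.l .B) .z) .z .z) .z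
  (.l .B)) .z (.n (.n .z .z .z (.n (.n .z .z .z (.n .z (.l .C) .z .z)) (.n .z .z .z (.n .z (.l
  .C) .z .z)) .z .z)) (.l .C) .z .z)) .z (.n (.n (.n (.n (.n .z .z .z (.l .A)) .z .z .z) .z .z
  .z) .z .z (.n (.n (.n .z .z .z (.l .A)) .z .z .z) .z .z .z)) (.n (.l .B) .z .z (.l .B)) .z
  .z)) .z (.n .z (.n .z .z .z (.n .z (.l .C) .z .z)) .z (.n .z .z .z (.n .z .z .z (.n (.l .D) .z
  .z .z))))) (.n (.n .z (.n (.l .B) .z .z (.n .z (.n .z .z .z (.l .B)) .z .z)) .z .z) (.n .z .z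
  (.l .B) (.n (.n .z (.l .C) .z .z) .z .z .z)) .z (.n (.n .z .z .z (.n .z .z (.l .B) .z)) (.n .z
  .z .z (.n (.n .z .z .z (.n .z .z (.l .B) .z)) .z .z .z)) .z .z)) .z (.n (.n (.n .z .z .z (.n
  .z (.l .C) (.l .B) .z)) .z .z (.n (.n .z .z (.l .B) (.n .z .z .z (.n (.n .z .z (.l .B) .z) .z
  .z .z))) (.n (.n .z (.l .A) .z .z) (.l .C) .z .z) .z (.n .z .z .z (.n .z .z .z (.n (.n (.n .z
  .z .z (.n (.l .D) .z .z .z)) .z .z .z) .z .z .z))))) (.n (.n .z .z .z (.n (.n .z .z .z (.n .z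
  .z .z (.n (.n .z .z .z (.n (.l .D) .z .z .z)) .z .z .z))) (.l .C) .z .z)) .z .z (.n (.n (.n
  (.n (.n .z .z .z (.n .z .z .z (.n (.l .D) .z .z .z))) .z .z .z) .z .z .z) (.l .C) .z .z) .z .z
  .z)) .z (.n .z .z .z (.n .z .z .z (.n .z .z .z (.n (.l .D) .z .z .z))))))

/-- part of the trie of forbidden words -/
def TBAC : Tr :=
  (.n (.n (.n (.n .z .z .z (.n .z (.l .C) (.l .B) .z)) .z .z (.n (.n .z .z .z (.n .z (.n .z (.n
  .z .z .z (.l .B)) .z .z) .z (.n (.n .z .z (.l .B) (.n (.l .D) .z .z .z)) .z .z .z))) (.n .z .z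
  .z (.n (.n .z .z .z (.n (.n .z .z (.n .z .z .z (.n (.n .z .z .z (.n (.n .z .z (.n .z .z .z (.n
  (.n .z .z .z (.n (.n .z .z (.l .B) .z) .z .z .z)) .z .z .z)) .z) .z .z .z)) .z .z .z)) .z) .z
  .z .z)) .z .z .z)) .z .z)) (.n (.n (.n (.n (.n .z .z .z (.l .A)) .z .z .z) .z .z (.l .A)) (.n
  (.l .B) .z .z .z) .z .z) (.n .z (.n .z (.n .z (.n .z .z (.l .B) .z) .z .z) .z .z) .z (.n (.n
  .z .z .z (.n (.n .z .z .z (.n .z (.l .C) .z .z)) (.n (.n .z (.l .A) .z .z) .z .z (.n .z (.l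
  .C) .z .z)) .z .z)) .z .z (.n .z .z .z (.n .z .z .z (.n .z .z .z (.n (.l .D) .z .z .z)))))) .z
  (.n (.n (.n (.n (.n .z .z .z (.l .A)) .z .z (.l .A)) .z .z (.l .A)) (.l .A) .z (.n (.n (.n .z
  .z .z (.l .A)) .z .z .z) .z .z .z)) .z .z .z)) .z (.n (.n .z .z .z (.n .z (.l .C) .z .z)) (.l
  .C) .z .z)) (.n (.n .z (.n (.l .B) .z .z (.l .C)) .z (.n (.n (.n .z .z .z (.n .z (.l .C) .z
  .z)) .z .z .z) .z .z .z)) (.n .z (.n .z (.n .z .z (.l .B) .z) .z .z) (.n .z .z (.l .B) .z) (.l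
  .B)) .z (.n (.n .z .z .z (.n (.n .z .z .z (.n .z (.l .C) .z .z)) (.n (.n .z (.l .C) .z .z) .z
  .z (.n .z (.l .C) .z .z)) .z (.n .z .z .z (.n (.l .D) .z .z .z)))) (.l .C) .z .z)) .z (.n (.n
  (.n .z .z .z (.n .z (.l .C) (.l .B) .z)) (.n (.n .z .z .z (.l .A)) .z .z .z) .z (.n (.n .z .z
  (.l .B) (.n .z .z .z (.n (.n .z .z (.l .B) (.n (.l .D) .z .z .z)) .z .z .z))) (.n (.n .z .z .z
  (.n (.n .z .z .z (.n .z (.l .C) .z .z)) .z .z .z)) .z .z (.n .z (.n (.n .z .z .z (.n .z (.l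
  .C) .z .z)) .z .z .z) .z .z)) (.n (.n .z (.l .C) .z .z) .z .z (.n .z (.l .C) .z .z)) (.n .z .z
  .z (.n .z .z .z (.n (.n (.n .z .z .z (.n (.l .D) .z .z .z)) .z .z .z) .z .z .z))))) (.n (.n .z
  .z .z (.n (.n .z .z .z (.n .z .z .z (.n (.l .D) .z .z .z))) (.l .C) .z (.n .z .z .z (.n .z .z
  .z (.n (.l .D) .z .z .z))))) .z .z (.n (.n (.n (.n (.n .z .z .z (.l .A)) .z .z .z) .z .z .z)
  (.l .C) .z .z) .z .z (.n .z .z .z (.n .z .z .z (.n (.l .D) .z .z .z))))) .z .z))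

/-- part of the trie of forbidden words -/
def TBAD : Tr :=
  (.n (.n (.n (.n (.n .z .z .z (.l .A)) .z .z (.n .z .z (.l .B) .z)) .z .z (.n .z .z (.n .z (.n
  (.l .B) .z .z (.l .B)) .z .z) .z)) (.l .A) (.l .B) (.n (.n .z .z (.n .z .z .z (.n (.n .z (.l
  .C) .z .z) .z .z .z)) (.n .z .z (.l .B) .z)) .z (.l .B) (.n (.n .z .z (.l .B) .z) .z .z .z)))
  (.n (.n .z .z .z (.n (.n .z .z .z (.n .z (.l .C) .z (.n (.l .D) .z .z .z))) (.n .z .z .z (.n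
  .z (.l .C) .z .z)) .z .z)) (.l .C) .z (.n (.n .z .z .z (.n (.n .z .z (.l .B) .z) .z (.n (.n .z
  (.l .C) .z .z) .z .z .z) .z)) (.n (.n .z .z .z (.n .z (.l .C) .z .z)) .z .z (.n (.n .z (.l .C)
  .z .z) .z .z .z)) .z .z)) (.n (.n .z (.l .C) .z (.n (.n .z .z .z (.n .z (.l .C) .z (.n (.n .z
  .z .z (.n (.l .D) .z .z .z)) .z .z .z))) (.n (.n .z (.l .C) .z .z) .z .z (.n .z (.l .C) .z
  .z)) .z .z)) (.l .C) .z (.n (.n (.n (.n (.n .z .z .z (.n .z .z .z (.n (.l .D) .z .z .z))) .z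
  .z .z) .z .z .z) .z .z (.n (.n .z .z (.l .B) .z) .z (.n (.n .z (.l .C) .z .z) .z .z .z) .z))
  (.l .C) .z .z)) (.n (.n (.n (.n .z .z .z (.l .A)) .z .z .z) (.n (.n .z .z .z (.l .A)) .z .z
  .z) (.l .B) .z) .z .z (.n (.n (.n .z .z .z (.l .A)) .z (.n .z (.n (.l .B) .z .z (.l .B)) .z
  .z) (.n (.n .z .z (.l .B) .z) .z .z .z)) .z .z (.n (.n .z .z .z (.n (.n .z .z (.n (.n .z .z .z
  (.l .A)) .z .z .z) .z) .z .z .z)) .z .z .z))))

/-- part of the trie of forbidden words -/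
def TBBA : Tr :=
  (.n (.n (.n (.n (.n .z .z .z (.l .A)) .z .z (.l .A)) .z .z (.n (.n .z .z .z (.l .A)) (.l .C)
  (.l .B) (.n (.l .D) .z .z (.n (.l .D) .z .z .z)))) (.n .z (.n (.l .B) .z .z (.l .B)) .z .z)
  (.l .B) (.l .A)) (.n (.n (.n (.n (.n .z .z .z (.l .A)) .z .z .z) .z .z (.l .A)) (.n (.n (.n
  (.n (.n .z .z .z (.l .A)) .z .z .z) .z .z (.l .A)) (.n (.l .B) .z .z .z) .z .z) (.n .z (.n .z
  (.n .z .z (.l .B) .z) .z .z) .z (.l .C)) .z (.l .B)) .z (.n .z (.l .C) .z .z)) (.n (.l .B) (.n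
  .z (.n .z (.n .z .z (.l .B) .z) .z .z) .z (.l .B)) .z (.n (.n .z .z .z (.n (.n .z .z .z (.n .z
  (.l .C) .z .z)) (.n (.n .z (.l .C) .z .z) .z .z (.n .z (.l .C) .z .z)) .z .z)) (.l .C) .z .z))
  .z (.n (.n (.n (.n (.n .z .z .z (.l .A)) .z .z (.l .A)) .z .z (.l .A)) .z .z (.n (.n (.n .z .z
  .z (.l .A)) .z .z .z) (.n (.n .z .z .z (.n (.n .z .z .z (.n .z (.l .C) .z .z)) .z .z .z)) .z
  .z (.n .z (.n (.n .z .z .z (.n .z (.l .C) .z .z)) .z .z .z) .z .z)) .z (.n .z .z .z (.n .z .z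
  .z (.n (.n (.n .z .z .z (.l .A)) .z .z .z) .z .z .z))))) (.n (.n .z .z .z (.n (.n .z .z .z (.n
  .z .z .z (.n (.l .D) .z .z .z))) .z .z (.n .z .z .z (.n .z .z .z (.n (.l .D) .z .z .z))))) .z
  .z (.n (.n (.n (.n (.n .z .z .z (.l .A)) .z .z .z) .z .z .z) .z .z .z) .z .z (.n .z .z .z (.n
  .z .z .z (.n (.l .D) .z .z .z))))) .z .z)) (.l .B) (.n (.n (.n (.n .z .z .z (.n (.n .z .z .z
  (.l .A)) (.l .A) .z (.n (.l .D) .z .z .z))) .z .z (.n (.n .z .z .z (.l .A)) .z (.l .B) (.n (.l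
  .D) .z .z .z))) .z .z (.n (.n (.n .z .z .z (.l .A)) .z (.l .A) (.l .A)) (.l .C) .z (.n (.l .D)
  .z .z .z))) (.n (.n .z (.l .C) .z (.n .z (.l .C) .z .z)) .z .z (.n (.n .z (.l .C) .z .z) (.l
  .C) .z .z)) (.l .B) (.n (.l .D) .z .z (.n (.l .D) .z .z (.n (.l .D) .z .z .z)))))

/-- part of the trie of forbidden words -/
def TBBB : Tr :=
  (.n (.n (.n .z (.l .A) .z .z) (.n (.n .z (.n (.l .B) .z .z .z) .z .z) (.n .z .z .z (.l .C)) .z
  (.n .z (.n .z .z .z (.l .B)) .z .z)) .z (.n (.n (.n .z .z .z (.n .z (.l .C) .z .z)) .z .z .z)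
  .z .z .z)) (.n (.l .B) (.n .z (.n .z .z (.l .B) .z) (.n .z .z (.n .z (.n .z .z (.n .z (.n .z
  .z (.n .z (.n .z .z (.n .z (.l .C) .z .z) .z) .z .z) .z) .z .z) .z) (.n .z (.n .z .z (.n .z
  (.n .z .z (.n .z (.l .C) .z .z) .z) .z .z) .z) .z .z) .z) .z) .z) (.n .z .z (.n .z (.n .z .z
  (.n .z .z (.n .z (.l .C) .z .z) .z) .z) (.n .z .z (.n .z (.l .C) .z .z) .z) .z) .z) (.l .B))
  (.n (.l .B) (.n .z (.n .z .z (.l .B) .z) (.l .B) .z) (.n .z (.n .z .z (.n .z (.n .z .z (.n .z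
  (.n .z .z (.n .z (.n .z .z (.n .z (.l .C) .z .z) .z) .z .z) .z) .z .z) .z) (.n .z (.n .z .z
  (.n .z (.l .C) .z .z) .z) .z .z) .z) .z) (.n .z (.n .z .z (.n .z (.n .z .z (.n .z (.n .z .z
  (.n .z (.l .C) .z .z) .z) .z .z) .z) (.n .z (.l .C) .z .z) .z) .z) (.n .z (.n .z .z (.n .z (.n
  .z .z (.n .z (.l .C) .z .z) .z) .z .z) .z) (.n .z (.l .C) .z .z) .z) .z) .z) (.l .C)) (.n (.n
  .z .z (.l .B) (.n (.n .z .z .z (.n (.n .z .z (.n .z .z .z (.n (.n .z .z .z (.n (.n .z .z (.n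
  .z .z .z (.n (.n .z .z .z (.n (.n .z .z (.n .z .z .z (.n (.n .z .z .z (.n (.n .z .z (.l .B)
  .z) .z .z .z)) .z .z .z)) .z) .z .z .z)) .z .z .z)) .z) .z .z .z)) .z .z .z)) .z) (.l .C) .z
  .z)) (.n (.n .z (.l .C) .z .z) .z .z (.n .z (.l .C) .z .z)) (.l .B) (.n (.n .z (.l .C) .z .z)
  .z .z (.n (.n .z .z (.n .z (.l .C) .z .z) .z) .z .z .z)))) (.l .C) (.n (.l .B) .z .z (.n (.n
  .z .z (.n (.l .B) .z .z (.n (.n (.n (.n (.n .z .z .z (.l .A)) .z .z .z) .z .z .z) .z .z .z) .z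
  .z .z)) (.n .z (.l .C) .z .z)) .z (.n .z .z .z (.l .C)) .z)) (.n .z .z .z (.n (.l .D) .z .z
  .z))))

/-- part of the trie of forbidden words -/
def TBBC : Tr :=
  (.n (.n (.n .z (.n .z (.n .z (.n .z (.n .z (.n .z .z (.l .B) .z) .z .z) .z .z) .z .z) .z .z)
  .z .z) (.n (.l .B) (.n .z (.n .z .z (.l .B) .z) .z .z) .z (.n .z (.n .z .z .z (.n (.n .z .z .z
  (.n .z .z (.l .B) .z)) .z .z .z)) .z .z)) .z (.n (.n (.n (.n (.n .z .z .z (.l .A)) .z .z .z)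
  .z .z (.n .z (.l .C) (.l .B) .z)) .z .z (.n (.n (.n .z .z .z (.l .A)) .z (.l .B) .z) .z .z
  .z)) (.n (.n .z .z .z (.n (.n .z .z .z (.n .z .z .z (.n (.l .D) .z .z .z))) (.l .C) .z .z)) .z
  .z (.n (.n .z (.l .C) .z .z) .z .z .z)) .z .z)) (.n (.l .B) (.n .z (.n .z .z (.l .B) .z) (.n
  .z .z (.n .z (.n .z .z (.n .z (.n .z .z (.n .z (.n .z .z (.n .z (.l .C) .z .z) .z) .z .z) .z)
  .z .z) .z) (.n .z (.n .z .z (.n .z (.l .C) .z .z) .z) .z .z) .z) .z) .z) (.n .z (.n .z .z (.n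
  .z (.n .z .z (.n .z (.n .z .z (.n .z (.n .z .z (.n .z (.l .C) .z .z) .z) .z .z) .z) .z .z) .z)
  (.n .z (.n .z .z (.n .z (.n .z .z (.n .z (.l .C) .z .z) .z) .z .z) .z) .z .z) .z) .z) (.n .z
  (.n .z .z (.n .z .z (.n .z (.l .C) .z .z) .z) .z) (.n .z (.n .z .z (.n .z (.n .z .z (.n .z (.l
  .C) .z .z) .z) .z .z) .z) (.n .z (.l .C) .z .z) .z) .z) .z) (.l .B)) (.n .z (.n .z .z (.n .z
  (.n .z .z (.n .z .z (.n .z (.l .C) .z .z) .z) .z) (.n .z .z (.n .z (.l .C) .z .z) .z) .z) .z)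
  (.n .z (.n .z (.n .z .z (.l .B) .z) (.n .z (.n .z .z (.n .z (.n .z .z (.n .z (.n .z .z (.n .z
  (.l .C) .z .z) .z) .z .z) .z) .z .z) .z) (.n .z (.n .z .z (.n .z (.l .C) .z .z) .z) .z .z) .z)
  .z) (.n .z (.n .z (.n .z .z (.l .B) .z) (.n .z (.n .z .z (.n .z (.n .z .z (.n .z (.l .C) .z
  .z) .z) .z .z) .z) .z .z) .z) (.n .z (.n .z .z (.n .z (.l .C) .z .z) .z) .z .z) .z) .z) (.l
  .C)) (.n (.n .z (.l .C) (.l .B) (.n (.n .z .z .z (.n .z (.l .C) .z .z)) (.n (.n .z (.l .C) .z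
  .z) .z .z (.n .z (.l .C) .z .z)) .z (.n (.n .z (.l .C) .z .z) .z .z (.n (.n .z .z (.n .z (.l
  .C) .z .z) .z) .z .z .z)))) (.l .C) (.n (.l .B) .z .z (.n .z .z (.n .z .z .z (.l .C)) .z))
  .z))

/-- part of the trie of forbidden words -/
def TBBD : Tr :=
  (.n (.n (.n (.n (.n .z .z .z (.l .A)) .z .z (.l .A)) .z .z (.l .A)) .z (.n (.n .z .z .z (.n .z
  .z .z (.n .z .z .z (.n .z .z .z (.n (.n (.n .z .z .z (.n (.l .D) .z .z .z)) .z .z .z) .z .z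
  .z))))) .z .z .z) (.n (.n (.n .z .z .z (.l .A)) .z (.l .B) (.n (.n .z .z .z (.n (.l .D) .z .z
  .z)) .z .z (.n (.n .z .z (.l .B) .z) .z .z .z))) (.n (.n .z .z .z (.n (.n .z .z .z (.n .z (.l
  .C) .z (.n (.l .D) .z .z .z))) (.n .z .z .z (.n .z (.l .C) .z .z)) .z (.n .z .z .z (.n .z .z
  .z (.n (.l .D) .z .z .z))))) (.l .C) .z (.n .z (.n (.n .z .z .z (.n .z (.l .C) .z .z)) .z .z
  .z) .z .z)) (.n (.n .z (.l .C) .z (.n (.n .z .z .z (.n .z .z .z (.n (.n .z .z .z (.n (.l .D)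
  .z .z .z)) .z .z .z))) .z .z .z)) .z .z (.n .z (.l .C) .z .z)) (.n (.n (.n .z .z .z (.l .A))
  (.n (.n .z .z .z (.l .A)) .z .z .z) .z (.n (.l .D) .z .z .z)) .z .z (.n (.n (.n .z .z .z (.l
  .A)) .z (.n .z (.n (.l .B) .z .z (.l .B)) .z .z) (.n (.l .D) .z .z .z)) .z .z (.n (.n (.n .z
  .z .z (.l .A)) .z .z .z) .z .z .z))))) (.n (.n (.n (.n (.n (.n .z .z .z (.l .A)) .z .z .z) .z
  .z .z) .z .z .z) .z .z (.n (.n .z .z .z (.n (.n .z .z (.l .A) (.l .A)) .z .z (.n (.l .D) .z .z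
  .z))) (.l .C) .z (.n (.l .D) .z .z (.n (.l .D) .z .z (.n (.l .D) .z .z .z))))) .z (.l .B) (.n
  (.n (.n (.n (.n .z .z .z (.l .A)) .z .z .z) .z .z .z) (.l .C) .z (.n .z (.n (.n .z .z .z (.n
  (.n .z .z .z (.n .z (.l .C) .z .z)) (.n .z .z .z (.n .z (.l .C) .z .z)) .z .z)) .z .z .z) .z
  .z)) .z (.n .z .z (.n (.l .B) .z .z .z) (.n (.n .z .z (.n (.l .B) .z .z (.l .B)) .z) .z (.n .z
  .z .z (.l .C)) .z)) (.n .z .z .z (.n (.n (.n (.n .z .z .z (.l .A)) .z .z .z) .z .z .z) .z .z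
  (.n (.l .D) .z .z .z))))) (.n (.n .z .z .z (.n (.n (.n (.n (.n .z .z .z (.l .A)) .z .z .z) .z
  .z .z) .z .z (.n (.n (.n .z .z .z (.l .A)) .z .z .z) .z .z (.n (.l .D) .z .z .z))) .z .z (.n
  (.l .D) .z .z (.n (.l .D) .z .z (.n (.l .D) .z .z .z))))) .z (.n (.l .B) .z .z (.l .C)) (.n
  (.n (.n (.n (.n .z .z .z (.l .A)) .z .z .z) .z .z .z) .z .z (.n (.n .z .z .z (.n .z .z .z (.n
  (.l .D) .z .z .z))) .z (.l .B) .z)) .z (.n .z .z .z (.n (.n .z .z (.n (.l .B) .z .z (.l .B))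
  .z) .z (.n .z .z .z (.l .C)) .z)) (.n (.l .D) .z .z (.n (.n (.n (.n .z .z .z (.l .A)) .z .z
  .z) .z .z .z) .z .z (.n (.l .D) .z .z .z))))) (.n (.l .D) .z .z (.n (.n (.n (.n .z .z .z (.l
  .A)) .z .z (.l .A)) (.n .z (.n .z .z .z (.l .B)) .z .z) (.l .B) (.n (.n (.n .z .z .z (.l .A))
  .z .z (.n (.l .D) .z .z .z)) .z .z .z)) .z .z (.n (.l .D) .z .z (.n (.n (.n .z .z .z (.l .A))
  .z .z .z) .z .z .z)))))

/-- part of the trie of forbidden words -/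
def TBCA : Tr :=
  (.n (.n (.n (.n (.n .z .z .z (.n .z .z (.n .z .z .z (.n (.n .z .z .z (.n (.n .z .z (.n .z .z
  .z (.n (.n .z .z .z (.n (.n .z .z (.n .z .z .z (.n (.n .z .z .z (.n (.n .z .z (.l .B) .z) .z
  .z .z)) .z .z .z)) .z) .z .z .z)) .z .z .z)) .z) .z .z .z)) .z .z .z)) (.n (.l .D) .z .z .z)))
  .z .z (.l .A)) .z .z (.n (.n .z .z .z (.n (.n .z .z .z (.l .A)) .z .z (.n (.l .D) .z .z .z)))
  (.l .C) (.l .B) (.n (.l .D) .z .z (.n (.l .D) .z .z .z)))) (.n .z (.n (.l .B) .z .z (.l .B))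
  .z (.n .z (.n (.l .B) .z .z (.l .B)) .z .z)) .z (.l .A)) (.n (.n (.n (.n (.n .z .z .z (.l .A))
  .z .z .z) .z .z (.l .A)) (.n (.l .B) (.n .z .z .z (.l .C)) .z (.n .z (.n .z .z .z (.l .B)) .z
  .z)) .z (.n .z (.l .C) .z (.n .z .z .z (.n .z .z .z (.n (.l .D) .z .z .z))))) (.n (.l .B) (.n
  .z (.n .z (.n .z .z (.l .B) .z) .z .z) .z .z) .z (.n (.n .z (.l .C) .z (.n (.n .z .z .z (.n .z
  (.l .C) .z .z)) (.n (.n .z (.l .C) .z .z) .z .z (.n .z (.l .C) .z .z)) .z .z)) .z .z .z)) .z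
  (.n (.n (.n (.n (.n .z .z .z (.l .A)) .z .z (.l .A)) .z .z (.l .A)) .z .z (.n (.n (.n .z .z .z
  (.l .A)) .z .z .z) (.n (.n .z (.l .A) .z (.n (.n .z .z .z (.n .z (.l .C) .z .z)) .z .z .z)) .z
  .z (.n .z (.n (.n .z .z .z (.n .z (.l .C) .z .z)) .z .z .z) .z .z)) .z (.n .z .z .z (.n .z .z
  .z (.n (.n (.n .z .z .z (.l .A)) .z .z .z) .z .z .z))))) .z .z (.n .z .z .z (.n .z .z .z (.n
  .z .z .z (.n (.l .D) .z .z .z)))))) (.l .B) (.n (.n (.n (.n (.n .z .z .z (.n .z .z .z (.n (.l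
  .D) .z .z .z))) .z .z (.n (.n .z .z .z (.l .A)) .z .z (.n (.l .D) .z .z .z))) .z .z (.n (.n .z
  .z .z (.l .A)) .z (.n .z (.l .C) .z .z) (.n (.l .D) .z .z .z))) (.l .A) .z (.n (.n .z .z .z
  (.n (.n .z .z .z (.l .A)) .z .z .z)) (.l .C) .z (.n (.l .D) .z .z .z))) (.n (.n .z (.l .C) .z
  .z) .z .z (.n .z (.l .C) .z .z)) .z (.n (.l .D) .z .z (.n (.l .D) .z .z (.n (.l .D) .z .z
  .z)))))

/-- part of the trie of forbidden words -/
def TBCB : Tr :=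
  (.n (.n (.n .z (.n .z (.n .z (.n .z (.n .z (.n .z .z (.l .B) .z) .z .z) .z .z) .z .z) .z (.n
  .z (.n (.l .B) .z .z (.l .B)) .z .z)) .z .z) (.n (.l .B) (.n .z .z .z (.n (.n .z (.l .C) .z
  .z) .z .z .z)) .z (.n .z (.n .z .z .z (.l .B)) .z .z)) .z (.n (.n (.n .z .z .z (.n .z (.l .C)
  (.l .B) .z)) .z .z (.n (.n .z .z (.l .B) .z) .z .z .z)) (.n (.n .z .z .z (.n .z (.l .C) .z
  .z)) .z .z (.n (.n .z (.l .C) .z .z) .z .z .z)) .z .z)) (.n (.l .B) (.n .z (.n .z .z (.l .B)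
  .z) (.n .z .z (.n .z (.n .z .z (.n .z (.n .z .z (.n .z (.n .z .z (.n .z (.l .C) .z .z) .z) .z
  .z) .z) .z .z) .z) (.n .z (.n .z .z (.n .z (.l .C) .z .z) .z) .z .z) .z) .z) .z) (.n .z (.n .z
  .z (.l .B) .z) (.n .z (.n .z .z (.n .z .z (.n .z (.l .C) .z .z) .z) .z) (.n .z (.n .z .z (.n
  .z (.n .z .z (.n .z (.l .C) .z .z) .z) .z .z) .z) (.n .z (.l .C) .z .z) .z) .z) .z) (.l .B))
  (.n (.l .B) (.n .z (.n .z .z (.l .B) .z) (.n .z (.n .z .z (.n .z .z (.n .z (.l .C) .z .z) .z)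
  .z) (.n .z .z (.n .z (.l .C) .z .z) .z) .z) (.l .C)) (.n .z (.n .z .z (.n .z (.n .z .z (.n .z
  (.n .z .z (.n .z (.n .z .z (.n .z (.l .C) .z .z) .z) .z .z) .z) .z .z) .z) (.n .z (.n .z .z
  (.n .z (.l .C) .z .z) .z) .z .z) .z) .z) (.n .z (.n .z (.n .z .z (.l .B) .z) (.n .z (.n .z .z
  (.n .z (.n .z .z (.n .z (.l .C) .z .z) .z) .z .z) .z) .z .z) .z) (.n .z (.n .z .z (.n .z (.l
  .C) .z .z) .z) .z .z) .z) .z) (.l .C)) (.n (.n .z (.l .C) (.l .B) (.n (.n .z .z .z (.n .z (.l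
  .C) .z .z)) (.n (.n .z (.l .C) .z (.n (.n .z .z .z (.n .z .z .z (.n (.l .D) .z .z .z))) .z .z
  (.n .z .z .z (.n .z .z .z (.n (.l .D) .z .z .z))))) .z .z (.n .z (.l .C) .z .z)) .z (.n (.n .z
  (.l .C) .z .z) .z .z (.n (.n .z .z (.n .z (.l .C) .z .z) .z) .z .z .z)))) (.l .C) (.n (.l .B)
  .z .z (.n .z .z (.n .z .z .z (.l .C)) .z)) .z))

/-- part of the trie of forbidden words -/
def TBCC : Tr :=
  (.n (.l .B) (.n (.l .B) (.n .z (.n .z .z (.l .B) .z) (.l .B) .z) (.n .z (.n .z .z (.n .z (.n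
  .z .z (.n .z (.n .z .z (.n .z (.n .z .z (.n .z (.l .C) .z .z) .z) .z .z) .z) .z .z) .z) (.n .z
  (.n .z .z (.n .z (.l .C) .z .z) .z) .z .z) .z) .z) (.n .z (.n .z .z (.n .z (.n .z .z (.n .z
  (.n .z .z (.n .z (.l .C) .z .z) .z) .z .z) .z) (.n .z (.l .C) .z .z) .z) .z) (.n .z (.n .z (.n
  .z .z (.l .B) .z) (.n .z (.n .z .z (.n .z (.l .C) .z .z) .z) .z .z) .z) (.n .z (.l .C) .z .z)
  .z) .z) .z) (.l .C)) (.n .z (.n .z (.n .z .z (.n .z (.n .z .z (.n .z (.n .z .z (.n .z (.n .z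
  .z (.n .z (.l .C) .z .z) .z) .z .z) .z) .z .z) .z) (.n .z (.n .z .z (.n .z (.n .z .z (.n .z
  (.l .C) .z .z) .z) .z .z) .z) .z .z) .z) .z) (.n .z (.n .z .z (.n .z .z (.n .z (.l .C) .z .z)
  .z) .z) (.n .z (.n .z .z (.n .z (.n .z .z (.n .z (.l .C) .z .z) .z) .z .z) .z) (.n .z (.l .C)
  .z .z) .z) .z) .z) (.n .z (.n .z (.n .z .z (.n .z .z (.n .z (.l .C) .z .z) .z) .z) (.n .z (.n
  .z .z (.n .z (.n .z .z (.n .z (.n .z .z (.n .z (.l .C) .z .z) .z) .z .z) .z) .z .z) .z) (.n .z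
  (.l .C) .z .z) .z) .z) (.n .z (.n .z (.n .z .z (.n .z (.n .z .z (.n .z (.n .z .z (.n .z (.l
  .C) .z .z) .z) .z .z) .z) .z .z) .z) (.n .z (.n .z .z (.n .z (.n .z .z (.n .z (.l .C) .z .z)
  .z) .z .z) .z) .z .z) .z) (.n .z (.l .C) .z .z) .z) .z) (.l .C)) (.n (.n .z (.l .C) (.l .B)
  (.n (.n .z (.l .A) .z (.n .z (.l .C) .z .z)) (.n (.n .z (.l .C) .z .z) .z .z (.n .z (.l .C) .z
  .z)) .z (.n (.n .z (.l .C) .z .z) .z .z .z))) (.l .C) (.n .z .z .z (.n (.n .z .z (.l .B) .z)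
  .z (.n .z .z .z (.l .C)) .z)) (.n .z .z .z (.n (.n .z (.n (.n .z .z .z (.n .z .z .z (.n .z .z
  .z (.n .z .z .z (.n (.l .D) .z .z .z))))) .z .z .z) .z (.n (.n .z (.l .A) .z .z) .z .z .z)) .z
  .z .z))))

/-- part of the trie of forbidden words -/
def TBCD : Tr :=
  (.n (.n (.n (.n (.n .z .z .z (.l .A)) .z .z (.l .A)) .z .z (.l .A)) (.n (.n .z .z .z (.n .z .z
  .z (.n .z .z .z (.n .z .z .z (.n (.l .D) .z .z .z))))) .z .z .z) .z (.n (.n (.n .z .z .z (.l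
  .A)) (.l .A) (.l .B) (.n (.n .z .z (.n .z .z .z (.n (.n .z .z .z (.n (.n .z .z (.n .z .z .z
  (.n (.n .z .z .z (.n (.n .z .z (.n .z .z .z (.n (.n .z .z .z (.n (.n .z .z (.l .B) .z) .z .z
  .z)) .z .z .z)) .z) .z .z .z)) .z .z .z)) .z) .z .z .z)) .z .z .z)) (.n (.l .D) .z .z .z)) .z
  .z (.n (.n .z .z (.l .B) .z) .z .z .z))) (.n (.n .z .z .z (.n (.n .z .z .z (.n .z (.l .C) .z
  .z)) (.n .z .z .z (.n .z (.l .C) .z .z)) .z .z)) (.l .C) .z (.n .z (.n (.n .z .z .z (.n .z (.l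
  .C) .z .z)) .z .z .z) .z .z)) (.l .B) (.n (.n (.n .z .z .z (.l .A)) .z .z (.n (.l .D) .z .z
  .z)) .z .z (.n (.n (.n .z .z .z (.l .A)) .z .z (.n (.l .D) .z .z .z)) .z .z (.n (.n (.n .z .z
  .z (.l .A)) .z .z .z) .z .z .z))))) (.n (.n .z .z .z (.n (.n .z .z .z (.n .z .z .z (.n (.l .D)
  .z .z .z))) (.l .C) .z (.n (.l .D) .z .z (.n (.l .D) .z .z (.n (.l .D) .z .z .z))))) .z (.n
  (.l .C) .z .z (.l .C)) (.n (.n (.n (.n (.n .z .z .z (.l .A)) .z .z .z) .z .z .z) (.l .C) .z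
  (.n (.n .z .z .z (.n .z .z .z (.n (.l .D) .z .z .z))) (.n (.n .z .z .z (.n (.n .z .z .z (.n .z
  (.l .C) .z (.n (.l .D) .z .z .z))) (.n .z .z .z (.n .z (.l .C) .z .z)) .z (.n .z .z .z (.n .z
  .z .z (.n (.l .D) .z .z .z))))) .z .z .z) (.n (.n .z .z .z (.n (.n .z .z .z (.n .z .z .z (.n
  (.n .z .z .z (.n (.l .D) .z .z .z)) .z .z .z))) .z .z .z)) .z .z .z) .z)) .z (.n .z .z (.n (.l
  .B) .z .z .z) (.n (.n .z .z (.n (.l .B) .z .z (.l .B)) .z) .z (.n .z .z .z (.l .C)) .z)) (.n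
  (.l .D) .z .z (.n (.n (.n (.n .z .z .z (.l .A)) .z .z .z) .z .z .z) .z .z (.n (.l .D) .z .z
  .z))))) (.n (.n .z .z .z (.n (.n (.n (.n (.n .z .z .z (.n .z .z .z (.n (.l .D) .z .z .z))) .z
  .z .z) .z .z .z) (.l .A) .z (.n .z .z .z (.n (.l .D) .z .z .z))) .z .z (.n (.l .D) .z .z (.n
  (.l .D) .z .z (.n (.l .D) .z .z .z))))) .z (.n (.l .B) .z .z (.l .C)) (.n (.n (.n (.n (.n .z
  .z .z (.l .A)) .z .z .z) .z .z .z) .z (.n (.l .B) .z .z (.n (.n (.n (.n (.n .z .z .z (.l .A))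
  .z .z .z) .z .z .z) .z .z .z) .z .z .z)) (.n (.n .z .z .z (.n .z .z .z (.n (.l .D) .z .z .z)))
  (.l .C) (.l .B) .z)) .z (.n .z .z .z (.n (.n .z .z (.n (.l .B) .z .z (.l .B)) .z) .z (.n .z .z
  .z (.l .C)) .z)) (.n (.l .D) .z .z (.n (.n (.n (.n .z .z .z (.l .A)) .z .z .z) .z .z .z) .z .z
  (.n (.l .D) .z .z .z))))) (.n (.l .D) .z .z (.n (.n (.n (.n .z .z .z (.l .A)) .z .z (.l .A))
  (.n (.n .z .z .z (.n .z .z .z (.n .z .z .z (.n .z .z .z (.n (.l .D) .z .z .z))))) (.n (.l .B)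
  .z .z (.l .B)) .z .z) (.l .B) (.n (.n (.n .z .z .z (.l .A)) (.l .A) .z (.n (.l .D) .z .z .z))
  .z .z .z)) .z .z (.n (.l .D) .z .z (.n (.n (.n .z .z .z (.l .A)) .z .z .z) .z .z .z)))))

/-- part of the trie of forbidden words -/
def TBDA : Tr :=
  (.n (.n (.n (.n .z .z .z (.n .z .z (.l .B) .z)) .z .z (.n .z .z (.l .B) .z)) .z .z (.n (.n .z
  .z .z (.n .z .z (.l .B) .z)) (.n .z (.n .z .z .z (.l .B)) .z .z) (.n (.n .z .z .z (.n (.n .z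
  .z .z (.n .z (.n .z (.n .z .z .z (.n (.n .z .z .z (.n .z .z (.l .B) .z)) .z .z .z)) .z .z) .z
  .z)) .z .z .z)) (.l .C) .z .z) (.n (.n .z .z (.l .B) .z) .z .z (.n (.n .z (.n (.n .z .z .z (.l
  .A)) .z .z .z) .z .z) .z .z .z)))) (.n (.n .z .z .z (.n .z (.l .C) .z (.n .z .z .z (.n .z .z
  .z (.n (.l .D) .z .z .z))))) (.l .C) .z (.n (.n .z (.l .C) .z (.n (.n .z .z (.l .B) .z) .z .z
  .z)) .z .z .z)) (.n (.n .z (.l .A) .z (.n (.n .z .z .z (.n .z (.l .C) .z .z)) (.l .C) .z .z))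
  (.l .C) .z (.n (.n .z (.l .C) .z (.n (.n .z .z (.l .B) .z) .z (.n (.n .z (.l .C) .z .z) .z .z
  .z) .z)) (.l .C) .z .z)) (.n (.n (.n .z .z .z (.n .z .z (.n .z (.n .z .z .z (.l .B)) .z .z)
  .z)) (.l .A) (.n (.n .z .z .z (.n .z (.l .C) .z .z)) .z .z (.n (.n .z (.l .C) .z (.n (.n .z .z
  (.n .z .z .z (.n (.n .z .z .z (.n (.n .z .z (.n .z .z .z (.n (.n .z .z .z (.n (.n .z .z (.l
  .B) .z) .z .z .z)) .z .z .z)) .z) .z .z .z)) .z .z .z)) .z) .z .z .z)) .z .z .z)) (.n (.n .z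
  .z (.n .z .z .z (.n (.n .z (.l .C) .z .z) .z .z .z)) .z) .z (.l .B) .z)) (.n .z (.n .z .z .z
  (.n (.n .z .z (.l .B) (.n .z .z (.l .B) .z)) .z .z .z)) .z .z) (.n (.n .z .z .z (.n (.n .z .z
  .z (.n .z (.l .C) .z .z)) (.n (.n .z (.l .C) .z .z) .z .z (.n .z (.l .C) .z .z)) .z .z)) (.l
  .C) .z (.n .z (.n (.n .z .z .z (.n .z (.l .C) .z .z)) .z .z .z) .z .z)) (.n (.n (.n .z .z .z
  (.n (.n .z .z .z (.l .A)) .z .z .z)) .z (.l .B) .z) .z .z (.n (.n .z .z .z (.n (.n .z .z (.l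
  .B) .z) .z .z .z)) .z .z .z))))

/-- part of the trie of forbidden words -/
def TBDB : Tr :=
  (.n (.n .z (.l .C) (.l .B) (.n (.n .z .z .z (.n (.n .z .z (.n .z .z .z (.n (.n .z .z .z (.n
  (.n .z .z (.n .z .z .z (.n (.n .z .z .z (.n (.n .z .z (.n .z .z .z (.n (.n .z .z .z (.n (.n .z
  .z (.l .B) .z) .z .z .z)) .z .z .z)) .z) .z .z .z)) .z .z .z)) .z) .z .z .z)) .z .z .z)) .z)
  (.l .C) .z .z)) (.n (.n .z (.l .C) .z .z) .z .z (.n .z (.l .C) .z .z)) (.l .B) (.n (.n .z (.l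
  .C) .z .z) .z .z (.n (.n .z .z (.n .z (.l .C) .z .z) .z) .z .z .z)))) (.l .C) (.n (.n .z .z .z
  (.n (.n (.n (.n (.n .z .z .z (.l .A)) .z .z .z) .z .z .z) .z .z (.n (.n (.n .z .z .z (.l .A))
  .z (.l .B) .z) .z .z .z)) .z .z .z)) .z .z (.n (.n .z .z (.l .B) (.n .z (.l .C) .z (.n (.n .z
  (.l .C) .z .z) .z .z .z))) .z (.n (.l .B) .z .z (.n .z .z (.n .z .z .z (.l .C)) .z)) .z)) (.n
  (.n .z .z .z (.n (.n .z .z (.l .B) (.n .z .z .z (.n (.l .D) .z .z .z))) (.n (.n .z .z .z (.n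
  (.n .z .z .z (.n .z .z .z (.n (.l .D) .z .z .z))) .z .z (.n .z .z .z (.n .z .z .z (.n (.l .D)
  .z .z .z))))) (.l .C) .z .z) (.n (.n .z (.l .C) .z (.n (.n .z .z .z (.n .z .z .z (.n (.n .z .z
  .z (.n (.l .D) .z .z .z)) .z .z .z))) .z .z .z)) .z .z .z) .z)) (.l .C) (.n (.l .B) .z .z (.n
  .z .z .z (.n (.l .D) .z .z (.n .z .z .z (.n (.l .D) .z .z .z))))) (.n (.l .D) .z .z (.n (.n .z
  (.l .C) (.l .B) .z) .z .z .z))))

/-- part of the trie of forbidden words -/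
def TBDC : Tr :=
  (.n (.n .z (.l .C) (.l .B) (.n (.n (.n (.n (.n .z .z .z (.n .z .z .z (.n (.n .z .z .z (.l .A))
  .z .z .z))) .z .z .z) .z .z .z) (.l .A) .z (.n .z (.l .C) .z .z)) (.l .C) .z (.n (.n .z (.l
  .C) .z .z) .z .z (.n (.n .z .z (.n .z (.l .C) .z .z) .z) .z .z .z)))) (.l .C) (.n (.n .z .z .z
  (.n (.n .z .z .z (.n (.n .z .z (.l .B) .z) .z .z .z)) .z .z .z)) .z .z (.n (.n .z .z (.l .B)
  (.n .z .z .z (.n (.n .z (.l .C) .z .z) .z .z .z))) .z (.n .z .z .z (.l .C)) .z)) (.n (.n (.n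
  (.n (.n .z .z .z (.n .z .z .z (.n (.n .z .z .z (.n (.l .D) .z .z .z)) .z .z .z))) .z .z .z) .z
  .z .z) (.l .C) .z (.n (.n .z (.l .A) (.l .B) (.n .z .z .z (.n (.n .z .z (.l .B) .z) .z .z
  .z))) (.n (.n .z .z .z (.n (.n .z .z .z (.n .z (.l .C) .z .z)) (.n .z .z .z (.n .z (.l .C) .z
  .z)) .z .z)) (.l .C) .z .z) (.n (.n .z (.l .C) .z .z) .z .z .z) .z)) (.l .C) (.n (.l .B) .z
  (.n (.l .B) .z .z .z) (.n .z .z .z (.n (.l .D) .z .z (.n .z .z .z (.n (.l .D) .z .z .z)))))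
  (.n (.n .z (.n (.n .z .z .z (.n .z .z .z (.n .z .z .z (.n .z .z .z (.n (.l .D) .z .z .z)))))
  .z .z .z) .z (.n (.n .z (.l .A) .z .z) .z .z .z)) .z .z (.n (.n .z (.l .C) (.l .B) .z) .z .z
  .z))))

/-- part of the trie of forbidden words -/
def TBDD : Tr :=
  (.n (.n (.n (.n .z .z .z (.n .z .z (.l .B) .z)) .z .z (.n .z .z (.l .B) .z)) (.n (.n .z .z .z
  (.n .z (.l .C) .z (.n .z .z .z (.n .z .z .z (.n (.l .D) .z .z .z))))) (.n .z .z .z (.n (.n .z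
  .z .z (.n .z .z (.l .B) .z)) .z .z .z)) .z .z) (.l .B) (.n (.n .z (.l .A) (.l .B) .z) .z .z
  .z)) .z .z (.n (.n (.n .z .z .z (.n .z .z (.l .B) .z)) (.n (.n .z .z .z (.n .z .z .z (.n .z .z
  .z (.n .z .z .z (.n (.l .D) .z .z .z))))) .z .z .z) (.n (.n .z (.l .A) .z (.n (.n .z .z .z (.n
  .z (.n .z (.n .z .z .z (.n (.n .z .z .z (.n .z .z (.l .B) .z)) .z .z .z)) .z .z) .z .z)) .z .z
  .z)) (.l .C) .z .z) (.n (.n .z (.l .A) (.l .B) .z) .z .z .z)) .z .z (.n (.n .z .z (.l .B) (.n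
  (.n .z (.l .A) .z .z) .z .z .z)) .z .z (.n (.n (.n .z .z .z (.n (.l .D) .z .z .z)) .z (.l .B)
  .z) .z .z .z))))

/-- part of the trie of forbidden words -/
def TCAA : Tr :=
  (.n (.n (.n (.n .z .z .z (.n .z .z (.n .z .z .z (.n (.n .z (.l .C) .z .z) .z .z .z)) .z)) .z
  .z (.n .z .z (.n .z .z .z (.n (.n .z (.l .C) .z (.n (.n .z .z (.n .z .z .z (.n (.n .z .z .z
  (.n (.n .z .z (.n .z .z .z (.n (.n .z .z .z (.n (.n .z .z (.l .B) .z) .z .z .z)) .z .z .z))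
  .z) .z .z .z)) .z .z .z)) .z) .z .z .z)) .z .z .z)) .z)) .z .z (.n .z .z (.n (.n .z .z .z (.n
  .z (.l .C) .z .z)) (.l .C) .z (.n (.n .z (.l .C) .z (.n (.n .z .z (.n .z .z .z (.n (.n .z .z
  .z (.n (.n .z .z (.n .z .z .z (.n (.n .z .z .z (.n (.n .z .z (.l .B) .z) .z .z .z)) .z .z .z))
  .z) .z .z .z)) .z .z .z)) .z) .z .z .z)) .z .z .z)) .z)) (.n .z (.n (.n .z (.n (.l .B) .z .z
  .z) .z .z) .z .z (.n .z (.n .z .z .z (.l .B)) .z .z)) .z (.n (.n (.n .z .z .z (.n .z (.l .C)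
  .z .z)) .z .z .z) .z .z .z)) (.l .B) (.n (.n (.n .z .z .z (.n .z .z (.l .B) .z)) .z .z (.n .z
  .z (.l .B) .z)) (.n (.n .z .z .z (.n .z (.l .C) .z .z)) (.n (.l .B) .z .z (.l .B)) .z (.n (.n
  .z (.l .C) .z .z) .z .z .z)) (.l .B) (.n (.n .z .z (.l .B) .z) .z .z .z)))

/-- part of the trie of forbidden words -/
def TCAB : Tr :=
  (.n (.n (.n (.n (.n .z .z .z (.n .z .z (.n .z .z .z (.n (.n .z .z .z (.n (.n .z .z (.n .z .z
  .z (.n (.n .z .z .z (.n (.n .z .z (.n .z .z .z (.n (.n .z .z .z (.n (.n .z .z (.l .B) .z) .z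
  .z .z)) .z .z .z)) .z) .z .z .z)) .z .z .z)) .z) .z .z .z)) .z .z .z)) .z)) .z .z .z) .z .z
  (.n (.n .z .z .z (.n .z .z .z (.n (.n .z .z (.l .B) .z) .z .z .z))) .z .z .z)) (.n (.n (.n (.n
  (.n .z .z .z (.l .A)) .z .z .z) .z .z (.l .A)) (.n (.n (.n .z .z .z (.l .A)) .z .z .z) .z .z
  (.l .B)) .z .z) (.n .z (.n .z (.n .z (.n .z .z (.l .B) .z) .z .z) .z (.l .B)) .z (.n (.n .z .z
  .z (.n (.n .z .z .z (.n .z (.l .C) .z .z)) (.n .z .z .z (.n .z (.l .C) .z .z)) .z .z)) (.l .C)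
  .z .z)) .z (.n (.n (.n (.n (.n .z .z .z (.l .A)) .z .z (.l .A)) .z .z (.l .A)) .z .z (.n (.n
  (.n .z .z .z (.l .A)) .z .z .z) .z .z .z)) (.n (.l .B) .z .z (.n (.n (.n (.n (.n .z .z .z (.l
  .A)) .z .z .z) .z .z .z) .z .z .z) .z .z .z)) .z .z)) .z (.n .z (.n .z .z .z (.n .z (.l .C) .z
  .z)) .z .z)) (.n (.n .z (.n (.l .B) .z .z (.n .z (.n .z .z .z (.l .B)) .z .z)) .z .z) (.n .z
  .z (.n .z .z (.l .B) .z) (.l .B)) .z (.n (.n .z .z .z (.n .z .z (.l .B) .z)) (.l .C) .z .z))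
  .z (.n (.n (.n .z .z .z (.n .z (.l .C) (.l .B) .z)) .z .z (.n (.n .z .z (.l .B) (.n .z .z .z
  (.n (.n .z .z (.l .B) .z) .z .z .z))) (.n .z (.l .C) .z .z) .z (.n .z .z .z (.n .z .z .z (.n
  (.n (.n .z .z .z (.n (.l .D) .z .z .z)) .z .z .z) .z .z .z))))) (.n (.n .z .z .z (.n (.n .z .z
  .z (.n .z .z .z (.n (.l .D) .z .z .z))) (.l .C) .z (.n .z .z .z (.n .z .z .z (.n (.l .D) .z .z
  .z))))) .z .z (.n (.n (.n (.n (.n .z .z .z (.l .A)) .z .z .z) .z .z .z) (.l .C) .z .z) .z .z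
  (.n .z .z .z (.n .z .z .z (.n (.l .D) .z .z .z))))) .z .z))

/-- part of the trie of forbidden words -/
def TCAC : Tr :=
  (.n (.n (.n (.n .z .z .z (.n .z (.l .C) (.l .B) .z)) .z .z (.n (.n .z .z .z (.n .z (.n .z (.n
  .z .z .z (.l .B)) .z .z) .z (.n (.n .z .z (.l .B) .z) .z .z .z))) (.n .z .z .z (.n (.n .z .z
  .z (.n (.n .z .z (.l .B) .z) .z .z .z)) .z .z .z)) .z .z)) (.n (.n (.n (.n (.n .z .z .z (.l
  .A)) .z .z .z) .z .z (.l .A)) .z .z .z) (.n .z (.n .z (.n .z (.n .z .z (.l .B) .z) .z .z) .z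
  .z) .z (.l .C)) .z (.n (.n (.n (.n (.n .z .z .z (.l .A)) .z .z (.l .A)) .z .z (.l .A)) .z .z
  (.n (.n (.n .z .z .z (.l .A)) .z .z .z) .z .z .z)) .z .z .z)) .z (.n (.n .z .z .z (.n .z (.l
  .C) .z .z)) (.l .C) .z .z)) (.n (.l .B) (.n .z (.n .z (.n .z .z (.l .B) .z) .z .z) (.n .z .z
  (.l .B) .z) (.l .B)) .z (.n (.n .z .z .z (.n (.n .z .z .z (.n .z (.l .C) .z .z)) (.n (.n .z
  (.l .C) .z .z) .z .z (.n .z (.l .C) .z .z)) .z (.n .z .z .z (.n (.n .z .z (.n .z (.l .C) .z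
  .z) .z) .z .z .z)))) (.l .C) .z .z)) .z (.n (.n (.n .z .z .z (.n .z (.l .C) (.l .B) .z)) .z .z
  (.n (.n .z .z (.l .B) (.n .z .z .z (.n (.n .z .z (.l .B) .z) .z .z .z))) (.n (.n .z .z .z (.n
  (.n .z .z .z (.n .z (.l .C) .z .z)) .z .z .z)) .z .z (.n .z (.n (.n .z .z .z (.n .z (.l .C) .z
  .z)) .z .z .z) .z .z)) (.n (.n .z (.l .C) .z .z) .z .z (.n .z (.l .C) .z .z)) (.n .z .z .z (.n
  .z .z .z (.n (.n (.n .z .z .z (.n (.l .D) .z .z .z)) .z .z .z) .z .z .z))))) (.n (.n .z .z .z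
  (.n (.n .z .z .z (.n .z .z .z (.n (.l .D) .z .z .z))) (.l .C) .z (.n .z .z .z (.n .z .z .z (.n
  (.l .D) .z .z .z))))) .z .z (.n (.n (.n (.n (.n .z .z .z (.l .A)) .z .z .z) .z .z .z) (.l .C)
  .z .z) .z .z (.n .z .z .z (.n .z .z .z (.n (.l .D) .z .z .z))))) .z .z))

/-- part of the trie of forbidden words -/
def TCAD : Tr :=
  (.n (.n (.n (.n .z .z .z (.n .z .z (.l .B) .z)) .z .z (.n .z .z (.n .z (.n (.l .B) .z .z (.l
  .B)) .z .z) .z)) (.n .z .z .z (.n (.n .z (.l .C) .z .z) .z .z .z)) (.l .B) (.n (.n .z .z (.n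
  .z .z .z (.n (.n .z (.l .C) .z (.n (.n .z .z (.n .z .z .z (.n (.n .z .z .z (.n (.n .z .z (.n
  .z .z .z (.n (.n .z .z .z (.n (.n .z .z (.l .B) .z) .z .z .z)) .z .z .z)) .z) .z .z .z)) .z .z
  .z)) .z) .z .z .z)) .z .z .z)) (.n .z .z (.l .B) .z)) .z (.l .B) (.n (.n .z .z (.l .B) .z) .z
  .z .z))) (.n (.n .z .z .z (.n (.n .z .z .z (.n .z (.l .C) .z .z)) (.n .z .z .z (.n .z (.l .C)
  .z .z)) .z .z)) (.l .C) .z (.n (.n .z .z .z (.n (.n .z .z (.l .B) .z) .z (.n (.n .z (.l .C) .z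
  .z) .z .z .z) .z)) (.n (.n .z .z .z (.n .z (.l .C) .z .z)) .z .z (.n (.n .z (.l .C) .z .z) .z
  .z .z)) .z .z)) (.l .B) (.n (.n .z .z (.l .B) .z) .z .z (.n (.n .z .z (.n .z (.n (.l .B) .z .z
  (.l .B)) .z .z) .z) .z .z .z)))

/-- part of the trie of forbidden words -/
def TCBA : Tr :=
  (.n (.n (.n (.n (.n .z .z .z (.n .z .z (.n .z .z .z (.n (.n .z .z .z (.n (.n .z .z (.n .z .z
  .z (.n (.n .z .z .z (.n (.n .z .z (.n .z .z .z (.n (.n .z .z .z (.n (.n .z .z (.l .B) .z) .z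
  .z .z)) .z .z .z)) .z) .z .z .z)) .z .z .z)) .z) .z .z .z)) .z .z .z)) (.n (.l .D) .z .z .z)))
  .z .z (.l .A)) .z .z (.n (.n .z .z .z (.n (.n .z .z .z (.l .A)) .z .z (.n (.l .D) .z .z .z)))
  (.l .C) (.l .B) (.n (.l .D) .z .z (.n (.l .D) .z .z .z)))) (.n .z (.n (.l .B) .z .z (.l .B))
  .z .z) (.l .B) (.l .A)) (.n (.n (.n (.n (.n .z .z .z (.l .A)) .z .z .z) .z .z (.l .A)) (.n (.n
  (.n (.n (.n .z .z .z (.l .A)) .z .z .z) .z .z (.l .A)) (.n (.l .B) .z .z .z) .z .z) (.n .z .z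
  .z (.l .C)) .z (.n (.n (.n (.n .z .z .z (.l .A)) .z .z (.l .A)) .z .z .z) .z .z .z)) .z (.n .z
  (.l .C) .z .z)) (.n (.l .B) (.n .z (.n .z (.n .z .z (.l .B) .z) .z .z) .z (.l .B)) .z (.n (.n
  .z .z .z (.n (.n .z .z .z (.n .z (.l .C) .z .z)) (.n (.n .z (.l .C) .z .z) .z .z (.n .z (.l
  .C) .z .z)) .z .z)) (.l .C) .z .z)) .z (.n (.n (.n (.n (.n .z .z .z (.l .A)) .z .z (.l .A)) .z
  .z (.l .A)) .z .z (.n (.n (.n .z .z .z (.l .A)) .z .z .z) (.n (.n .z .z .z (.n (.n .z .z .z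
  (.n .z (.l .C) .z .z)) .z .z .z)) .z .z (.n .z (.n (.n .z .z .z (.n .z (.l .C) .z .z)) .z .z
  .z) .z .z)) .z (.n .z .z .z (.n .z .z .z (.n (.n (.n .z .z .z (.l .A)) .z .z .z) .z .z .z)))))
  (.n (.n .z .z .z (.n (.n .z .z .z (.n .z .z .z (.n (.l .D) .z .z .z))) .z .z (.n .z .z .z (.n
  .z .z .z (.n (.l .D) .z .z .z))))) .z .z (.n (.n (.n (.n (.n .z .z .z (.l .A)) .z .z .z) .z .z
  .z) .z .z .z) .z .z (.n .z .z .z (.n .z .z .z (.n (.l .D) .z .z .z))))) .z .z)) (.l .B) (.n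
  (.n (.n (.n .z .z .z (.n (.n .z .z .z (.l .A)) .z .z (.n (.l .D) .z .z .z))) .z .z (.n (.n .z
  .z .z (.l .A)) .z (.n .z (.l .C) .z .z) (.n (.l .D) .z .z .z))) .z .z (.n (.n (.n .z .z .z (.l
  .A)) .z (.n .z .z .z (.n (.n .z .z .z (.n (.n .z .z (.n .z .z .z (.n (.n .z .z .z (.n (.n .z
  .z (.n .z .z .z (.n (.n .z .z .z (.n (.n .z .z (.l .B) .z) .z .z .z)) .z .z .z)) .z) .z .z
  .z)) .z .z .z)) .z) .z .z .z)) .z .z .z)) (.n (.n .z .z .z (.l .A)) .z .z .z)) (.l .C) .z (.n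
  (.l .D) .z .z .z))) (.n (.n .z (.l .C) .z .z) .z .z (.n .z (.l .C) .z .z)) (.l .B) (.n (.l .D)
  .z .z (.n (.l .D) .z .z (.n (.l .D) .z .z .z)))))

/-- part of the trie of forbidden words -/
def TCBB : Tr :=
  (.n (.n (.n .z (.n .z (.n .z (.n .z (.n .z (.n .z .z (.l .B) .z) .z .z) .z .z) .z .z) .z (.n
  .z (.n (.l .B) .z .z (.l .B)) .z .z)) .z .z) (.n (.l .B) (.n .z .z .z (.n (.n .z (.l .C) .z
  .z) .z .z .z)) .z (.l .B)) .z (.n (.n (.n .z .z .z (.n .z (.l .C) .z .z)) .z .z .z) .z .z .z))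
  (.n (.l .B) (.n .z (.n .z .z (.l .B) .z) (.n .z .z (.n .z (.n .z .z (.n .z (.n .z .z (.n .z
  (.n .z .z (.n .z (.l .C) .z .z) .z) .z .z) .z) .z .z) .z) (.n .z (.n .z .z (.n .z (.l .C) .z
  .z) .z) .z .z) .z) .z) .z) (.n .z .z (.n .z (.n .z .z (.n .z .z (.n .z (.l .C) .z .z) .z) .z)
  (.n .z (.n .z .z (.n .z (.n .z .z (.n .z (.l .C) .z .z) .z) .z .z) .z) (.n .z (.l .C) .z .z)
  .z) .z) .z) (.l .B)) (.n (.l .B) (.n .z (.n .z .z (.l .B) .z) (.n .z (.n .z .z (.n .z .z (.n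
  .z (.l .C) .z .z) .z) .z) (.n .z (.n .z .z (.n .z (.n .z .z (.n .z (.n .z .z (.n .z (.l .C) .z
  .z) .z) .z .z) .z) .z .z) .z) (.n .z (.l .C) .z .z) .z) .z) .z) (.n .z (.n .z .z (.n .z (.n .z
  .z (.n .z (.n .z .z (.n .z (.n .z .z (.n .z (.l .C) .z .z) .z) .z .z) .z) .z .z) .z) (.n .z
  (.n .z .z (.n .z (.l .C) .z .z) .z) .z .z) .z) .z) (.n .z (.n .z .z (.n .z (.n .z .z (.n .z
  (.n .z .z (.n .z (.l .C) .z .z) .z) .z .z) .z) (.n .z (.l .C) .z .z) .z) .z) (.n .z (.n .z .z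
  (.n .z (.n .z .z (.n .z (.l .C) .z .z) .z) .z .z) .z) (.n .z (.l .C) .z .z) .z) .z) .z) (.l
  .C)) (.n (.n .z (.l .C) (.l .B) (.n (.n .z .z .z (.n (.n .z .z (.n .z .z .z (.n (.n .z .z .z
  (.n (.n .z .z (.n .z .z .z (.n (.n .z .z .z (.n (.n .z .z (.n .z .z .z (.n (.n .z .z .z (.n
  (.n .z .z (.l .B) .z) .z .z .z)) .z .z .z)) .z) .z .z .z)) .z .z .z)) .z) .z .z .z)) .z .z
  .z)) .z) (.l .C) .z .z)) (.n (.n .z (.l .C) .z .z) .z .z (.n .z (.l .C) .z .z)) (.l .B) (.n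
  (.n .z (.l .C) .z .z) .z .z (.n (.n .z .z (.n .z (.l .C) .z .z) .z) .z .z .z)))) (.l .C) (.n
  (.l .B) .z .z (.n (.n .z .z (.n (.l .B) .z .z (.n (.n (.n (.n (.n .z .z .z (.l .A)) .z .z .z)
  .z .z .z) .z .z .z) .z .z .z)) (.n .z (.l .C) .z .z)) .z (.n .z .z .z (.l .C)) .z)) (.n .z .z
  .z (.n (.n .z (.n .z (.l .C) .z .z) .z .z) .z .z .z))))

/-- part of the trie of forbidden words -/
def TCBC : Tr :=
  (.n (.n (.n .z (.n .z (.n .z (.n .z (.n .z (.n .z .z (.l .B) .z) .z .z) .z .z) .z .z) .z .z)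
  .z .z) (.n (.l .B) .z .z (.n .z (.n .z .z .z (.n (.n .z .z .z (.n .z .z (.l .B) .z)) .z .z
  .z)) .z .z)) .z (.n (.n (.n .z .z .z (.n .z (.l .C) (.l .B) .z)) .z .z (.n (.n .z .z (.l .B)
  .z) .z .z .z)) (.n (.n .z .z .z (.n .z (.l .C) .z .z)) .z .z (.n (.n .z (.l .C) .z .z) .z .z
  .z)) .z .z)) (.n (.l .B) (.n .z (.n .z .z (.l .B) .z) (.n .z .z (.n .z (.n .z .z (.n .z (.n .z
  .z (.n .z (.n .z .z (.n .z (.l .C) .z .z) .z) .z .z) .z) .z .z) .z) (.n .z (.l .C) .z .z) .z)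
  .z) .z) (.n .z (.n .z .z (.n .z (.n .z .z (.n .z (.n .z .z (.n .z (.n .z .z (.n .z (.l .C) .z
  .z) .z) .z .z) .z) .z .z) .z) (.n .z (.n .z .z (.n .z (.n .z .z (.n .z (.l .C) .z .z) .z) .z
  .z) .z) .z .z) .z) .z) (.n .z (.n .z .z (.n .z (.n .z .z (.n .z (.n .z .z (.n .z (.l .C) .z
  .z) .z) .z .z) .z) (.n .z (.l .C) .z .z) .z) .z) (.n .z (.n .z .z (.n .z (.n .z .z (.n .z (.l
  .C) .z .z) .z) .z .z) .z) (.n .z (.l .C) .z .z) .z) .z) .z) (.n (.n .z .z .z (.n .z (.l .C) .z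
  .z)) .z (.n .z .z .z (.l .C)) .z)) (.n .z (.n .z .z (.n .z (.n .z .z (.n .z .z (.n .z (.l .C)
  .z .z) .z) .z) (.n .z (.n .z .z (.n .z (.n .z .z (.n .z (.l .C) .z .z) .z) .z .z) .z) (.n .z
  (.l .C) .z .z) .z) .z) .z) (.n .z (.n .z (.n .z .z (.n .z .z (.n .z (.l .C) .z .z) .z) .z) (.n
  .z (.n .z .z (.n .z (.n .z .z (.n .z (.n .z .z (.n .z (.l .C) .z .z) .z) .z .z) .z) .z .z) .z)
  (.n .z (.l .C) .z .z) .z) .z) (.n .z (.n .z (.n .z .z (.n .z (.n .z .z (.n .z (.n .z .z (.n .z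
  (.l .C) .z .z) .z) .z .z) .z) .z .z) .z) (.n .z (.n .z .z (.n .z (.n .z .z (.n .z (.l .C) .z
  .z) .z) .z .z) .z) .z .z) .z) (.n .z (.l .C) .z .z) .z) .z) (.l .C)) (.n (.n .z (.l .C) (.l
  .B) (.n (.n .z .z .z (.n .z (.l .C) .z .z)) (.n (.n .z (.l .C) .z .z) .z .z (.n .z (.l .C) .z
  .z)) .z (.n (.n .z (.l .C) .z .z) .z .z (.n (.n .z .z (.n .z (.l .C) .z .z) .z) .z .z .z))))
  (.l .C) (.n (.l .B) .z .z (.n (.n .z .z (.l .B) .z) .z (.n .z .z .z (.l .C)) .z)) .z))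

/-- part of the trie of forbidden words -/
def TCBD : Tr :=
  (.n (.n (.n (.n (.n .z .z .z (.l .A)) .z .z (.l .A)) .z .z (.l .A)) .z (.n (.n .z .z .z (.n .z
  .z .z (.n .z .z .z (.n .z .z .z (.n (.n (.n .z .z .z (.n (.l .D) .z .z .z)) .z .z .z) .z .z
  .z))))) .z .z .z) (.n (.n (.n .z .z .z (.l .A)) .z (.l .B) (.n (.n .z .z (.n .z .z .z (.n (.n
  .z .z .z (.n (.n .z .z (.n .z .z .z (.n (.n .z .z .z (.n (.n .z .z (.n .z .z .z (.n (.n .z .z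
  .z (.n (.n .z .z (.l .B) .z) .z .z .z)) .z .z .z)) .z) .z .z .z)) .z .z .z)) .z) .z .z .z)) .z
  .z .z)) (.n (.l .D) .z .z .z)) .z .z (.n (.n .z .z (.l .B) .z) .z .z .z))) (.n (.n .z .z .z
  (.n (.n .z .z .z (.n .z (.l .C) .z .z)) (.n .z .z .z (.n .z (.l .C) .z .z)) .z .z)) (.l .C) .z
  (.n .z (.n (.n .z .z .z (.n .z (.l .C) .z .z)) .z .z .z) .z .z)) (.l .B) (.n (.n (.n .z .z .z
  (.l .A)) .z .z (.n (.l .D) .z .z .z)) .z .z (.n (.n (.n .z .z .z (.l .A)) .z (.n .z (.n (.l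
  .B) .z .z (.l .B)) .z .z) (.n (.l .D) .z .z .z)) .z .z (.n (.n (.n .z .z .z (.l .A)) .z .z .z)
  .z .z .z))))) (.n (.n .z .z .z (.n (.n .z .z .z (.n .z .z .z (.n (.l .D) .z .z .z))) (.l .C)
  .z (.n (.l .D) .z .z (.n (.l .D) .z .z (.n (.l .D) .z .z .z))))) .z (.n (.l .C) .z .z (.l .C))
  (.n (.n (.n (.n (.n .z .z .z (.l .A)) .z .z .z) .z .z .z) (.l .C) .z (.n .z (.n (.n .z .z .z
  (.n (.n .z .z .z (.n .z (.l .C) .z .z)) (.n .z .z .z (.n .z (.l .C) .z .z)) .z .z)) .z .z .z)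
  .z .z)) .z (.n .z .z (.n (.l .B) .z .z .z) (.n (.n .z .z (.n (.l .B) .z .z (.l .B)) .z) .z (.n
  .z .z .z (.l .C)) .z)) (.n .z .z .z (.n (.n (.n (.n .z .z .z (.l .A)) .z .z .z) .z .z .z) .z
  .z (.n (.l .D) .z .z .z))))) (.n (.n .z .z .z (.n (.n (.n (.n (.n .z .z .z (.n .z .z .z (.n
  (.l .D) .z .z .z))) .z .z .z) .z .z .z) .z .z (.n .z .z .z (.n (.l .D) .z .z .z))) .z .z (.n
  (.l .D) .z .z (.n (.l .D) .z .z (.n (.l .D) .z .z .z))))) .z (.n (.l .B) .z .z (.l .C)) (.n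
  (.n (.n (.n (.n .z .z .z (.l .A)) .z .z .z) .z .z .z) .z (.n (.l .B) .z .z (.n (.n (.n (.n (.n
  .z .z .z (.l .A)) .z .z .z) .z .z .z) .z .z .z) .z .z .z)) (.n (.n .z .z .z (.n .z .z .z (.n
  (.l .D) .z .z .z))) (.l .C) (.l .B) .z)) .z (.n .z .z .z (.n (.n .z .z (.n (.l .B) .z .z (.l
  .B)) .z) .z (.n .z .z .z (.l .C)) .z)) (.n (.l .D) .z .z (.n (.n (.n (.n .z .z .z (.l .A)) .z
  .z .z) .z .z .z) .z .z (.n (.l .D) .z .z .z))))) (.n (.l .D) .z .z (.n (.n (.n (.n .z .z .z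
  (.l .A)) .z .z (.l .A)) (.n .z (.n (.l .B) .z .z (.l .B)) .z .z) (.l .B) (.n (.n (.n .z .z .z
  (.l .A)) .z .z (.n (.l .D) .z .z .z)) .z .z .z)) .z .z (.n (.l .D) .z .z (.n (.n (.n .z .z .z
  (.l .A)) .z .z .z) .z .z .z)))))

/-- part of the trie of forbidden words -/
def TCCA : Tr :=
  (.n (.n (.n (.n (.n .z .z .z (.n .z .z (.n .z .z .z (.n (.n .z .z .z (.n (.n .z .z (.n .z .z
  .z (.n (.n .z .z .z (.n (.n .z .z (.n .z .z .z (.n (.n .z .z .z (.n (.n .z .z (.l .B) .z) .z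
  .z .z)) .z .z .z)) .z) .z .z .z)) .z .z .z)) .z) .z .z .z)) .z .z .z)) (.n (.l .D) .z .z .z)))
  .z .z (.l .A)) .z .z (.n (.n .z .z .z (.n (.n .z .z .z (.l .A)) .z .z (.n (.l .D) .z .z .z)))
  (.l .C) (.l .B) (.n (.l .D) .z .z (.n (.l .D) .z .z .z)))) (.n .z (.n (.l .B) .z .z (.l .B))
  .z (.n .z (.n (.l .B) .z .z (.l .B)) .z .z)) .z (.l .A)) (.n (.n (.n (.n (.n .z .z .z (.l .A))
  .z .z .z) .z .z (.l .A)) (.n (.n .z (.n (.l .B) .z .z .z) .z .z) (.n .z .z .z (.l .C)) .z .z)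
  .z (.n .z (.l .C) .z (.n .z .z .z (.n .z .z .z (.n (.l .D) .z .z .z))))) (.n (.l .B) (.n .z
  (.n .z (.n .z .z (.l .B) .z) .z .z) .z .z) .z (.n (.n .z (.l .C) .z (.n (.n .z .z .z (.n .z
  (.l .C) .z .z)) (.n (.n .z (.l .C) .z .z) .z .z (.n .z (.l .C) .z .z)) .z .z)) .z .z .z)) .z
  (.n (.n (.n (.n (.n .z .z .z (.l .A)) .z .z (.l .A)) .z .z (.l .A)) .z .z (.n (.n (.n .z .z .z
  (.l .A)) .z .z .z) (.n (.n .z .z .z (.n (.n .z .z .z (.n .z (.l .C) .z .z)) .z .z .z)) .z .z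
  (.n .z (.n (.n .z .z .z (.n .z (.l .C) .z .z)) .z .z .z) .z .z)) .z (.n .z .z .z (.n .z .z .z
  (.n (.n (.n .z .z .z (.l .A)) .z .z .z) .z .z .z))))) .z .z .z)) (.l .B) (.n (.n (.n (.n (.n
  .z .z .z (.n .z .z .z (.n (.l .D) .z .z .z))) .z .z (.n (.n .z .z .z (.l .A)) .z .z (.n (.l
  .D) .z .z .z))) .z .z (.n (.n .z .z .z (.l .A)) .z (.n .z (.l .C) .z .z) (.n (.l .D) .z .z
  .z))) (.n .z .z .z (.n (.n .z .z .z (.n (.n .z .z (.l .B) .z) .z .z .z)) .z .z .z)) .z (.n (.n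
  .z .z .z (.n (.n .z .z .z (.l .A)) .z .z .z)) (.l .C) .z (.n (.l .D) .z .z .z))) (.n (.n .z
  (.l .C) .z .z) .z .z (.n .z (.l .C) .z .z)) .z (.n (.l .D) .z .z (.n (.l .D) .z .z (.n (.l .D)
  .z .z .z)))))

/-- part of the trie of forbidden words -/
def TCCB : Tr :=
  (.n (.n (.n .z (.n .z (.n .z (.n .z (.n .z (.n .z .z (.l .B) .z) .z .z) .z .z) .z .z) .z (.n
  .z (.n (.l .B) .z .z (.l .B)) .z .z)) .z .z) (.n (.l .B) (.n .z .z .z (.n (.n .z (.l .C) .z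
  .z) .z .z .z)) .z (.n .z (.n .z .z .z (.n (.n .z .z .z (.n .z .z (.l .B) .z)) .z .z .z)) .z
  .z)) .z (.n (.n (.n .z .z .z (.n .z (.l .C) (.l .B) .z)) .z .z (.n (.n .z .z (.l .B) .z) .z .z
  .z)) (.n (.n .z .z .z (.n .z (.l .C) .z .z)) .z .z (.n (.n .z (.l .C) .z .z) .z .z .z)) .z
  .z)) (.n (.l .B) (.n .z (.n .z .z (.l .B) .z) (.n .z .z (.n .z (.n .z .z (.n .z (.n .z .z (.n
  .z (.n .z .z (.n .z (.l .C) .z .z) .z) .z .z) .z) .z .z) .z) (.n .z (.n .z .z (.n .z (.l .C)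
  .z .z) .z) .z .z) .z) .z) .z) (.n .z (.n .z .z (.n .z (.n .z .z (.n .z (.n .z .z (.n .z (.n .z
  .z (.n .z (.l .C) .z .z) .z) .z .z) .z) .z .z) .z) (.n .z (.n .z .z (.n .z (.n .z .z (.n .z
  (.l .C) .z .z) .z) .z .z) .z) .z .z) .z) .z) (.n .z (.n .z .z (.n .z .z (.n .z (.l .C) .z .z)
  .z) .z) (.n .z (.n .z .z (.n .z (.n .z .z (.n .z (.l .C) .z .z) .z) .z .z) .z) (.n .z (.l .C)
  .z .z) .z) .z) .z) (.l .B)) (.n (.l .B) (.n .z (.n .z .z (.l .B) .z) (.n .z (.n .z .z (.n .z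
  .z (.n .z (.l .C) .z .z) .z) .z) (.n .z .z (.n .z (.l .C) .z .z) .z) .z) (.l .C)) (.n .z (.n
  .z .z (.n .z (.n .z .z (.n .z (.n .z .z (.n .z (.n .z .z (.n .z (.l .C) .z .z) .z) .z .z) .z)
  .z .z) .z) (.n .z (.n .z .z (.n .z (.l .C) .z .z) .z) .z .z) .z) .z) (.n .z (.n .z (.n .z .z
  (.n .z (.n .z .z (.n .z (.n .z .z (.n .z (.l .C) .z .z) .z) .z .z) .z) .z .z) .z) (.n .z (.n
  .z .z (.n .z (.n .z .z (.n .z (.l .C) .z .z) .z) .z .z) .z) .z .z) .z) (.n .z (.n .z .z (.n .z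
  (.l .C) .z .z) .z) .z .z) .z) .z) (.l .C)) (.n (.n .z (.l .C) (.l .B) (.n (.n .z .z .z (.n .z
  (.l .C) .z .z)) (.n (.n .z (.l .C) .z .z) .z .z (.n .z (.l .C) .z .z)) .z (.n (.n .z (.l .C)
  .z .z) .z .z (.n (.n .z .z (.n .z (.l .C) .z .z) .z) .z .z .z)))) (.l .C) (.n (.l .B) .z .z
  (.n .z .z (.n .z .z .z (.l .C)) .z)) .z))

/-- part of the trie of forbidden words -/
def TCCC : Tr :=
  (.n (.l .B) (.n (.l .B) (.n .z (.n .z .z (.l .B) .z) (.n .z (.n .z .z (.n .z .z (.n .z (.l .C)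
  .z .z) .z) .z) (.n .z (.n .z .z (.n .z (.n .z .z (.n .z (.n .z .z (.n .z (.l .C) .z .z) .z) .z
  .z) .z) .z .z) .z) (.n .z (.l .C) .z .z) .z) .z) .z) (.n .z (.n .z .z (.n .z (.n .z .z (.n .z
  (.n .z .z (.n .z (.n .z .z (.n .z (.l .C) .z .z) .z) .z .z) .z) .z .z) .z) (.n .z (.n .z .z
  (.n .z (.l .C) .z .z) .z) .z .z) .z) .z) (.n .z (.n .z .z (.n .z (.n .z .z (.n .z (.n .z .z
  (.n .z (.l .C) .z .z) .z) .z .z) .z) (.n .z (.l .C) .z .z) .z) .z) (.n .z (.n .z .z (.n .z (.n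
  .z .z (.n .z (.l .C) .z .z) .z) .z .z) .z) (.n .z (.l .C) .z .z) .z) .z) .z) (.l .C)) (.n .z
  (.n .z (.n .z .z (.n .z (.n .z .z (.n .z (.n .z .z (.n .z (.n .z .z (.n .z (.l .C) .z .z) .z)
  .z .z) .z) .z .z) .z) (.n .z (.n .z .z (.n .z (.n .z .z (.n .z (.l .C) .z .z) .z) .z .z) .z)
  .z .z) .z) .z) (.n .z (.n .z .z (.n .z .z (.n .z (.l .C) .z .z) .z) .z) (.n .z (.n .z .z (.n
  .z (.n .z .z (.n .z (.l .C) .z .z) .z) .z .z) .z) (.n .z (.l .C) .z .z) .z) .z) .z) (.n .z (.n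
  .z (.n .z .z (.n .z .z (.n .z (.l .C) .z .z) .z) .z) (.n .z (.n .z .z (.n .z (.n .z .z (.n .z
  (.n .z .z (.n .z (.l .C) .z .z) .z) .z .z) .z) .z .z) .z) (.n .z (.l .C) .z .z) .z) .z) (.n .z
  (.n .z (.n .z .z (.n .z (.n .z .z (.n .z (.n .z .z (.n .z (.l .C) .z .z) .z) .z .z) .z) .z .z)
  .z) (.n .z (.n .z .z (.n .z (.n .z .z (.n .z (.l .C) .z .z) .z) .z .z) .z) .z .z) .z) (.n .z
  (.l .C) .z .z) .z) .z) (.l .C)) (.n (.n .z (.l .C) (.l .B) (.n (.n .z (.n .z .z .z (.n (.n .z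
  .z .z (.n (.n .z .z (.n .z .z .z (.n (.n .z .z .z (.n (.n .z .z (.n .z .z .z (.n (.n .z .z .z
  (.n (.n .z .z (.l .B) .z) .z .z .z)) .z .z .z)) .z) .z .z .z)) .z .z .z)) .z) .z .z .z)) .z .z
  .z)) .z (.n .z (.l .C) .z .z)) (.n (.n .z (.l .C) .z .z) .z .z (.n .z (.l .C) .z .z)) .z (.n
  (.n .z (.l .C) .z .z) .z .z .z))) (.l .C) (.n .z .z .z (.l .C)) .z))

/-- part of the trie of forbidden words -/
def TCCD : Tr :=
  (.n (.n (.n (.n (.n .z .z .z (.l .A)) .z .z (.l .A)) .z .z (.l .A)) (.n (.n .z .z .z (.n .z .z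
  .z (.n .z .z .z (.n .z .z .z (.n (.n (.n .z .z .z (.n (.l .D) .z .z .z)) .z .z .z) .z .z
  .z))))) .z .z .z) (.n (.n (.n (.n (.n .z .z .z (.l .A)) .z .z .z) .z .z .z) .z .z (.n .z .z .z
  (.n .z .z .z (.n .z .z .z (.n (.l .D) .z .z .z))))) .z .z (.n (.n (.n (.n (.n .z .z .z (.l
  .A)) .z .z .z) .z .z .z) .z .z (.n (.n (.n .z .z .z (.l .A)) .z .z .z) .z .z .z)) .z .z .z))
  (.n (.n (.n .z .z .z (.l .A)) (.n .z .z .z (.n (.n .z (.l .C) .z .z) .z .z .z)) (.l .B) (.n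
  (.n .z .z (.n .z .z .z (.n (.n .z .z .z (.n (.n .z .z (.n .z .z .z (.n (.n .z .z .z (.n (.n .z
  .z (.n .z .z .z (.n (.n .z .z .z (.n (.n .z .z (.l .B) .z) .z .z .z)) .z .z .z)) .z) .z .z
  .z)) .z .z .z)) .z) .z .z .z)) .z .z .z)) (.n (.l .D) .z .z .z)) .z .z (.n (.n .z .z (.l .B)
  .z) .z .z .z))) (.n (.n .z .z .z (.n (.n .z .z .z (.n .z (.l .C) .z .z)) (.n .z .z .z (.n .z
  (.l .C) .z .z)) .z .z)) (.l .C) .z (.n .z (.n (.n .z .z .z (.n .z (.l .C) .z .z)) .z .z .z) .z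
  .z)) (.l .B) (.n (.n (.n .z .z .z (.l .A)) .z .z (.n (.l .D) .z .z .z)) .z .z (.n (.n (.n .z
  .z .z (.l .A)) .z (.n .z (.l .C) .z .z) (.n (.l .D) .z .z .z)) .z .z (.n (.n (.n .z .z .z (.l
  .A)) .z .z .z) .z .z .z))))) (.n (.n .z .z .z (.n (.n .z .z .z (.n .z .z .z (.n (.l .D) .z .z
  .z))) (.l .C) .z (.n (.l .D) .z .z (.n (.l .D) .z .z (.n (.l .D) .z .z .z))))) .z (.n (.l .B)
  .z .z (.l .C)) (.n (.n (.n (.n (.n .z .z .z (.l .A)) .z .z .z) .z .z .z) (.l .C) .z (.n (.n .z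
  .z .z (.n .z .z .z (.n (.l .D) .z .z .z))) (.n (.n .z .z .z (.n (.n .z .z .z (.n .z (.l .C) .z
  .z)) (.n .z .z .z (.n .z (.l .C) .z .z)) .z .z)) .z .z .z) (.l .B) .z)) .z (.n .z .z (.n (.l
  .B) .z .z .z) (.n (.n .z .z (.n (.l .B) .z .z (.l .B)) .z) .z (.n .z .z .z (.l .C)) .z)) (.n
  (.l .D) .z .z (.n (.n (.n (.n .z .z .z (.l .A)) .z .z .z) .z .z .z) .z .z (.n (.l .D) .z .z
  .z))))) (.n (.l .B) .z (.n (.l .B) .z .z (.l .C)) (.n (.n (.n (.n (.n .z .z .z (.l .A)) .z .z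
  .z) .z .z .z) .z (.n (.l .B) .z .z (.n (.n (.n (.n (.n .z .z .z (.l .A)) .z .z .z) .z .z .z)
  .z .z .z) .z .z .z)) (.n (.n .z .z .z (.n .z .z .z (.n (.l .D) .z .z .z))) (.l .C) (.l .B)
  .z)) .z (.n .z .z .z (.n (.n .z .z (.n (.l .B) .z .z (.l .B)) .z) .z (.n .z .z .z (.l .C))
  .z)) (.n (.l .D) .z .z (.n (.n (.n (.n .z .z .z (.l .A)) .z .z .z) .z .z .z) .z .z (.n (.l .D)
  .z .z .z))))) (.n (.l .D) .z .z (.n (.n (.n (.n .z .z .z (.l .A)) .z .z (.l .A)) (.n .z (.n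
  (.l .B) .z .z (.l .B)) .z .z) (.l .B) (.n (.n (.n .z .z .z (.l .A)) .z .z (.n (.l .D) .z .z
  .z)) .z .z .z)) .z .z (.n (.l .D) .z .z (.n (.n (.n .z .z .z (.l .A)) .z .z .z) .z .z .z)))))

/-- part of the trie of forbidden words -/
def TCDA : Tr :=
  (.n (.n (.n (.n .z .z .z (.n .z .z (.l .B) .z)) .z .z (.n .z .z (.l .B) .z)) .z .z (.n (.n .z
  .z .z (.n .z .z (.l .B) .z)) (.n .z (.n .z .z .z (.l .B)) .z .z) (.n (.n .z .z .z (.n (.n .z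
  .z .z (.n .z (.l .C) .z .z)) .z .z .z)) (.l .C) .z (.n .z (.n (.n .z .z .z (.n .z (.l .C) .z
  .z)) .z .z .z) .z .z)) (.n (.n .z .z (.l .B) .z) .z .z .z))) (.n (.n .z .z .z (.n .z (.l .C)
  .z .z)) (.l .C) .z (.n (.n .z (.l .C) .z (.n (.n .z .z (.l .B) .z) .z .z .z)) .z .z .z)) (.n
  (.n .z (.l .C) .z (.n (.n .z .z .z (.n .z (.l .C) .z .z)) (.l .C) .z (.n .z .z .z (.n .z .z .z
  (.n (.n (.n .z .z .z (.n (.l .D) .z .z .z)) .z .z .z) .z .z .z))))) (.l .C) .z (.n (.n .z (.l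
  .C) .z (.n (.n .z .z (.l .B) .z) .z (.n (.n .z (.l .C) .z .z) .z .z .z) .z)) (.l .C) .z .z))
  (.n (.n (.n .z .z .z (.n .z .z (.n .z (.n (.l .B) .z .z (.l .B)) .z .z) .z)) .z (.n (.n .z .z
  .z (.n .z (.l .C) .z .z)) .z .z (.n (.n .z (.l .C) .z (.n (.n .z .z (.n .z .z .z (.n (.n .z .z
  .z (.n (.n .z .z (.n .z .z .z (.n (.n .z .z .z (.n (.n .z .z (.l .B) .z) .z .z .z)) .z .z .z))
  .z) .z .z .z)) .z .z .z)) .z) .z .z .z)) .z .z .z)) (.n (.n .z .z (.n .z .z .z (.n (.n .z (.l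
  .C) .z .z) .z .z .z)) .z) .z (.l .B) .z)) (.n .z (.n .z .z .z (.l .B)) .z .z) (.n (.n .z .z .z
  (.n (.n .z .z .z (.n .z (.l .C) .z .z)) (.n (.n .z (.l .C) .z .z) .z .z (.n .z (.l .C) .z .z))
  .z .z)) (.l .C) .z (.n .z (.n (.n .z .z .z (.n .z (.l .C) .z .z)) .z .z .z) .z .z)) (.n (.n .z
  .z (.l .B) .z) .z .z (.n (.n .z .z (.n .z (.n (.l .B) .z .z (.l .B)) .z .z) .z) .z .z .z))))

/-- part of the trie of forbidden words -/
def TCDB : Tr :=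
  (.n (.n .z (.l .C) (.l .B) (.n (.n .z .z .z (.n (.n .z .z (.n .z .z .z (.n (.n .z .z .z (.n
  (.n .z .z (.n .z .z .z (.n (.n .z .z .z (.n (.n .z .z (.n .z .z .z (.n (.n .z .z .z (.n (.n .z
  .z (.l .B) .z) .z .z .z)) .z .z .z)) .z) .z .z .z)) .z .z .z)) .z) .z .z .z)) .z .z .z)) .z)
  (.l .C) .z .z)) (.n (.n .z (.l .C) .z .z) .z .z (.n .z (.l .C) .z .z)) (.l .B) (.n (.n .z (.l
  .C) .z .z) .z .z (.n (.n .z .z (.n .z (.l .C) .z .z) .z) .z .z .z)))) (.l .C) (.n (.n .z .z .z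
  (.n (.n .z .z .z (.n (.n .z .z (.l .B) .z) .z .z .z)) .z .z .z)) .z .z (.n (.n .z .z (.l .B)
  (.n .z (.l .C) .z (.n (.n .z (.l .C) .z .z) .z .z .z))) .z (.n (.l .B) .z .z (.l .C)) .z)) (.n
  (.n .z .z .z (.n (.n .z .z (.l .B) (.n .z .z .z (.n (.n .z .z (.l .B) .z) .z .z .z))) (.n .z
  (.l .C) .z .z) (.n (.n .z (.l .C) .z .z) .z .z .z) .z)) (.l .C) (.n (.l .B) .z .z (.n .z .z .z
  (.n (.l .D) .z .z (.n .z .z .z (.n (.l .D) .z .z .z))))) (.n (.n .z (.n .z (.l .C) .z .z) .z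
  .z) .z .z (.n (.n .z (.l .C) (.l .B) .z) .z .z .z))))

/-- part of the trie of forbidden words -/
def TCDC : Tr :=
  (.n (.n .z (.l .C) (.l .B) (.n (.n (.n (.n (.n .z .z .z (.n .z .z .z (.n (.n .z .z .z (.l .A))
  .z .z .z))) .z .z .z) .z .z .z) (.n .z .z .z (.n (.n .z .z .z (.n (.n .z .z (.l .B) .z) .z .z
  .z)) .z .z .z)) .z (.n .z (.l .C) .z .z)) (.l .C) .z (.n (.n .z (.l .C) .z .z) .z .z (.n (.n
  .z .z (.n .z (.l .C) .z .z) .z) .z .z .z)))) (.l .C) (.n (.n .z .z .z (.n (.n .z .z .z (.n (.n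
  .z .z (.l .B) .z) .z .z .z)) .z .z .z)) .z .z (.n (.n .z .z (.l .B) (.n .z .z .z (.n (.n .z
  (.l .C) .z .z) .z .z .z))) .z (.n .z .z .z (.l .C)) .z)) (.n (.n .z (.l .C) .z (.n (.n .z (.l
  .C) (.l .B) (.n .z .z .z (.n (.n .z .z (.l .B) .z) .z .z .z))) (.n (.n .z .z .z (.n (.n .z .z
  .z (.n .z (.l .C) .z .z)) (.n .z .z .z (.n .z (.l .C) .z .z)) .z .z)) (.l .C) .z .z) (.n (.n
  .z (.l .C) .z .z) .z .z .z) .z)) (.l .C) (.n (.l .B) .z (.n (.l .B) .z .z .z) (.n .z .z .z (.n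
  (.l .D) .z .z (.n .z .z .z (.n (.l .D) .z .z .z))))) (.n .z .z .z (.n (.n .z (.l .C) (.l .B)
  .z) .z .z .z))))

/-- part of the trie of forbidden words -/
def TCDD : Tr :=
  (.n (.n (.n (.n .z .z .z (.n .z .z (.l .B) .z)) .z .z (.n .z .z (.l .B) .z)) (.n (.n .z .z .z
  (.n .z (.l .C) .z .z)) (.n (.l .B) .z .z (.l .B)) .z .z) (.l .B) (.n (.n .z .z (.l .B) .z) .z
  .z .z)) .z .z (.n (.n (.n .z .z .z (.n .z .z (.l .B) .z)) .z (.n (.n .z .z .z (.n (.n .z .z .z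
  (.n .z (.l .C) .z .z)) .z .z .z)) (.l .C) .z (.n .z (.n (.n .z .z .z (.n .z (.l .C) .z .z)) .z
  .z .z) .z .z)) (.n (.n .z .z (.l .B) .z) .z .z .z)) .z .z (.n (.n .z .z (.l .B) .z) .z .z (.n
  (.n .z .z (.l .B) .z) .z .z .z))))

/-- part of the trie of forbidden words -/
def TDAA : Tr :=
  (.n (.n (.n (.n .z .z .z (.l .A)) .z .z (.n (.n .z .z .z (.n (.n .z .z .z (.n (.n .z .z .z (.l
  .A)) .z .z .z)) .z .z (.n (.l .D) .z .z .z))) .z (.n .z .z .z (.n (.n .z (.l .C) .z .z) .z .z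
  .z)) (.n (.n .z .z .z (.n (.n .z .z .z (.n (.l .D) .z .z .z)) .z .z .z)) .z .z .z))) .z .z (.n
  (.n .z .z .z (.n (.n .z .z .z (.n (.n .z .z .z (.l .A)) (.l .D) .z .z)) (.n .z .z .z (.n (.l
  .D) .z .z .z)) .z (.n (.l .D) .z .z .z))) (.n .z .z .z (.n (.n .z (.l .C) .z (.n (.l .D) .z .z
  .z)) .z .z .z)) (.n (.n .z .z .z (.n .z (.l .C) .z .z)) .z .z (.n (.n .z (.l .C) .z (.n (.l
  .D) .z .z .z)) .z .z .z)) (.n (.n .z .z .z (.n (.n .z .z .z (.n (.l .D) .z .z .z)) .z .z .z))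
  .z .z (.n (.l .D) .z .z .z)))) (.l .A) (.l .A) (.n (.n (.n .z .z .z (.n (.n .z .z .z (.l .A))
  .z (.l .B) (.n (.l .D) .z .z .z))) .z .z (.n (.n (.n .z .z .z (.l .A)) .z .z (.n (.n .z .z .z
  (.n (.n .z .z .z (.l .A)) .z .z .z)) (.l .D) (.l .D) .z)) (.n .z (.n .z .z .z (.l .B)) .z (.n
  (.l .D) .z .z .z)) (.n .z .z .z (.n (.l .D) (.l .D) .z .z)) (.n (.l .D) .z .z .z))) (.n (.n .z
  .z .z (.n .z (.l .C) .z .z)) .z .z (.n (.n (.n (.n (.n .z .z .z (.l .A)) .z .z .z) .z .z .z)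
  (.l .C) .z (.n (.l .D) .z .z .z)) .z .z .z)) (.n (.n .z .z .z (.n .z (.l .C) .z .z)) .z .z (.n
  (.n (.n (.n (.n .z .z .z (.l .A)) .z .z .z) .z .z .z) (.l .C) .z (.n (.l .D) .z (.l .D) .z))
  (.n .z .z .z (.n (.l .D) .z .z .z)) .z .z)) (.n (.n (.n .z .z .z (.n (.n .z .z .z (.l .A)) (.n
  .z .z .z (.n (.l .D) .z .z .z)) .z (.n (.l .D) .z .z .z))) .z (.n .z .z .z (.n (.n .z .z .z
  (.n (.l .D) .z .z .z)) .z .z .z)) (.n (.n .z .z .z (.n (.n .z .z .z (.n (.l .D) .z .z .z)) .z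
  .z .z)) .z .z (.n (.l .D) .z .z .z))) .z .z (.n (.n .z .z .z (.n (.l .D) .z .z .z)) .z .z
  .z))))

/-- part of the trie of forbidden words -/
def TDAB : Tr :=
  (.n (.n (.n (.n (.n .z .z .z (.n .z .z (.l .B) (.n (.n .z .z .z (.l .A)) .z .z .z))) .z .z .z)
  .z .z (.l .A)) (.l .A) .z (.n .z (.n .z .z .z (.n (.n .z .z .z (.n (.l .D) .z .z .z)) (.n .z
  .z .z (.n (.l .D) .z .z .z)) .z .z)) .z (.n .z .z .z (.n .z .z .z (.n (.n (.n .z .z .z (.n (.n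
  .z .z .z (.l .A)) .z .z .z)) .z .z .z) .z .z .z))))) (.n (.n (.n (.n .z .z .z (.l .A)) .z .z
  .z) (.l .C) .z .z) (.l .C) .z (.n (.n .z (.l .C) .z (.n (.n .z .z .z (.n (.l .D) (.l .D) .z
  (.n (.l .D) .z .z .z))) (.l .C) (.n .z .z .z (.n (.l .D) .z .z .z)) (.n .z .z .z (.n .z .z .z
  (.n (.l .D) .z .z .z))))) (.l .C) .z (.n .z .z .z (.n .z .z .z (.n .z .z .z (.n (.l .D) .z .z
  .z)))))) .z (.n (.n (.n (.n .z .z .z (.l .A)) .z .z (.l .A)) (.n (.n (.n (.n (.n .z .z .z (.l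
  .A)) .z .z .z) .z .z .z) .z .z .z) .z .z (.n (.n .z .z .z (.n (.n (.n .z .z .z (.n (.n .z .z
  .z (.l .A)) .z .z .z)) .z .z .z) .z .z .z)) .z .z .z)) .z (.n (.n .z .z .z (.n (.l .D) (.l .D)
  .z (.n (.l .D) .z .z .z))) (.l .C) .z (.n .z .z .z (.n .z .z .z (.n (.l .D) .z .z .z))))) (.l
  .C) .z (.n .z .z .z (.n .z .z .z (.n .z .z .z (.n (.l .D) .z .z .z))))))

/-- part of the trie of forbidden words -/
def TDAC : Tr :=
  (.n (.n (.n (.n (.n .z .z .z (.n .z .z (.l .B) (.n (.n .z .z .z (.l .A)) .z .z .z))) .z .z (.l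
  .A)) .z .z (.l .A)) (.n (.n (.n .z .z .z (.l .A)) (.l .A) .z .z) (.l .C) .z (.n (.n .z (.l .C)
  .z .z) (.l .C) .z .z)) .z (.n (.n .z .z .z (.n (.n (.n .z .z .z (.l .A)) .z .z .z) (.n .z .z
  .z (.n (.l .D) .z .z .z)) .z .z)) (.n .z .z .z (.n (.n .z .z .z (.n (.l .D) .z (.l .D) .z))
  (.n .z .z .z (.n (.l .D) .z .z .z)) .z .z)) .z (.n .z .z .z (.n .z .z .z (.n (.n (.n .z .z .z
  (.n (.n .z .z .z (.l .A)) .z .z .z)) .z .z .z) .z .z .z))))) (.n (.n (.n (.n .z .z .z (.l .A))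
  .z .z .z) (.l .C) .z .z) (.l .C) .z (.n (.n .z (.l .C) .z (.n (.n .z .z .z (.n (.l .D) (.l .D)
  .z (.n (.l .D) .z .z .z))) (.l .C) .z (.n .z .z .z (.n (.n .z .z (.l .B) .z) .z .z (.n (.l .D)
  .z .z .z))))) (.l .C) .z (.n .z .z .z (.n .z .z .z (.n .z .z .z (.n (.l .D) .z .z .z)))))) .z
  (.n (.n (.n (.n .z .z .z (.l .A)) .z .z (.l .A)) (.n (.n (.n (.n (.n .z .z .z (.l .A)) .z .z
  .z) .z .z .z) .z .z .z) .z .z (.n (.n .z .z .z (.n (.n (.n .z .z .z (.n (.n .z .z .z (.l .A))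
  .z .z .z)) .z .z .z) .z .z .z)) .z .z .z)) .z (.n (.n .z .z .z (.n (.l .D) (.l .D) .z (.n (.l
  .D) .z .z .z))) (.l .C) (.n .z .z .z (.n (.l .D) (.l .D) .z .z)) (.n .z .z .z (.n .z .z .z (.n
  (.l .D) .z .z .z))))) (.n (.n .z .z .z (.n .z (.n (.n .z .z .z (.n .z .z .z (.n .z .z .z (.n
  .z .z .z (.n (.l .D) .z .z .z))))) .z .z .z) .z .z)) .z .z (.n (.n (.n (.n (.n .z .z .z (.l
  .A)) .z .z .z) .z .z .z) .z .z (.n (.l .D) .z (.l .D) .z)) .z .z .z)) .z (.n .z .z .z (.n .z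
  .z .z (.n .z .z .z (.n (.l .D) .z .z .z))))))

/-- part of the trie of forbidden words -/
def TDAD : Tr :=
  (.n (.n (.n (.n (.n .z .z .z (.l .A)) .z .z (.l .A)) .z .z (.n .z .z .z (.n (.n .z .z .z (.n
  (.l .D) .z .z .z)) .z .z .z))) (.n (.n (.n (.n (.n .z .z .z (.l .A)) .z .z .z) .z .z .z) .z .z
  .z) .z .z (.n (.n (.n (.n (.n .z .z .z (.l .A)) .z .z .z) .z .z .z) (.n .z .z .z (.n (.n (.n
  (.n (.n .z .z .z (.l .A)) .z .z .z) .z .z .z) .z .z (.n (.n (.n .z .z .z (.l .A)) .z .z .z) .z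
  .z .z)) .z .z .z)) .z (.n (.n (.n .z .z .z (.l .A)) .z .z .z) .z .z .z)) .z .z .z)) (.n (.n
  (.n (.n (.n .z .z .z (.l .A)) .z .z .z) .z .z .z) .z .z (.n .z (.n .z .z .z (.n (.n (.n (.n
  (.n .z .z .z (.l .A)) .z .z .z) .z .z .z) .z .z .z) .z .z .z)) .z .z)) .z .z (.n (.n (.n (.n
  (.n .z .z .z (.l .A)) .z .z .z) .z .z .z) (.n .z .z .z (.n (.n (.n (.n (.n .z .z .z (.l .A))
  .z .z .z) .z .z .z) .z .z (.n (.n (.n .z .z .z (.l .A)) .z .z .z) .z .z .z)) .z .z .z)) .z (.n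
  (.n (.n .z .z .z (.l .A)) .z .z .z) .z .z .z)) .z .z .z)) (.n (.n (.n .z .z .z (.l .A)) .z .z
  (.n (.n .z .z .z (.n (.n .z .z .z (.n (.l .D) .z .z .z)) .z .z .z)) (.l .D) (.l .D) .z)) (.n
  .z (.n .z .z .z (.l .B)) .z (.n (.l .D) (.l .D) .z .z)) (.n .z (.n .z .z .z (.l .B)) .z (.n
  (.l .D) (.l .D) .z .z)) (.n (.n (.n .z .z .z (.l .A)) .z .z (.n (.n .z .z .z (.n (.l .D) .z .z
  .z)) .z .z .z)) .z .z .z))) (.n (.n .z (.n (.n (.n (.n (.n .z .z .z (.n .z .z (.l .B) .z)) .z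
  .z .z) .z .z .z) .z .z .z) .z .z (.n (.n (.n (.n .z .z .z (.l .A)) .z .z .z) .z .z .z) .z .z
  .z)) .z (.n (.n .z .z .z (.n .z (.n .z (.n .z .z .z (.l .B)) .z .z) .z .z)) (.n (.n .z .z .z
  (.n .z .z .z (.n .z .z .z (.n .z .z .z (.n (.l .D) .z .z .z))))) .z .z .z) .z .z)) (.n .z .z
  .z (.n (.n .z .z (.n .z .z .z (.n (.n .z .z .z (.n (.n (.n .z .z .z (.l .A)) .z .z .z) .z .z
  .z)) .z .z .z)) .z) .z .z .z)) .z (.n (.n (.n (.n (.n .z .z .z (.l .A)) .z .z .z) .z .z .z) .z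
  .z (.n (.l .D) .z (.l .D) .z)) (.n .z .z .z (.n (.l .D) .z .z .z)) .z .z)) (.n (.n .z (.n (.n
  (.n (.n (.n .z .z .z (.n .z .z (.l .B) .z)) .z .z .z) .z .z .z) .z .z .z) .z .z (.n (.n (.n
  (.n .z .z .z (.l .A)) .z .z .z) .z .z .z) .z .z .z)) .z (.n (.n .z .z .z (.n .z (.n .z (.n .z
  .z .z (.l .B)) .z .z) .z .z)) (.n (.n .z (.n (.n (.n (.n (.n .z .z .z (.n .z .z (.l .B) .z))
  .z .z .z) .z .z .z) .z .z .z) .z .z (.n (.n (.n (.n .z .z .z (.l .A)) .z .z .z) .z .z .z) .z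
  .z .z)) .z (.n .z .z .z (.n .z .z .z (.n .z .z .z (.n (.l .D) .z .z .z))))) .z .z .z) .z .z))
  (.n (.n .z .z .z (.n (.n (.n (.n .z .z .z (.l .A)) .z .z .z) .z .z .z) .z .z .z)) .z .z (.n
  (.n .z .z (.n .z .z .z (.n (.n .z .z .z (.n (.n (.n .z .z .z (.l .A)) .z .z .z) .z .z .z)) .z
  .z .z)) .z) .z .z .z)) .z (.n (.n (.n (.n (.n .z .z .z (.l .A)) .z .z .z) .z .z .z) .z .z (.n
  (.l .D) .z (.l .D) .z)) (.n .z .z .z (.n (.l .D) .z (.l .D) .z)) .z (.n .z .z .z (.n .z .z .z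
  (.n (.n (.n .z .z .z (.l .A)) .z .z .z) .z .z .z))))) (.n (.n (.n (.n .z .z .z (.l .A)) .z .z
  (.n (.n .z .z .z (.n (.n .z .z .z (.l .A)) (.l .D) .z .z)) (.n .z .z .z (.n (.l .D) .z .z .z))
  .z (.n (.l .D) .z .z .z))) (.n (.n .z .z .z (.n .z (.l .C) .z .z)) .z .z (.n (.n .z .z .z (.n
  (.l .D) .z .z .z)) .z .z .z)) (.n (.n .z .z .z (.n .z (.l .C) .z .z)) (.n .z .z .z (.l .B)) .z
  (.n (.n (.n (.n (.n .z .z .z (.l .A)) .z .z .z) .z .z .z) .z .z (.n (.l .D) .z .z .z)) .z .z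
  .z)) (.n (.n .z .z .z (.n (.n .z .z .z (.n (.l .D) .z .z .z)) .z .z .z)) .z .z (.n (.l .D) .z
  .z .z))) .z .z (.n (.n .z .z (.n (.n .z .z .z (.n .z .z .z (.n .z .z .z (.n .z .z .z (.n (.l
  .D) .z .z .z))))) .z .z .z) (.n (.n .z .z .z (.n (.l .D) .z .z .z)) .z .z .z)) .z .z (.n (.n
  (.n .z .z .z (.n (.n .z .z .z (.l .A)) .z .z .z)) .z .z (.n (.l .D) .z .z .z)) .z .z .z))))

/-- part of the trie of forbidden words -/
def TDBA : Tr :=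
  (.n (.n (.n (.n (.n .z .z .z (.n .z .z (.l .B) (.n (.l .D) .z .z .z))) .z .z (.l .A)) .z .z
  (.l .A)) (.l .A) (.l .A) (.l .A)) (.n (.n (.n (.n (.n .z .z .z (.n .z .z .z (.n (.n .z .z .z
  (.l .A)) .z .z .z))) .z .z .z) .z .z (.l .A)) (.l .A) .z (.n .z (.l .C) .z .z)) (.l .C) .z (.n
  (.n (.n (.n .z .z .z (.n .z .z .z (.n (.l .D) .z .z .z))) .z .z (.l .A)) (.l .C) .z (.n (.n .z
  .z .z (.n (.l .D) (.l .D) .z (.n (.l .D) .z .z .z))) (.l .C) .z (.n .z .z .z (.n .z .z .z (.n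
  (.l .D) .z .z .z))))) (.l .C) .z .z)) (.n (.n (.n (.n (.n .z .z .z (.n .z .z .z (.n (.n .z .z
  .z (.l .A)) .z .z .z))) .z .z (.l .A)) .z .z (.l .A)) (.l .A) .z (.n (.n .z .z .z (.n (.n (.n
  .z .z .z (.l .A)) .z .z .z) .z .z .z)) .z .z (.n .z .z .z (.n .z .z .z (.n (.n (.n .z .z .z
  (.n (.n .z .z .z (.l .A)) .z .z .z)) .z .z .z) .z .z .z))))) (.l .C) .z (.n (.n (.n (.n .z .z
  .z (.n .z .z .z (.n (.l .D) .z .z .z))) .z .z (.l .A)) (.l .C) .z (.n (.n .z .z .z (.n (.l .D)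
  (.l .D) .z (.n (.l .D) .z .z .z))) (.l .C) (.n .z .z .z (.n (.l .D) .z .z .z)) (.n .z .z .z
  (.n .z .z .z (.n (.l .D) .z .z .z))))) (.l .C) .z (.n .z .z .z (.n .z .z .z (.n .z .z .z (.n
  (.l .D) .z .z .z)))))) (.n (.n (.n (.n .z .z .z (.l .A)) .z .z (.l .A)) .z .z (.n (.n (.n .z
  .z .z (.l .A)) .z .z (.n (.l .D) (.l .D) .z .z)) (.n .z .z .z (.n (.l .D) (.l .D) .z .z)) .z
  (.n (.n (.n .z .z .z (.l .A)) .z .z (.n (.n .z .z .z (.n (.l .D) .z .z .z)) .z .z .z)) .z .z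
  .z))) (.n (.n .z .z .z (.n .z (.n (.n .z .z .z (.n .z .z .z (.n .z .z .z (.n .z .z .z (.n (.l
  .D) .z .z .z))))) .z .z .z) .z .z)) .z .z (.n (.n (.n (.n (.n .z .z .z (.l .A)) .z .z .z) .z
  .z .z) .z .z (.n (.l .D) .z (.l .D) .z)) (.n .z .z .z (.n (.l .D) .z .z .z)) .z .z)) (.n (.n
  .z .z .z (.n .z (.n (.n .z .z .z (.n .z .z .z (.n .z .z .z (.n .z .z .z (.n (.l .D) .z .z
  .z))))) .z .z .z) .z .z)) .z .z (.n (.n (.n (.n (.n .z .z .z (.l .A)) .z .z .z) .z .z .z) .z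
  .z (.n (.l .D) .z (.l .D) .z)) .z .z .z)) (.n (.n (.n .z .z .z (.l .A)) (.n .z .z .z (.n (.n
  .z .z .z (.n (.l .D) .z .z .z)) .z .z .z)) .z (.n (.n .z .z .z (.n (.l .D) .z .z .z)) .z .z
  .z)) .z .z (.n (.n .z .z (.n (.n .z .z .z (.n .z .z .z (.n .z .z .z (.n .z .z .z (.n (.l .D)
  .z .z .z))))) .z .z .z) (.n (.l .D) .z .z .z)) .z .z (.n (.n (.n .z .z .z (.l .A)) .z .z (.n
  (.l .D) .z .z .z)) .z .z .z)))))

/-- part of the trie of forbidden words -/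
def TDBB : Tr :=
  (.n (.n (.n (.n .z .z .z (.l .A)) (.l .A) .z .z) (.l .C) .z (.n (.n (.n .z .z .z (.l .A)) .z
  .z .z) (.l .C) .z .z)) (.l .C) (.l .B) (.n (.n .z (.l .C) (.n (.n (.n (.n (.n .z .z .z (.l
  .A)) .z .z .z) .z .z .z) .z .z (.n .z .z .z (.n .z .z .z (.n .z .z .z (.n (.n (.n .z .z .z (.l
  .A)) .z .z .z) .z .z .z))))) .z .z (.n (.n .z .z .z (.n (.n (.n .z .z .z (.n (.n .z .z .z (.l
  .A)) .z .z .z)) .z .z .z) .z .z .z)) .z .z .z)) (.n (.n .z .z .z (.n (.l .D) (.l .D) .z (.n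
  (.l .D) .z .z .z))) (.n .z .z .z (.n (.l .D) (.l .D) .z .z)) (.n .z .z .z (.n (.l .D) .z .z
  .z)) (.n .z .z .z (.n (.l .D) .z .z (.n (.l .D) .z .z .z))))) (.l .C) (.n (.n (.n (.n (.n (.n
  .z .z .z (.l .A)) .z .z .z) .z .z .z) .z .z .z) .z .z .z) .z .z (.n (.n .z .z .z (.n (.l .D)
  (.l .D) .z .z)) .z (.n .z .z .z (.n (.l .D) .z (.l .D) .z)) (.n .z .z .z (.n (.l .D) .z .z
  .z)))) (.n .z .z .z (.n (.n .z (.l .C) .z (.n (.l .D) .z .z .z)) .z .z (.n .z .z .z (.n (.l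
  .D) .z .z .z))))))

/-- part of the trie of forbidden words -/
def TDBC : Tr :=
  (.n (.n (.n (.n .z .z .z (.l .A)) (.l .A) .z .z) (.l .C) .z (.n (.n (.n .z .z .z (.l .A)) .z
  .z (.n (.n .z .z .z (.n (.l .D) (.l .D) .z .z)) .z .z .z)) (.l .C) .z .z)) (.l .C) (.n .z (.l
  .C) (.n .z (.l .C) (.n .z (.l .C) (.n .z (.l .C) .z .z) .z) .z) (.l .C)) (.n (.n .z (.l .C)
  (.n (.n (.n (.n (.n .z .z .z (.l .A)) .z .z .z) .z .z .z) .z .z (.n .z .z .z (.n .z .z .z (.n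
  .z .z .z (.n (.n (.n .z .z .z (.l .A)) .z .z .z) .z .z .z))))) .z .z (.n (.n .z .z .z (.n (.n
  (.n .z .z .z (.n (.n .z .z .z (.l .A)) .z .z .z)) .z .z .z) .z .z .z)) .z .z .z)) (.n (.n .z
  .z .z (.n (.l .D) (.l .D) .z (.n (.l .D) .z .z .z))) (.n .z .z .z (.n (.l .D) (.l .D) .z .z))
  .z (.n .z .z .z (.n (.l .D) .z .z (.n (.l .D) .z .z .z))))) (.l .C) (.n (.n (.n (.n (.n (.n .z
  .z .z (.l .A)) .z .z .z) .z .z .z) .z .z .z) .z .z (.n (.n .z .z .z (.n (.n (.n .z .z .z (.n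
  (.n .z .z .z (.l .A)) .z .z .z)) .z .z .z) .z .z .z)) .z .z .z)) .z .z (.n (.n .z .z (.n .z .z
  .z (.l .B)) (.n (.l .D) .z .z .z)) .z (.n .z .z .z (.n (.l .D) .z (.l .D) .z)) (.n .z .z .z
  (.n (.l .D) .z .z .z)))) (.n .z .z .z (.n (.n .z (.l .C) .z (.n (.l .D) .z .z .z)) .z .z (.n
  .z .z .z (.n (.l .D) .z .z .z))))))

/-- part of the trie of forbidden words -/
def TDBD : Tr :=
  (.n (.n (.n (.n (.n .z .z .z (.n (.n .z .z .z (.l .A)) .z .z (.n (.n .z .z .z (.n (.l .D) .z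
  .z .z)) .z .z .z))) .z .z (.l .A)) .z .z (.l .A)) (.n (.n (.n (.n (.n .z .z .z (.l .A)) .z .z
  .z) .z .z .z) .z .z .z) .z .z (.n (.n .z .z .z (.n (.n (.n .z .z .z (.l .A)) .z .z .z) .z .z
  .z)) .z .z .z)) (.n (.n (.n (.n (.n .z .z .z (.l .A)) .z .z .z) .z .z .z) .z .z (.n .z .z .z
  (.n .z .z .z (.n .z .z .z (.n (.n (.n .z .z .z (.l .A)) .z .z .z) .z .z .z))))) .z .z (.n (.n
  .z .z .z (.n (.n (.n .z .z .z (.l .A)) .z .z .z) .z .z .z)) .z .z .z)) (.n (.n (.n .z .z .z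
  (.l .A)) .z .z (.n (.l .D) (.l .D) .z (.n (.n .z .z .z (.n (.l .D) .z .z .z)) .z .z .z))) (.n
  .z (.n .z .z .z (.l .B)) .z (.n (.l .D) (.l .D) .z .z)) (.n .z .z .z (.n (.l .D) (.l .D) .z
  .z)) (.n (.l .D) .z .z (.n (.l .D) .z .z (.n (.l .D) .z .z .z))))) (.n (.n (.n (.n (.n (.n .z
  .z .z (.l .A)) .z .z .z) .z .z .z) .z .z .z) .z .z (.n .z (.n (.n .z .z .z (.n .z .z .z (.n .z
  .z .z (.n .z .z .z (.n (.l .D) .z .z .z))))) .z .z .z) .z (.n (.n .z .z .z (.n (.l .D) .z .z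
  (.n (.l .D) .z .z .z))) .z .z .z))) .z (.n (.n (.n (.n (.n (.n .z .z .z (.n .z .z (.l .B) .z))
  .z .z .z) .z .z .z) .z .z .z) .z .z (.n (.n (.n (.n .z .z .z (.l .A)) .z .z .z) .z .z .z) .z
  .z .z)) .z .z .z) (.n (.n (.n (.n (.n .z .z .z (.l .A)) .z .z .z) .z .z .z) .z .z (.n (.l .D)
  (.l .D) (.l .D) .z)) .z (.n .z .z .z (.n (.l .D) .z (.l .D) .z)) (.n .z .z .z (.n (.l .D) .z
  .z (.n (.n (.n .z .z .z (.l .A)) (.n .z (.n .z .z .z (.l .B)) .z .z) .z .z) .z .z .z))))) (.n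
  (.n (.n (.n (.n (.n .z .z .z (.l .A)) .z .z .z) .z .z .z) .z .z .z) .z .z (.n (.n (.n (.n (.n
  .z .z .z (.l .A)) .z .z .z) .z .z .z) .z .z (.n (.n (.n .z .z .z (.l .A)) .z .z .z) .z .z .z))
  .z .z (.n (.n (.n (.n .z .z .z (.l .A)) .z .z .z) .z .z (.n (.l .D) .z .z (.n (.l .D) .z .z
  .z))) .z .z (.n (.n (.n .z .z .z (.l .A)) .z .z .z) .z .z .z)))) .z (.n (.n (.n (.n (.n (.n .z
  .z .z (.n .z .z (.l .B) .z)) .z .z .z) .z .z .z) .z .z .z) .z .z (.n (.n (.n (.n .z .z .z (.l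
  .A)) .z .z .z) .z .z .z) .z .z .z)) .z .z (.l .C)) (.n (.n (.n (.n (.n .z .z .z (.l .A)) .z .z
  .z) .z .z .z) .z .z (.n (.l .D) (.l .D) (.l .D) .z)) .z (.n .z .z .z (.n (.l .D) .z (.l .D)
  .z)) (.n (.n .z .z .z (.n (.n (.n .z .z .z (.l .A)) .z .z (.n .z .z .z (.n (.l .D) .z .z .z)))
  .z .z (.n (.n (.n .z .z .z (.n (.n .z .z .z (.l .A)) .z .z .z)) .z .z .z) .z .z .z))) .z .z
  (.n (.l .D) .z .z (.n (.n (.n .z .z .z (.l .A)) (.n .z (.n .z .z .z (.l .B)) .z .z) .z .z) .z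
  .z .z))))) (.n (.n (.n (.n .z .z .z (.l .A)) .z .z (.l .A)) (.n .z (.n .z .z .z (.l .B)) .z
  (.n (.n (.n (.n (.n .z .z .z (.l .A)) .z .z .z) .z .z .z) .z .z (.n (.l .D) .z .z .z)) .z .z
  .z)) .z (.n (.n (.n .z .z .z (.n (.n .z .z .z (.n (.n .z .z .z (.n (.l .D) .z .z .z)) (.l .D)
  .z .z)) (.n .z .z .z (.n (.l .D) .z .z .z)) .z (.n (.l .D) .z .z .z))) .z .z (.n (.l .D) .z .z
  .z)) .z .z (.n (.n .z .z .z (.n (.l .D) .z .z .z)) .z .z .z))) .z .z (.n (.n (.n .z .z .z (.l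
  .A)) .z (.n (.n .z .z .z (.n (.n .z .z .z (.n .z (.n .z (.n .z .z .z (.l .B)) .z .z) .z .z))
  .z .z (.n .z .z .z (.n .z .z .z (.n (.l .D) .z .z .z))))) .z .z .z) (.n (.l .D) .z .z .z)) .z
  .z (.n (.n (.n .z .z .z (.n (.l .D) .z .z .z)) .z .z (.n (.l .D) .z .z .z)) .z .z (.n (.l .D)
  .z .z .z)))))

/-- part of the trie of forbidden words -/
def TDCA : Tr :=
  (.n (.n (.n (.n (.n .z .z .z (.n .z .z (.l .B) (.n (.l .D) .z .z .z))) .z .z (.l .A)) .z .z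
  (.l .A)) (.l .A) .z (.l .A)) (.n (.n (.n (.n (.n .z .z .z (.n .z .z .z (.n (.n .z .z .z (.l
  .A)) .z .z .z))) .z .z .z) .z .z (.l .A)) (.l .A) .z (.n .z (.l .C) .z (.n .z .z .z (.n .z .z
  .z (.n (.n (.n .z .z .z (.n (.n .z .z .z (.l .A)) .z .z .z)) .z .z .z) .z .z .z))))) (.l .C)
  .z (.n (.n (.n (.n .z .z .z (.n .z .z .z (.n (.l .D) .z .z .z))) .z .z (.l .A)) (.l .C) .z (.n
  (.n .z .z .z (.n (.l .D) (.l .D) .z (.n (.l .D) .z .z .z))) (.l .C) .z (.n .z .z .z (.n .z .z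
  .z (.n (.l .D) .z .z .z))))) (.l .C) .z (.n .z .z .z (.n .z .z .z (.n .z .z .z (.n (.l .D) .z
  .z .z)))))) (.n (.n (.n (.n (.n .z .z .z (.n .z .z .z (.n (.n .z .z .z (.l .A)) .z .z .z))) .z
  .z (.l .A)) .z .z (.l .A)) (.l .C) .z (.n (.n .z .z .z (.n (.n (.n .z .z .z (.l .A)) .z .z .z)
  .z .z .z)) .z .z (.n .z .z .z (.n .z .z .z (.n (.n (.n .z .z .z (.n (.l .D) .z .z .z)) .z .z
  .z) .z .z .z))))) (.l .C) .z (.n (.n (.n (.n .z .z .z (.n .z .z .z (.n (.l .D) .z .z .z))) .z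
  .z (.l .A)) (.l .C) .z (.n (.n .z .z .z (.n (.l .D) (.l .D) .z (.n (.l .D) .z .z .z))) (.l .C)
  (.n .z .z .z (.n (.l .D) .z .z .z)) (.n .z .z .z (.n .z .z .z (.n (.l .D) .z .z .z))))) (.l
  .C) .z (.n .z .z .z (.n .z .z .z (.n .z .z .z (.n (.l .D) .z .z .z)))))) (.n (.n (.n (.n .z .z
  .z (.l .A)) .z .z (.l .A)) (.n (.n (.n (.n (.n .z .z .z (.l .A)) .z .z .z) .z .z .z) .z .z .z)
  .z .z (.n (.n .z .z .z (.n (.n (.n .z .z .z (.n (.n .z .z .z (.l .A)) .z .z .z)) .z .z .z) .z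
  .z .z)) .z .z .z)) .z (.n (.n .z .z .z (.n (.l .D) (.l .D) .z .z)) (.n .z .z .z (.n (.l .D)
  (.l .D) .z .z)) .z (.n (.n (.n .z .z .z (.l .A)) .z .z (.n (.n .z .z .z (.n (.l .D) .z .z .z))
  .z .z .z)) .z .z .z))) (.n (.n .z .z .z (.n .z (.n (.n .z .z .z (.n .z .z .z (.n .z .z .z (.n
  .z .z .z (.n (.l .D) .z .z .z))))) .z .z .z) .z .z)) .z .z (.n (.n (.n (.n (.n .z .z .z (.l
  .A)) .z .z .z) .z .z .z) .z .z (.n (.l .D) .z (.l .D) .z)) (.n .z .z .z (.n (.l .D) .z .z .z))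
  .z .z)) .z (.n (.n (.n (.n .z .z .z (.n .z .z (.l .B) (.n (.l .D) .z .z .z))) .z .z (.l .A))
  (.n .z .z .z (.n (.n .z .z .z (.n (.l .D) .z .z .z)) .z .z .z)) .z (.n (.n .z .z .z (.n (.l
  .D) .z .z .z)) .z .z .z)) .z .z (.n (.n (.n .z .z .z (.n (.n .z .z .z (.l .A)) .z .z .z)) .z
  (.n (.n .z .z .z (.n .z .z .z (.n .z .z .z (.n .z .z .z (.n (.l .D) .z .z .z))))) .z .z .z)
  (.n (.l .D) .z .z .z)) .z .z (.n (.n (.n .z .z .z (.l .A)) .z .z (.n (.l .D) .z .z .z)) .z .z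
  .z)))))

/-- part of the trie of forbidden words -/
def TDCB : Tr :=
  (.n (.n (.n (.n .z .z .z (.l .A)) (.l .A) .z .z) (.l .C) .z (.n (.n (.n .z .z .z (.l .A)) .z
  .z (.n (.n .z .z .z (.n (.l .D) (.l .D) .z .z)) .z .z .z)) (.l .C) .z .z)) (.l .C) (.n (.l .C)
  (.l .C) (.n .z (.l .C) (.n .z (.l .C) (.n .z (.l .C) .z .z) .z) .z) (.l .C)) (.n (.n .z (.l
  .C) (.n (.n (.n (.n (.n .z .z .z (.l .A)) .z .z .z) .z .z .z) .z .z (.n .z .z .z (.n .z .z .z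
  (.n .z .z .z (.n (.n (.n .z .z .z (.l .A)) .z .z .z) .z .z .z))))) .z .z (.n (.n .z .z .z (.n
  (.n (.n .z .z .z (.n (.n .z .z .z (.l .A)) .z .z .z)) .z .z .z) .z .z .z)) .z .z .z)) (.n (.n
  .z .z .z (.n (.l .D) (.l .D) .z (.n (.l .D) .z .z .z))) (.n .z .z .z (.n (.l .D) (.l .D) .z
  .z)) .z (.n .z .z .z (.n (.l .D) .z .z (.n (.l .D) .z .z .z))))) (.l .C) (.n (.n (.n (.n (.n
  (.n .z .z .z (.l .A)) .z .z .z) .z .z .z) .z .z .z) .z .z (.n (.n .z .z .z (.n (.n (.n .z .z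
  .z (.n (.n .z .z .z (.l .A)) .z .z .z)) .z .z .z) .z .z .z)) .z .z .z)) .z .z (.n (.n .z .z
  (.n .z .z .z (.l .B)) (.n (.l .D) .z .z .z)) .z (.n .z .z .z (.n (.l .D) .z (.l .D) .z)) (.n
  .z .z .z (.n (.l .D) .z .z .z)))) (.n .z .z .z (.n (.n .z (.l .C) .z (.n (.l .D) .z .z .z)) .z
  .z (.n .z .z .z (.n (.l .D) .z .z .z))))))

/-- part of the trie of forbidden words -/
def TDCC : Tr :=
  (.n (.n (.n (.n .z .z .z (.l .A)) (.l .A) .z .z) (.l .C) .z (.n (.n (.n .z .z .z (.l .A)) (.l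
  .C) .z (.n (.n .z .z .z (.n (.l .D) (.l .D) .z .z)) .z .z .z)) (.l .C) .z .z)) (.l .C) (.n .z
  (.l .C) (.n .z (.l .C) (.n .z (.l .C) (.n .z (.l .C) .z .z) .z) .z) (.l .C)) (.n (.n .z (.l
  .C) .z (.n (.n .z (.l .C) .z (.n (.l .D) (.l .D) .z (.n (.l .D) .z .z .z))) (.l .C) .z (.n .z
  .z .z (.n (.l .D) .z .z (.n (.l .D) .z .z .z))))) (.l .C) (.n .z .z .z (.n (.n .z .z (.n .z .z
  .z (.l .B)) (.n (.l .D) .z .z .z)) .z (.n .z .z .z (.n (.l .D) .z (.l .D) .z)) (.n .z .z .z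
  (.n (.l .D) .z .z .z)))) (.n .z .z .z (.n (.n .z (.l .C) .z (.n (.l .D) .z .z .z)) .z .z (.n
  .z .z .z (.n (.l .D) .z .z .z))))))

/-- part of the trie of forbidden words -/
def TDCD : Tr :=
  (.n (.n (.n (.n (.n .z .z .z (.n (.n .z .z .z (.l .A)) .z .z .z)) .z .z (.l .A)) .z .z (.l
  .A)) (.n (.n (.n (.n (.n .z .z .z (.l .A)) .z .z .z) .z .z .z) .z .z (.n .z .z .z (.n .z .z .z
  (.n .z .z .z (.n (.n (.n .z .z .z (.l .A)) .z .z .z) .z .z .z))))) .z .z (.n (.n .z .z .z (.n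
  (.n (.n .z .z .z (.l .A)) .z .z .z) .z .z .z)) .z .z .z)) (.n (.n (.n (.n (.n .z .z .z (.l
  .A)) .z .z .z) .z .z .z) .z .z (.n .z .z .z (.n .z .z .z (.n .z .z .z (.n (.n (.n .z .z .z (.l
  .A)) .z .z .z) .z .z .z))))) .z .z (.n (.n .z .z .z (.n (.n (.n .z .z .z (.l .A)) .z .z .z) .z
  .z .z)) .z .z .z)) (.n (.n (.n .z .z .z (.l .A)) .z .z (.n (.l .D) (.l .D) .z (.n (.n .z .z .z
  (.n (.l .D) .z .z .z)) .z .z .z))) (.n .z .z .z (.n (.l .D) (.l .D) .z .z)) (.n .z .z .z (.n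
  (.l .D) (.l .D) .z .z)) (.n (.l .D) .z .z (.n (.l .D) .z .z (.n (.l .D) .z .z .z))))) (.n (.n
  (.n (.n (.n (.n .z .z .z (.l .A)) .z .z .z) .z .z .z) .z .z .z) .z .z (.n .z (.n (.n .z .z .z
  (.n .z .z .z (.n .z .z .z (.n .z .z .z (.n (.l .D) .z .z .z))))) .z .z .z) .z (.n (.n .z .z .z
  (.n (.l .D) .z .z (.n (.l .D) .z .z .z))) .z .z .z))) .z (.n (.l .C) .z .z (.l .C)) (.n (.n
  (.n (.n (.n .z .z .z (.l .A)) .z .z .z) .z .z .z) .z .z (.n (.l .D) (.l .D) (.l .D) .z)) .z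
  (.n .z .z .z (.n (.l .D) .z (.l .D) .z)) (.n (.n .z .z .z (.n (.n (.n .z .z .z (.l .A)) .z .z
  (.n .z .z .z (.n (.l .D) .z .z .z))) .z .z (.n (.n (.n .z .z .z (.n (.n .z .z .z (.l .A)) .z
  .z .z)) .z .z .z) .z .z .z))) .z .z (.n (.l .D) .z .z (.n (.n (.n .z .z .z (.l .A)) (.n .z (.n
  .z .z .z (.l .B)) .z .z) .z .z) .z .z .z))))) (.n (.n (.n (.n (.n (.n .z .z .z (.l .A)) .z .z
  .z) .z .z .z) .z .z .z) .z .z (.n (.n (.n (.n (.n .z .z .z (.l .A)) .z .z .z) .z .z .z) (.n .z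
  .z .z (.n (.n (.n (.n (.n .z .z .z (.l .A)) .z .z .z) .z .z .z) .z .z (.n (.n (.n .z .z .z (.l
  .A)) .z .z .z) .z .z .z)) .z .z .z)) .z (.n (.n (.n .z .z .z (.l .A)) .z .z .z) .z .z .z)) .z
  .z (.n (.n (.n (.n .z .z .z (.l .A)) .z .z .z) .z .z (.n (.l .D) .z .z (.n (.l .D) .z .z .z)))
  .z .z (.n (.n (.n .z .z .z (.l .A)) .z .z .z) .z .z .z)))) .z (.n (.n (.n (.n (.n (.n .z .z .z
  (.n .z .z (.l .B) .z)) .z .z .z) .z .z .z) .z .z .z) .z .z (.n (.n (.n (.n .z .z .z (.l .A))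
  .z .z .z) .z .z .z) .z .z .z)) .z .z (.l .C)) (.n (.n (.n (.n (.n .z .z .z (.l .A)) .z .z .z)
  .z .z .z) .z .z (.n (.l .D) (.l .D) (.l .D) .z)) .z (.n .z .z .z (.n (.l .D) .z (.l .D) .z))
  (.n (.n .z .z .z (.n (.n (.n .z .z .z (.l .A)) .z .z (.n .z .z .z (.n (.l .D) .z .z .z))) .z
  .z (.n (.n (.n .z .z .z (.n (.n .z .z .z (.l .A)) .z .z .z)) .z .z .z) .z .z .z))) .z .z (.n
  (.l .D) .z .z (.n (.n (.n .z .z .z (.l .A)) (.n .z (.n .z .z .z (.l .B)) .z .z) .z .z) .z .z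
  .z))))) (.n (.n (.n (.n .z .z .z (.l .A)) .z .z (.l .A)) (.n .z .z .z (.n (.n (.n (.n (.n .z
  .z .z (.l .A)) .z .z .z) .z .z .z) .z .z (.n (.l .D) .z .z .z)) .z .z .z)) .z (.n (.n (.n .z
  .z .z (.n (.n .z .z .z (.n (.n .z .z .z (.n (.l .D) .z .z .z)) (.l .D) .z .z)) (.n .z .z .z
  (.n (.l .D) .z .z .z)) .z (.n (.l .D) .z .z .z))) (.n .z .z .z (.n (.n .z .z .z (.n (.l .D) .z
  .z .z)) .z .z .z)) .z (.n (.l .D) .z .z .z)) .z .z (.n (.n .z .z .z (.n (.l .D) .z .z .z)) .z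
  .z .z))) .z .z (.n (.n (.n .z .z .z (.l .A)) (.n (.n .z .z .z (.n .z .z .z (.n .z .z .z (.n .z
  .z .z (.n (.l .D) .z .z .z))))) .z .z .z) (.n (.n .z (.n (.n (.n (.n (.n .z .z .z (.n .z .z
  (.l .B) .z)) .z .z .z) .z .z .z) .z .z .z) .z .z (.n (.n (.n (.n .z .z .z (.l .A)) .z .z .z)
  .z .z .z) .z .z .z)) .z (.n .z .z .z (.n .z .z .z (.n .z .z .z (.n (.l .D) .z .z .z))))) .z .z
  .z) (.n (.l .D) .z .z .z)) .z .z (.n (.n (.n .z .z .z (.n (.n .z .z .z (.l .A)) .z .z .z)) .z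
  .z (.n (.l .D) .z .z .z)) .z .z (.n (.l .D) .z .z .z)))))

/-- part of the trie of forbidden words -/
def TDDA : Tr :=
  (.n (.n (.n (.n .z .z .z (.l .A)) .z .z (.n (.n .z .z .z (.n (.n .z .z .z (.l .A)) .z .z .z))
  .z (.n .z (.n .z .z .z (.l .B)) .z (.n (.n (.n (.n (.n .z .z .z (.l .A)) .z .z .z) .z .z .z)
  .z .z .z) .z .z .z)) (.n (.n .z .z .z (.n (.l .D) .z .z .z)) .z .z .z))) .z .z (.n (.n .z .z
  .z (.n (.n .z .z .z (.n (.n .z .z .z (.n (.l .D) .z .z .z)) .z .z .z)) .z (.n .z (.n .z .z .z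
  (.l .B)) .z .z) .z)) (.n .z (.n (.l .B) .z .z .z) .z .z) (.n (.n .z .z .z (.n (.n .z .z .z (.n
  .z (.n .z (.n .z .z .z (.l .B)) .z .z) .z .z)) .z .z (.n .z .z .z (.n .z .z .z (.n (.l .D) .z
  .z .z))))) (.n (.l .B) .z .z .z) .z .z) (.n (.n .z .z (.n (.n .z .z .z (.n .z (.l .C) .z .z))
  .z .z .z) .z) .z .z (.n (.l .D) .z .z .z)))) (.n (.n (.n (.n (.n .z .z .z (.l .A)) .z .z .z)
  .z .z .z) .z .z (.n .z (.n .z .z .z (.n (.n (.n (.n (.n .z .z .z (.l .A)) .z .z .z) .z .z .z)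
  .z .z .z) .z .z .z)) .z (.n .z .z .z (.n .z .z .z (.n (.n (.n .z .z .z (.l .A)) .z .z .z) .z
  .z .z))))) .z .z (.n (.n .z (.l .C) .z (.n (.n (.n .z .z .z (.l .A)) .z .z .z) .z .z .z)) .z
  .z .z)) (.n (.n (.n (.n (.n .z .z .z (.l .A)) .z .z .z) .z .z .z) (.n .z .z .z (.n (.n (.n .z
  .z .z (.l .A)) .z .z (.n (.n .z .z .z (.n (.l .D) (.l .D) .z .z)) .z .z .z)) .z .z .z)) .z (.n
  .z (.n .z .z .z (.n (.n (.n (.n (.n .z .z .z (.l .A)) .z .z .z) .z .z .z) .z .z .z) .z .z .z))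
  .z (.n .z .z .z (.n .z .z .z (.n (.n (.n .z .z .z (.l .A)) .z .z .z) .z .z .z))))) (.n (.n .z
  .z .z (.n (.n (.n .z .z .z (.l .A)) .z .z .z) .z .z .z)) .z .z (.n (.n .z .z .z (.n .z .z .z
  (.n .z .z .z (.n (.l .D) .z .z .z)))) .z .z .z)) .z (.n (.n .z (.l .C) .z (.n (.n (.n .z .z .z
  (.l .A)) .z .z .z) .z .z .z)) (.n .z .z .z (.n .z .z .z (.n .z .z .z (.n .z .z .z (.n (.n (.n
  .z .z .z (.l .A)) .z .z .z) .z .z .z))))) .z .z)) (.n (.n (.n .z .z .z (.n .z .z (.l .B) .z))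
  (.n .z .z .z (.n (.n .z (.l .C) .z .z) .z .z .z)) (.n .z .z .z (.n (.n .z (.l .C) .z .z) .z .z
  .z)) (.n (.n .z .z (.l .B) (.n (.n .z .z .z (.n (.n .z .z .z (.l .A)) .z .z .z)) .z .z .z))
  (.l .D) (.l .B) (.n (.n .z .z (.l .B) (.n (.l .D) .z .z .z)) .z .z .z))) (.l .D) (.l .D) (.n
  (.n .z .z (.l .B) (.n (.n .z .z .z (.n (.l .D) .z .z .z)) .z .z .z)) .z .z (.n (.l .D) .z .z
  (.n (.l .D) .z .z .z)))))

/-- part of the trie of forbidden words -/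
def TDDD : Tr :=
  (.n (.n (.n (.n .z .z .z (.n (.n .z .z .z (.l .A)) .z (.l .B) (.n (.l .D) .z .z .z))) .z .z
  (.n (.n (.n .z .z .z (.l .A)) .z .z (.n (.n .z .z .z (.n (.n .z .z .z (.l .A)) .z .z .z)) (.l
  .D) (.l .D) .z)) (.n .z (.n .z .z .z (.l .B)) .z (.n (.l .D) .z .z .z)) (.n .z .z .z (.n (.l
  .D) (.l .D) .z .z)) (.n (.l .D) .z .z .z))) (.n (.n .z .z .z (.n .z (.l .C) .z .z)) .z .z (.n
  (.n (.n (.n (.n .z .z .z (.l .A)) .z .z .z) .z .z .z) .z .z (.n (.l .D) .z .z .z)) .z .z .z))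
  (.n (.n .z .z .z (.n .z (.l .C) .z .z)) .z .z (.n (.n (.n (.n (.n .z .z .z (.l .A)) .z .z .z)
  .z .z .z) .z .z (.n (.l .D) .z (.l .D) .z)) (.n .z .z .z (.n (.l .D) .z .z .z)) .z .z)) (.n
  (.n (.n .z .z .z (.n (.n .z .z .z (.l .A)) (.n .z .z .z (.n (.l .D) .z .z .z)) .z (.n (.l .D)
  .z .z .z))) (.n .z .z .z (.n (.n .z .z .z (.n (.l .D) .z .z .z)) .z .z .z)) (.n (.n .z .z .z
  (.n .z (.l .C) .z .z)) .z .z (.n (.n .z .z .z (.n (.l .D) .z .z .z)) .z .z .z)) (.n (.n .z .z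
  .z (.n (.n .z .z .z (.n (.l .D) .z .z .z)) .z .z .z)) .z .z (.n (.l .D) .z .z .z))) .z .z (.n
  (.l .D) .z .z .z))) .z .z (.n (.n (.n (.n .z .z .z (.l .A)) .z .z (.n .z (.l .D) (.l .D) .z))
  (.n (.n .z .z .z (.n .z .z .z (.n .z .z .z (.n .z .z .z (.n (.l .D) .z .z .z))))) (.n (.l .B)
  .z .z .z) .z (.n (.l .D) .z .z .z)) (.n (.n .z (.n (.n (.n (.n (.n .z .z .z (.n .z .z (.l .B)
  .z)) .z .z .z) .z .z .z) .z .z .z) .z .z (.n (.n (.n (.n .z .z .z (.l .A)) .z .z .z) .z .z .z)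
  .z .z .z)) .z (.n (.n .z .z .z (.n .z (.n .z (.n .z .z .z (.l .B)) .z .z) .z .z)) .z .z (.n .z
  .z .z (.n .z .z .z (.n (.l .D) .z .z .z))))) (.n (.l .B) .z .z .z) .z (.n (.l .D) (.l .D) .z
  .z)) .z) .z .z (.n (.n (.n .z .z .z (.n (.n .z .z .z (.n (.n .z .z .z (.l .A)) .z .z .z)) .z
  .z .z)) (.n .z (.n .z .z .z (.l .B)) .z .z) (.n .z (.n .z .z .z (.l .B)) .z .z) (.n (.l .D) .z
  .z .z)) .z .z (.n (.l .D) .z .z .z))))

/-- the trie of forbidden words -/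
def TT : Tr :=
  (.n (.n (.n TAAA TAAB TAAC TAAD) (.n TABA TABB (.l .B) TABD) (.n TACA TACB (.l .B) TACD) (.n
  TADA TADB TADC TADD)) (.n (.n TBAA TBAB TBAC TBAD) (.n TBBA TBBB TBBC TBBD) (.n TBCA TBCB TBCC
  TBCD) (.n TBDA TBDB TBDC TBDD)) (.n (.n TCAA TCAB TCAC TCAD) (.n TCBA TCBB TCBC TCBD) (.n TCCA
  TCCB TCCC TCCD) (.n TCDA TCDB TCDC TCDD)) (.n (.n TDAA TDAB TDAC TDAD) (.n TDBA TDBB TDBC
  TDBD) (.n TDCA TDCB TDCC TDCD) (.n TDDA (.l .D) (.l .D) TDDD)))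

end Pool.T6H46.UA
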