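import Pool.Agent.T6.H46.UA.Basic
import Pool.Agent.T6.H46.UA.Check

/-! Soundness of the finite checks. -/

open Filter Topology

namespace Pool.T6H46.UA

/-- the vertices -/
noncomputable def quad : Fin 4 → E 2 :=
  ![!₂[0, 0], !₂[8875, 0], !₂[9996, 4], !₂[0, 10000]]

/-- symbols as elements of `Fin 4` -/
def ix : Dg → Fin 4
  | .A => 0
  | .B => 1
  | .C => 2
  | .D => 3

/-- elements of `Fin 4` as symbols -/
def dg : Fin 4 → Dg
  | 0 => .A
  | 1 => .B
  | 2 => .C
  | 3 => .D

theorem ix_dg (i : Fin 4) : ix (dg i) = i := by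
  fin_cases i <;> rfl

theorem ne_ix {i j : Dg} (h : ne i j = true) : ix i ≠ ix j := by
  cases i <;> cases j <;> simp [ne, ix] at h ⊢

theorem ne_dg {i j : Fin 4} (h : i ≠ j) : ne (dg i) (dg j) = true := by
  fin_cases i <;> fin_cases j <;> first | rfl | exact absurd rfl h

/-- entries of a quadruple -/
def get (q : Q) : Fin 4 → ℕ
  | 0 => q.a
  | 1 => q.b
  | 2 => q.c
  | 3 => q.d

/-- the four edge functionals -/
noncomputable def uu (k : Fin 4) (z : E 2) : ℝ :=
  match k with
  | 0 => z 0
  | 1 => z 1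
  | 2 => 10000 - z 0 - z 1
  | 3 => 1121 * z 1 - 4 * z 0 + 35500

theorem uu_hom (lam : ℝ) (k : Fin 4) (i : Dg) (z : E 2) :
    uu k (hom lam quad (ix i) z) = lam * uu k z + (1 - lam) * (get (U i) k : ℝ) := by
  cases i <;> fin_cases k <;> simp [uu, hom, quad, ix, get, U] <;> ring

theorem uu_quad (k : Fin 4) (i : Fin 4) : uu k (quad i) = (get (U (dg i)) k : ℝ) := by
  fin_cases i <;> fin_cases k <;> simp [uu, quad, get, U, dg] <;> norm_num

theorem hasSum_geo {lam : ℝ} (h0 : 0 < lam) (h1 : lam < 1) (c : ℝ) :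
    HasSum (fun n : ℕ => (1 - lam) * lam ^ n * c) c := by
  have := ((hasSum_geometric_of_lt_one h0.le h1).mul_left (1 - lam)).mul_right c
  rwa [mul_inv_cancel₀ (by linarith : (1 - lam) ≠ 0), one_mul] at this

theorem hasSum_coord {lam : ℝ} {p : Fin 4 → E 2} {e : ℕ → Fin 4} {x : E 2}
    (h : IsAddr lam p e x) (c : Fin 2) :
    HasSum (fun n : ℕ => (1 - lam) * lam ^ n * (p (e n) c)) (x c) := by
  have h2 := (EuclideanSpace.proj c : E 2 →L[ℝ] ℝ).hasSum h
  have hf : (fun n : ℕ => (1 - lam) * lam ^ n * (p (e n) c))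
      = fun n : ℕ => (EuclideanSpace.proj c : E 2 →L[ℝ] ℝ) ((1 - lam) • lam ^ n • p (e n)) := by
    funext n
    simp [mul_assoc]
  rw [hf]
  exact h2

theorem hasSum_uu {lam : ℝ} (h0 : 0 < lam) (h1 : lam < 1) {e : ℕ → Fin 4} {x : E 2}
    (h : IsAddr lam quad e x) (k : Fin 4) :
    HasSum (fun n : ℕ => (1 - lam) * lam ^ n * (get (U (dg (e n))) k : ℝ)) (uu k x) := by
  have hx := hasSum_coord h 0
  have hy := hasSum_coord h 1
  have key : ∀ n, (get (U (dg (e n))) k : ℝ) = uu k (quad (e n)) := fun n => (uu_quad k (e n)).symm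
  simp only [key]
  fin_cases k
  · exact hx
  · exact hy
  · have := ((hasSum_geo h0 h1 10000).sub hx).sub hy
    have hf : (fun n : ℕ => (1 - lam) * lam ^ n * uu 2 (quad (e n)))
        = fun n : ℕ => (1 - lam) * lam ^ n * 10000 - (1 - lam) * lam ^ n * (quad (e n) 0)
          - (1 - lam) * lam ^ n * (quad (e n) 1) := by
      funext n
      simp only [uu]
      ring
    change HasSum (fun n : ℕ => (1 - lam) * lam ^ n * uu 2 (quad (e n))) _
    rw [hf]
    exact this
  · have := ((hy.mul_left 1121).sub (hx.mul_left 4)).add (hasSum_geo h0 h1 35500)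
    have hf : (fun n : ℕ => (1 - lam) * lam ^ n * uu 3 (quad (e n)))
        = fun n : ℕ => 1121 * ((1 - lam) * lam ^ n * (quad (e n) 1))
          - 4 * ((1 - lam) * lam ^ n * (quad (e n) 0)) + (1 - lam) * lam ^ n * 35500 := by
      funext n
      simp only [uu]
      ring
    change HasSum (fun n : ℕ => (1 - lam) * lam ^ n * uu 3 (quad (e n))) _
    rw [hf]
    exact this

/-- upper bounds of the functionals on the polygon -/
def Phi : Q := ⟨9996, 10000, 10000, 11245500⟩

theorem U_le (i : Dg) (k : Fin 4) : get (U i) k ≤ get Phi k := by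
  cases i <;> fin_cases k <;> simp [get, U, Phi]

theorem uu_nonneg {lam : ℝ} (h0 : 0 < lam) (h1 : lam < 1) {e : ℕ → Fin 4} {x : E 2}
    (h : IsAddr lam quad e x) (k : Fin 4) : 0 ≤ uu k x := by
  refine (hasSum_uu h0 h1 h k).nonneg (fun n => ?_)
  have : 0 ≤ lam ^ n := pow_nonneg h0.le n
  have h2 : (0 : ℝ) ≤ (get (U (dg (e n))) k : ℝ) := Nat.cast_nonneg _
  have h3 : 0 ≤ 1 - lam := by linarith
  positivity

theorem uu_le {lam : ℝ} (h0 : 0 < lam) (h1 : lam < 1) {e : ℕ → Fin 4} {x : E 2}
    (h : IsAddr lam quad e x) (k : Fin 4) : uu k x ≤ (get Phi k : ℝ) := by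
  refine hasSum_le (fun n => ?_) (hasSum_uu h0 h1 h k) (hasSum_geo h0 h1 _)
  have : 0 ≤ lam ^ n := pow_nonneg h0.le n
  have h3 : 0 ≤ 1 - lam := by linarith
  have h2 : (get (U (dg (e n))) k : ℝ) ≤ (get Phi k : ℝ) := by exact_mod_cast U_le _ k
  exact mul_le_mul_of_nonneg_left h2 (by positivity)

/-- prefixes of sequences -/
def Pref : List Dg → (ℕ → Fin 4) → Prop
  | [], _ => True
  | a :: w, e => e 0 = ix a ∧ Pref w (fun n => e (n + 1))

theorem pref_append (w : List Dg) (e : ℕ → Fin 4) (h : Pref w e) :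
    ∃ x : Dg, Pref (w ++ [x]) e := by
  induction w generalizing e with
  | nil => exact ⟨dg (e 0), (ix_dg _).symm, trivial⟩
  | cons a w ih =>
    obtain ⟨h1, h2⟩ := h
    obtain ⟨x, hx⟩ := ih _ h2
    exact ⟨x, h1, hx⟩

/-- unique addresses at the ratio `19 / 30` -/
def Uq (e : ℕ → Fin 4) (x : E 2) : Prop :=
  IsAddr (19 / 30) quad e x ∧ ∀ e', IsAddr (19 / 30) quad e' x → e' = e

theorem uq_shift {e : ℕ → Fin 4} {x : E 2} (h : Uq e x) :
    Uq (fun n => e (n + 1)) (inv (19 / 30) quad (e 0) x) := by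
  refine ⟨addr_shift (by norm_num) quad e x h.1, fun e' he' => ?_⟩
  have h2 := addr_cons' quad (e 0) e' _ he'
  rw [hom_inv (by norm_num)] at h2
  have h3 := h.2 _ h2
  funext n
  have := congrFun h3 (n + 1)
  exact this

/-- words that are not prefixes of unique addresses -/
def Dead (w : List Dg) : Prop := ∀ e x, Uq e x → Pref w e → False

theorem dead_cons {w : List Dg} (h : Dead w) (a : Dg) : Dead (a :: w) :=
  fun _ _ hu hp => h _ _ (uq_shift hu) hp.2

theorem dead_append {w : List Dg} (h : Dead w) (v : List Dg) : Dead (v ++ w) := by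
  induction v with
  | nil => exact h
  | cons a v ih => exact dead_cons ih a

theorem dead_of_ext {w : List Dg} (h : ∀ x : Dg, Dead (w ++ [x])) : Dead w := by
  intro e x hu hp
  obtain ⟨a, ha⟩ := pref_append w e hp
  exact h a e x hu ha

/-- bounds for the points whose address starts with `w` -/
def InvQ (w : List Dg) (s : ℕ) (lo hi : Q) : Prop :=
  ∀ e x, IsAddr (19 / 30) quad e x → Pref w e → ∀ k,
    (get lo k : ℝ) ≤ s * uu k x ∧ s * uu k x ≤ (get hi k : ℝ)

theorem get_stp (s : ℕ) (u q : Q) (k : Fin 4) :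
    get (stp s u q) k = 19 * get q k + s * get u k := by
  fin_cases k <;> rfl

theorem get_mulQ (c : ℕ) (q : Q) (k : Fin 4) : get (mulQ c q) k = c * get q k := by
  fin_cases k <;> rfl

theorem get_subQ (p q : Q) (k : Fin 4) : get (subQ p q) k = get p k - get q k := by
  fin_cases k <;> rfl

theorem leQ_sound {p q : Q} (h : leQ p q = true) (k : Fin 4) : get p k ≤ get q k := by
  unfold leQ at h
  simp only [Bool.and_eq_true, Nat.ble_eq] at h
  obtain ⟨h1, h2, h3, h4⟩ := h
  fin_cases k
  · exact h1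
  · exact h2
  · exact h3
  · exact h4

theorem sepQ_sound {t : ℕ} {lo hi : Q} {o : Bx} (h : sepQ t lo hi o = true) :
    ∃ k, get hi k ≤ t * get o.lo k ∨ t * get o.hi k ≤ get lo k := by
  unfold sepQ at h
  simp only [Bool.or_eq_true, Nat.ble_eq] at h
  rcases h with h | h | h | h | h | h | h | h
  · exact ⟨0, Or.inl h⟩
  · exact ⟨0, Or.inr h⟩
  · exact ⟨1, Or.inl h⟩
  · exact ⟨1, Or.inr h⟩
  · exact ⟨2, Or.inl h⟩
  · exact ⟨2, Or.inr h⟩
  · exact ⟨3, Or.inl h⟩
  · exact ⟨3, Or.inr h⟩

theorem sepAll_sound {t : ℕ} {lo hi : Q} {Os : List Bx} (h : sepAll t lo hi Os = true) :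
    ∀ o ∈ Os, ∃ k, get hi k ≤ t * get o.lo k ∨ t * get o.hi k ≤ get lo k := by
  induction Os with
  | nil => intro o ho; simp at ho
  | cons a os ih =>
    intro o ho
    unfold sepAll at h
    rw [Bool.and_eq_true] at h
    rcases List.mem_cons.mp ho with rfl | ho
    · exact sepQ_sound h.1
    · exact ih h.2 o ho

/-- the open box -/
def inB (o : Bx) (z : E 2) : Prop :=
  ∀ k, (get o.lo k : ℝ) < 30 ^ 12 * uu k z ∧ 30 ^ 12 * uu k z < (get o.hi k : ℝ)

/-- the inner region -/
def inR (z : E 2) : Prop := (∀ k, 0 ≤ uu k z) ∧ ∀ o ∈ Obs, ¬ inB o z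

theorem inv_uu (k : Fin 4) (j : Dg) (z : E 2) :
    19 * uu k (inv (19 / 30) quad (ix j) z) = 30 * uu k z - 11 * (get (U j) k : ℝ) := by
  have h := uu_hom (19 / 30) k j (inv (19 / 30) quad (ix j) z)
  rw [hom_inv (by norm_num)] at h
  rw [h]
  ring

/-- the region covered by the four images -/
theorem cover (z : E 2) (hz : ∀ k, 0 ≤ uu k z) :
    (∃ i : Dg, ∀ k, 0 ≤ uu k (inv (19 / 30) quad (ix i) z)) ∨ ∃ o ∈ Obs, inB o z := by
  by_contra hcon
  push Not at hcon
  obtain ⟨h1, h2⟩ := hcon
  have g : ∀ i : Dg, ∃ k : Fin 4, 30 * uu k z < 11 * (get (U i) k : ℝ) := by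
    intro i
    obtain ⟨k, hk⟩ := h1 i
    refine ⟨k, ?_⟩
    have := inv_uu k i z
    linarith
  have z0 := hz 0
  have z1 := hz 1
  have z2 := hz 2
  have z3 := hz 3
  simp only [uu] at z0 z1 z2 z3
  have a0 : 30 * (10000 - z 0 - z 1) < 110000 ∨
      30 * (1121 * z 1 - 4 * z 0 + 35500) < 390500 := by
    obtain ⟨k, hk⟩ := g .A
    fin_cases k <;> simp [uu, get, U] at hk
    · exfalso; linarith
    · exfalso; linarith
    · left; linarith
    · right; linarith
  have a1 : 30 * z 0 < 97625 ∨ 30 * (10000 - z 0 - z 1) < 12375 := by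
    obtain ⟨k, hk⟩ := g .B
    fin_cases k <;> simp [uu, get, U] at hk
    · left; linarith
    · exfalso; linarith
    · right; linarith
    · exfalso; linarith
  have a2 : 30 * z 0 < 109956 ∨ 30 * z 1 < 44 := by
    obtain ⟨k, hk⟩ := g .C
    fin_cases k <;> simp [uu, get, U] at hk
    · left; linarith
    · right; linarith
    · exfalso; linarith
    · exfalso; linarith
  have a3 : 30 * z 1 < 110000 ∨ 30 * (1121 * z 1 - 4 * z 0 + 35500) < 123700500 := by
    obtain ⟨k, hk⟩ := g .D
    fin_cases k <;> simp [uu, get, U] at hk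
    · exfalso; linarith
    · left; linarith
    · exfalso; linarith
    · right; linarith
  have b0 : 30 * (10000 - z 0 - z 1) < 110000 := by
    rcases a0 with a0 | a0
    · exact a0
    · exfalso
      rcases a1 with a1 | a1 <;> rcases a2 with a2 | a2 <;> linarith
  have b3 : 30 * z 1 < 110000 := by
    rcases a3 with a3 | a3
    · exact a3
    · by_contra hc
      rcases a1 with a1 | a1 <;> rcases a2 with a2 | a2 <;> linarith
  have b1 : 30 * z 0 < 97625 := by
    rcases a1 with a1 | a1
    · exact a1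
    · exfalso
      rcases a2 with a2 | a2 <;> linarith
  refine h2 ⟨⟨1417176000000000000000, 1636395412500000000000, 1636395412500000000000,
    1846347822562500000000000⟩, ⟨1729397587500000000000, 1948617000000000000000,
    1948617000000000000000, 2197597108500000000000000⟩⟩ (List.mem_cons_self ..) ?_
  intro k
  fin_cases k <;> simp only [uu, get] <;> push_cast <;> constructor <;> linarith

theorem inclAny_sound {i : Dg} {o : Bx} {Os : List Bx} (h : inclAny i o Os = true) :
    ∃ o' ∈ Os, incl i o o' = true := by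
  induction Os with
  | nil => simp [inclAny] at h
  | cons a os ih =>
    unfold inclAny at h
    rw [Bool.or_eq_true] at h
    rcases h with h | h
    · exact ⟨a, List.mem_cons_self .., h⟩
    · obtain ⟨o', ho', h'⟩ := ih h
      exact ⟨o', List.mem_cons_of_mem _ ho', h'⟩

theorem clo_sound {Os L : List Bx} (h : clo Os L = true) (o : Bx) (ho : o ∈ L) (i : Dg) :
    cov Os o i = true := by
  induction L with
  | nil => simp at ho
  | cons a os ih =>
    unfold clo at h
    simp only [Bool.and_eq_true] at h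
    obtain ⟨⟨ha, hb, hc, hd⟩, h2⟩ := h
    rcases List.mem_cons.mp ho with rfl | ho
    · cases i
      · exact ha
      · exact hb
      · exact hc
      · exact hd
    · exact ih h2 ho

/-- from `f_i z ∈ R`, `z ∈ o` one gets a point of `R` -/
theorem cov_sound (o : Bx) (i : Dg) (h : cov Obs o i = true) (y : E 2) (hy : inR y)
    (hz : inB o (inv (19 / 30) quad (ix i) y)) : ∃ j : Dg, inR (inv (19 / 30) quad (ix j) y) := by
  have hj : ∀ j : Dg, covj Obs o i j = true → ∃ j : Dg, inR (inv (19 / 30) quad (ix j) y) := by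
    intro j hcj
    refine ⟨j, ?_⟩
    unfold covj at hcj
    rw [Bool.and_eq_true, Bool.and_eq_true] at hcj
    obtain ⟨_, h1, h2⟩ := hcj
    have hlow : ∀ k, ((19 * get o.lo k + 11 * 30 ^ 12 * get (U i) k : ℕ) : ℝ)
        < 30 ^ 12 * (30 * uu k y) ∧
        30 ^ 12 * (30 * uu k y) < ((19 * get o.hi k + 11 * 30 ^ 12 * get (U i) k : ℕ) : ℝ) := by
      intro k
      obtain ⟨c1, c2⟩ := hz k
      have e1 := inv_uu k i y
      push_cast
      constructor <;> nlinarith
    constructor
    · intro k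
      have e2 := inv_uu k j y
      have c := leQ_sound h1 k
      rw [get_mulQ, get_stp] at c
      have c' : ((11 * 30 ^ 12 * get (U j) k : ℕ) : ℝ)
        ≤ ((19 * get o.lo k + 11 * 30 ^ 12 * get (U i) k : ℕ) : ℝ) := by exact_mod_cast c
      have := (hlow k).1
      push_cast at c' this
      nlinarith
    · intro o' ho' hin
      obtain ⟨k, hk⟩ := sepAll_sound h2 o' ho'
      have c := leQ_sound h1 k
      rw [get_mulQ, get_stp] at c
      rw [get_subQ, get_stp, get_mulQ, get_subQ, get_stp, get_mulQ] at hk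
      obtain ⟨c1, c2⟩ := hin k
      have e2 := inv_uu k j y
      obtain ⟨d1, d2⟩ := hlow k
      rcases hk with hk | hk
      · have hk' : ((19 * get o.hi k + 11 * 30 ^ 12 * get (U i) k : ℕ) : ℝ)
          ≤ ((19 * get o'.lo k + 11 * 30 ^ 12 * get (U j) k : ℕ) : ℝ) := by
          have : 19 * get o.hi k + 11 * 30 ^ 12 * get (U i) k
            ≤ 19 * get o'.lo k + 11 * 30 ^ 12 * get (U j) k := by omega
          exact_mod_cast this
        push_cast at hk' d2
        nlinarith
      · have hk' : ((19 * get o'.hi k + 11 * 30 ^ 12 * get (U j) k : ℕ) : ℝ)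
          ≤ ((19 * get o.lo k + 11 * 30 ^ 12 * get (U i) k : ℕ) : ℝ) := by
          have : 19 * get o'.hi k + 11 * 30 ^ 12 * get (U j) k
            ≤ 19 * get o.lo k + 11 * 30 ^ 12 * get (U i) k := by omega
          exact_mod_cast this
        push_cast at hk' d1
        nlinarith
  unfold cov at h
  simp only [Bool.or_eq_true] at h
  rcases h with h | h | h | h | h
  · exact hj _ h
  · exact hj _ h
  · exact hj _ h
  · exact hj _ h
  · exfalso
    obtain ⟨o', ho', hin⟩ := inclAny_sound h
    refine hy.2 o' ho' ?_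
    intro k
    unfold incl at hin
    rw [Bool.and_eq_true] at hin
    have g1 := leQ_sound hin.1 k
    have g2 := leQ_sound hin.2 k
    rw [get_mulQ, get_stp] at g1
    rw [get_mulQ, get_stp] at g2
    have g1' : ((30 * get o'.lo k : ℕ) : ℝ)
      ≤ ((19 * get o.lo k + 11 * 30 ^ 12 * get (U i) k : ℕ) : ℝ) := by exact_mod_cast g1
    have g2' : ((19 * get o.hi k + 11 * 30 ^ 12 * get (U i) k : ℕ) : ℝ)
      ≤ ((30 * get o'.hi k : ℕ) : ℝ) := by exact_mod_cast g2
    obtain ⟨c1, c2⟩ := hz k
    have e1 := inv_uu k i y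
    push_cast at g1' g2'
    constructor <;> nlinarith

theorem R_step (y : E 2) (hy : inR y) : ∃ j : Dg, inR (inv (19 / 30) quad (ix j) y) := by
  rcases cover y hy.1 with ⟨i, hi⟩ | ⟨o, ho, hin⟩
  · by_cases hR : inR (inv (19 / 30) quad (ix i) y)
    · exact ⟨i, hR⟩
    · have : ∃ o ∈ Obs, inB o (inv (19 / 30) quad (ix i) y) := by
        by_contra hc
        push Not at hc
        exact hR ⟨hi, hc⟩
      obtain ⟨o, ho, hin⟩ := this
      exact cov_sound o i (clo_sound clo_ok o ho i) y hy hin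
  · exact absurd hin (hy.2 o ho)

theorem R_bdd (y : E 2) (hy : inR y) : ‖y‖ ≤ 20000 := by
  have h0 := hy.1 0
  have h1 := hy.1 1
  have h2 := hy.1 2
  simp only [uu] at h0 h1 h2
  rw [EuclideanSpace.norm_eq, Fin.sum_univ_two, Real.norm_of_nonneg h0, Real.norm_of_nonneg h1]
  rw [Real.sqrt_le_left (by norm_num)]
  nlinarith

theorem R_addr (y : E 2) (hy : inR y) : ∃ e, IsAddr (19 / 30) quad e y := by
  have step : ∀ y : {y : E 2 // inR y}, ∃ i : Fin 4, ∃ z : {y : E 2 // inR y},
      (y : E 2) = hom (19 / 30) quad i z := by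
    rintro ⟨y, hy⟩
    obtain ⟨j, hj⟩ := R_step y hy
    exact ⟨ix j, ⟨_, hj⟩, (hom_inv (by norm_num) _ _ _).symm⟩
  choose i z hz using step
  let y' : ℕ → {y : E 2 // inR y} :=
    fun n => Nat.rec (motive := fun _ => {y : E 2 // inR y}) ⟨y, hy⟩ (fun _ w => z w) n
  have hys : ∀ n, y' (n + 1) = z (y' n) := fun n => rfl
  have hyy : ∀ n, ((y' n : {y : E 2 // inR y}) : E 2)
      = hom (19 / 30) quad (i (y' n)) ((y' (n + 1) : {y : E 2 // inR y}) : E 2) := by
    intro n
    rw [hys n]
    exact hz (y' n)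
  exact ⟨fun n => i (y' n), addr_of_orbit (by norm_num) (by norm_num) quad (fun n => i (y' n))
    (fun n => ((y' n : {y : E 2 // inR y}) : E 2)) 20000 (fun n => R_bdd _ (y' n).2) hyy⟩

theorem inv_step {w : List Dg} {s : ℕ} {lo hi : Q} (h : InvQ w s lo hi) (i : Dg) :
    InvQ (i :: w) (30 * s) (stp (11 * s) (U i) lo) (stp (11 * s) (U i) hi) := by
  intro e x he hp k
  obtain ⟨hp1, hp2⟩ := hp
  have h2 := h _ _ (addr_shift (by norm_num) quad e x he) hp2 k
  have e1 := inv_uu k i x
  rw [← hp1] at e1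
  rw [get_stp, get_stp]
  obtain ⟨c1, c2⟩ := h2
  push_cast
  have e2 : (s : ℝ) * (19 * uu k (inv (19 / 30) quad (e 0) x))
      = s * (30 * uu k x - 11 * (get (U i) k : ℝ)) := by rw [e1]
  constructor <;> nlinarith

theorem leaf_sound {w : List Dg} {s : ℕ} {lo hi : Q} {i j : Dg} (hs : 0 < s)
    (h : InvQ (i :: w) s lo hi) (hc : leafc Obs s lo hi i j = true) : Dead (i :: w) := by
  intro e x hu hp
  unfold leafc at hc
  rw [Bool.and_eq_true, Bool.and_eq_true] at hc
  obtain ⟨hne, h1, h2⟩ := hc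
  have hR : inR (inv (19 / 30) quad (ix j) x) := by
    have hs' : (0 : ℝ) < s := by exact_mod_cast hs
    constructor
    · intro k
      have e2 := inv_uu k j x
      have c := leQ_sound h1 k
      rw [get_mulQ, get_mulQ] at c
      have c' : ((11 * s * get (U j) k : ℕ) : ℝ) ≤ ((30 * get lo k : ℕ) : ℝ) := by exact_mod_cast c
      obtain ⟨b1, b2⟩ := h e x hu.1 hp k
      push_cast at c'
      have : 0 ≤ (s : ℝ) * (19 * uu k (inv (19 / 30) quad (ix j) x)) := by
        rw [e2]; nlinarith
      have h3 : 0 ≤ 19 * uu k (inv (19 / 30) quad (ix j) x) :=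
        nonneg_of_mul_nonneg_right this hs'
      linarith
    · intro o' ho' hin
      obtain ⟨k, hk⟩ := sepAll_sound h2 o' ho'
      have c := leQ_sound h1 k
      rw [get_mulQ, get_mulQ] at c
      rw [get_mulQ, get_subQ, get_mulQ, get_mulQ, get_mulQ, get_subQ, get_mulQ, get_mulQ] at hk
      obtain ⟨c1, c2⟩ := hin k
      have e2 := inv_uu k j x
      obtain ⟨b1, b2⟩ := h e x hu.1 hp k
      set v := uu k (inv (19 / 30) quad (ix j) x) with hv
      set G := (get (U j) k : ℝ) with hG
      have e3 : (s : ℝ) * (19 * v) = 30 * (s * uu k x) - 11 * (s * G) := by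
        rw [e2]; ring
      rcases hk with hk | hk
      · have hlohi : (get lo k : ℝ) ≤ (get hi k : ℝ) := le_trans b1 b2
        have hlohi' : get lo k ≤ get hi k := by exact_mod_cast hlohi
        have hk2 : 30 ^ 12 * (30 * get hi k) ≤ 19 * s * get o'.lo k
            + 30 ^ 12 * (11 * s * get (U j) k) := by
          rw [Nat.mul_sub] at hk
          omega
        have hk' : ((30 ^ 12 * (30 * get hi k) : ℕ) : ℝ) ≤ ((19 * s * get o'.lo k
            + 30 ^ 12 * (11 * s * get (U j) k) : ℕ) : ℝ) := by exact_mod_cast hk2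
        push_cast at hk'
        rw [← hG] at hk'
        have m1 : (s : ℝ) * (get o'.lo k : ℝ) < s * (30 ^ 12 * v) :=
          mul_lt_mul_of_pos_left c1 hs'
        nlinarith
      · have hk2 : 19 * s * get o'.hi k + 30 ^ 12 * (11 * s * get (U j) k)
            ≤ 30 ^ 12 * (30 * get lo k) := by
          rw [Nat.mul_sub] at hk
          have := Nat.mul_le_mul_left (30 ^ 12) c
          omega
        have hk' : ((19 * s * get o'.hi k + 30 ^ 12 * (11 * s * get (U j) k) : ℕ) : ℝ)
            ≤ ((30 ^ 12 * (30 * get lo k) : ℕ) : ℝ) := by exact_mod_cast hk2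
        push_cast at hk'
        rw [← hG] at hk'
        have m1 : (s : ℝ) * (30 ^ 12 * v) < s * (get o'.hi k : ℝ) :=
          mul_lt_mul_of_pos_left c2 hs'
        nlinarith
  obtain ⟨e', he'⟩ := R_addr _ hR
  have h3 := addr_cons' quad (ix j) e' _ he'
  rw [hom_inv (by norm_num)] at h3
  have h4 := hu.2 _ h3
  have h5 := congrFun h4 0
  have h6 : ix j = e 0 := h5
  rw [hp.1] at h6
  exact ne_ix hne h6.symm

/-- soundness of the trie -/
theorem chk_sound (T : Tr) : ∀ (w : List Dg) (s : ℕ) (lo hi : Q) (i : Dg), 0 < s →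
    InvQ w s lo hi → (w = [] ∨ ∃ w', w = i :: w') → (w = [] → ∀ j, T ≠ .l j) →
    chk Obs T s lo hi i = true → ∀ r, hit T r = true → Dead (r.reverse ++ w) := by
  induction T with
  | z => intro w s lo hi i _ _ _ _ _ r hr; simp [hit] at hr
  | l j =>
    intro w s lo hi i hs hI hw hne hc r _
    refine dead_append ?_ _
    rcases hw with rfl | ⟨w', rfl⟩
    · exact absurd rfl (hne rfl j)
    · exact leaf_sound hs hI hc
  | n a b c d iha ihb ihc ihd =>
    intro w s lo hi i hs hI _ _ hc r hr
    unfold chk at hc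
    simp only [Bool.and_eq_true] at hc
    obtain ⟨hca, hcb, hcc, hcd⟩ := hc
    cases r with
    | nil => simp [hit] at hr
    | cons x r =>
      have hrev : (x :: r).reverse ++ w = r.reverse ++ (x :: w) := by simp
      rw [hrev]
      cases x with
      | A => exact iha (.A :: w) _ _ _ .A (by omega) (inv_step hI .A) (Or.inr ⟨w, rfl⟩)
              (fun h => absurd h (List.cons_ne_nil _ _)) hca r hr
      | B => exact ihb (.B :: w) _ _ _ .B (by omega) (inv_step hI .B) (Or.inr ⟨w, rfl⟩)
              (fun h => absurd h (List.cons_ne_nil _ _)) hcb r hr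
      | C => exact ihc (.C :: w) _ _ _ .C (by omega) (inv_step hI .C) (Or.inr ⟨w, rfl⟩)
              (fun h => absurd h (List.cons_ne_nil _ _)) hcc r hr
      | D => exact ihd (.D :: w) _ _ _ .D (by omega) (inv_step hI .D) (Or.inr ⟨w, rfl⟩)
              (fun h => absurd h (List.cons_ne_nil _ _)) hcd r hr

theorem hit_dead (r : List Dg) (h : hit TT r = true) : Dead r.reverse := by
  have := chk_sound TT [] 1 ⟨0, 0, 0, 0⟩ ⟨9996, 10000, 10000, 11245500⟩ .A (by norm_num)
    (by
      intro e x he _ k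
      constructor
      · have := uu_nonneg (by norm_num) (by norm_num) he k
        have h0 : get ⟨0, 0, 0, 0⟩ k = 0 := by fin_cases k <;> rfl
        rw [h0]; simpa using this
      · have := uu_le (by norm_num) (by norm_num) he k
        simpa [Phi] using this)
    (Or.inl rfl) (fun _ j => by unfold TT; exact Tr.noConfusion) chk_ok r h
  simpa using this

theorem walk_dead (f : ℕ) : ∀ r : List Dg, walk TT f r = true → Dead r.reverse := by
  induction f with
  | zero => intro r h; exact hit_dead r h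
  | succ f ih =>
    intro r h
    unfold walk at h
    rw [Bool.or_eq_true] at h
    rcases h with h | h
    · exact hit_dead r h
    · simp only [Bool.and_eq_true] at h
      obtain ⟨ha, hb, hc, hd⟩ := h
      refine dead_of_ext (fun x => ?_)
      have hrev : r.reverse ++ [x] = (x :: r).reverse := by simp
      rw [hrev]
      cases x
      · exact ih _ ha
      · exact ih _ hb
      · exact ih _ hc
      · exact ih _ hd

theorem pair_dead (j i : Dg) (h : ne j i = true) : Dead [j, i] := by
  have := walk_dead 30 [i, j] (walk_all j i h)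
  simpa using this

theorem uq_const {e : ℕ → Fin 4} {x : E 2} (h : Uq e x) : ∀ n, e (n + 1) = e n := by
  have key : ∀ n : ℕ, ∃ y, Uq (fun m => e (n + m)) y := by
    intro n
    induction n with
    | zero => exact ⟨x, by simpa using h⟩
    | succ n ih =>
      obtain ⟨y, hy⟩ := ih
      have h3 := uq_shift hy
      have h4 : (fun m => e (n + 1 + m)) = fun m => e (n + (m + 1)) := by
        funext m
        congr 1
        ring
      exact ⟨_, h4 ▸ h3⟩
  intro n
  by_contra hc
  obtain ⟨y, hy⟩ := key n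
  refine pair_dead (dg (e n)) (dg (e (n + 1))) (ne_dg (Ne.symm hc)) _ y hy ?_
  refine ⟨?_, ?_, trivial⟩
  · rw [ix_dg]; rfl
  · rw [ix_dg]

/-- at the ratio `19/30` only the vertices have unique addresses -/
theorem no_unique {e : ℕ → Fin 4} {x : E 2} (h : Uq e x) : x ∈ Set.range quad :=
  ⟨e 0, (addr_const (by norm_num) (by norm_num) quad e (uq_const h) x h.1).symm⟩

end Pool.T6H46.UA
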